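import Pool.Agent.MP_4cde56_an.ND.St

set_option autoImplicit false

namespace Pool.Agent.MP_4cde56_an.ND

open MeasureTheory Finset Filter Topology
open scoped Pointwise ENNReal BoundedContinuousFunction

section


noncomputable def r0_SC (k v : ℕ) : ℝ := if v < 2 * k + 1 then rt v else 0

noncomputable def r1_SC (k v : ℕ) : ℝ := if v = 0 then 0 else r0_SC k (v - 1)

noncomputable def a_SC (k v : ℕ) : ℝ := 2 / 3 * r0_SC k v + 1 / 3 * r1_SC k v

noncomputable def f_SC (k v : ℕ) : ℝ :=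
  (if v = 0 then 33 / 20 else 8 / 5 * (1 / 3) ^ (v - 1) + 81 / 1000 * (3 / 4) ^ (v - 1))
    + (if v = 2 * k + 1 then 1 / 2 else 0)

lemma al_eq_SC (k v : ℕ) : al k v = a_SC k v / ZZ k := by
  unfold al a_SC r1_SC r0_SC rh
  split_ifs <;> ring

lemma a_zero_SC (k : ℕ) : a_SC k 0 = 11 / 15 := by
  simp only [a_SC, r1_SC, r0_SC, rt]
  norm_num

lemma a_mid_SC {k u : ℕ} (h : u < 2 * k) : a_SC k (u + 1) = 5 / 9 * (1 / 3) ^ u := by
  simp only [a_SC, r1_SC, r0_SC, rt, Nat.add_sub_cancel]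
  rw [if_pos (by omega), if_neg (by omega), if_pos (by omega), pow_succ, pow_succ]
  ring

lemma a_top_SC (k : ℕ) : a_SC k (2 * k + 1) = 1 / 3 * rt (2 * k) := by
  simp only [a_SC, r1_SC, r0_SC, Nat.add_sub_cancel]
  rw [if_neg (by omega), if_neg (by omega), if_pos (by omega)]
  ring

lemma a_out_SC {k v : ℕ} (h : 2 * k + 1 < v) : a_SC k v = 0 := by
  simp only [a_SC, r1_SC, r0_SC]
  rw [if_neg (by omega), if_neg (by omega), if_neg (by omega)]
  ring

lemma rt_even_SC {k : ℕ} (hk : 1 ≤ k) : 0 ≤ rt (2 * k) ∧ rt (2 * k) ≤ 1 / 6 := by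
  unfold rt
  rw [pow_mul, pow_mul]
  have h1 : ((1 / 3 : ℝ) ^ 2) ^ k ≤ (1 / 3) ^ 2 :=
    pow_le_of_le_one (by positivity) (by norm_num) (by omega)
  have h2 : ((-1 / 2 : ℝ) ^ 2) ^ k ≤ (-1 / 2) ^ 2 :=
    pow_le_of_le_one (by positivity) (by norm_num) (by omega)
  have h3 : (0 : ℝ) ≤ ((1 / 3 : ℝ) ^ 2) ^ k := by positivity
  have h4 : (0 : ℝ) ≤ ((-1 / 2 : ℝ) ^ 2) ^ k := by positivity
  constructor <;> nlinarith

lemma a_nonneg_SC {k : ℕ} (hk : 1 ≤ k) (v : ℕ) : 0 ≤ a_SC k v := by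
  rcases v with _ | u
  · rw [a_zero_SC]; norm_num
  · rcases lt_trichotomy u (2 * k) with h | h | h
    · rw [a_mid_SC h]; positivity
    · rw [h, a_top_SC]; linarith [(rt_even_SC hk).1]
    · rw [a_out_SC (by omega)]

lemma sum_r0_SC (k : ℕ) (y : ℕ → ℝ) : ∑ v ∈ range (2 * k + 2), r0_SC k v * y v
    = ∑ v ∈ range (2 * k + 1), rt v * y v := by
  rw [sum_range_succ]
  have : r0_SC k (2 * k + 1) = 0 := by simp [r0_SC]
  rw [this, zero_mul, add_zero]
  exact sum_congr rfl fun v hv => by rw [r0_SC, if_pos (mem_range.1 hv)]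

lemma sum_r1_SC (k : ℕ) (y : ℕ → ℝ) : ∑ v ∈ range (2 * k + 2), r1_SC k v * y v
    = ∑ v ∈ range (2 * k + 1), rt v * y (v + 1) := by
  rw [sum_range_succ']
  have : r1_SC k 0 = 0 := by simp [r1_SC]
  rw [this, zero_mul, add_zero]
  refine sum_congr rfl fun v hv => ?_
  rw [r1_SC, if_neg (by omega), Nat.add_sub_cancel, r0_SC, if_pos (mem_range.1 hv)]

lemma sum_a_SC (k : ℕ) (y : ℕ → ℝ) : ∑ v ∈ range (2 * k + 2), a_SC k v * y v
    = 2 / 3 * ∑ v ∈ range (2 * k + 1), rt v * y v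
      + 1 / 3 * ∑ v ∈ range (2 * k + 1), rt v * y (v + 1) := by
  rw [← sum_r0_SC, ← sum_r1_SC, mul_sum, mul_sum, ← sum_add_distrib]
  exact sum_congr rfl fun v _ => by rw [a_SC]; ring

lemma sum_a_one_SC (k : ℕ) : ∑ v ∈ range (2 * k + 2), a_SC k v = ZZ k := by
  have := sum_a_SC k (fun _ => 1)
  simp only [mul_one] at this
  rw [this, ZZ]
  ring

lemma ZZ_ge_SC {k : ℕ} (hk : 1 ≤ k) : 11 / 15 + 5 / 9 ≤ ZZ k := by
  rw [← sum_a_one_SC]
  have h1 : ∑ v ∈ range 2, a_SC k v ≤ ∑ v ∈ range (2 * k + 2), a_SC k v :=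
    sum_le_sum_of_subset_of_nonneg (range_subset_range.2 (by omega)) fun v _ _ => a_nonneg_SC hk v
  rw [sum_range_succ, sum_range_one, a_zero_SC, show 1 = 0 + 1 from rfl,
    a_mid_SC (show 0 < 2 * k by omega)] at h1
  norm_num at h1 ⊢
  linarith

lemma d_sq_SC {k : ℕ} (hk : 1 ≤ k) {v : ℕ} (hv : v < 2 * k + 2) :
    (r0_SC k v - r1_SC k v) ^ 2 ≤ f_SC k v * a_SC k v := by
  rcases v with _ | u
  · rw [a_zero_SC]
    simp only [f_SC, r1_SC, r0_SC, rt]
    norm_num
  · rcases lt_or_eq_of_le (show u ≤ 2 * k by omega) with h | h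
    · rw [a_mid_SC h]
      simp only [f_SC, r1_SC, r0_SC, rt, Nat.add_sub_cancel]
      rw [if_pos (by omega), if_neg (by omega), if_pos (by omega), if_neg (by omega),
        if_neg (by omega)]
      have e1 : ((-1 / 2 : ℝ) ^ u) ^ 2 = (3 / 4) ^ u * (1 / 3) ^ u := by
        rw [← pow_mul, mul_comm u 2, pow_mul, ← mul_pow]; norm_num
      rw [pow_succ (1 / 3 : ℝ) u, pow_succ (-1 / 2 : ℝ) u]
      nlinarith [sq_nonneg (2 / 3 * (1 / 3 : ℝ) ^ u - 3 / 20 * (-1 / 2) ^ u)]
    · rw [h, a_top_SC]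
      simp only [f_SC, r1_SC, r0_SC, Nat.add_sub_cancel]
      rw [if_neg (by omega), if_neg (by omega), if_pos (by omega), if_neg (by omega), if_pos trivial]
      obtain ⟨h1, h2⟩ := rt_even_SC hk
      have h3 : (0 : ℝ) ≤ 8 / 5 * (1 / 3) ^ (2 * k) + 81 / 1000 * (3 / 4) ^ (2 * k) := by positivity
      nlinarith [mul_nonneg h3 h1]

lemma geom_SC {z : ℝ} (h0 : 0 ≤ z) (h1 : z < 1) (n : ℕ) : ∑ i ∈ range n, z ^ i ≤ (1 - z)⁻¹ :=
  sum_le_hasSum _ (fun i _ => pow_nonneg h0 i) (hasSum_geometric_of_lt_one h0 h1)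

lemma sum_f_SC (k : ℕ) : ∑ v ∈ range (2 * k + 2), f_SC k v ≤ 5 := by
  unfold f_SC
  rw [sum_add_distrib, sum_ite_eq', if_pos (mem_range.2 (by omega)), sum_range_succ', if_pos rfl]
  simp only [Nat.add_sub_cancel, Nat.add_eq_zero_iff, one_ne_zero, and_false, if_false]
  rw [sum_add_distrib, ← mul_sum, ← mul_sum]
  have h3 := geom_SC (z := 1 / 3) (by norm_num) (by norm_num) (2 * k + 1)
  have h4 := geom_SC (z := 3 / 4) (by norm_num) (by norm_num) (2 * k + 1)
  norm_num at h3 h4 ⊢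
  linarith

lemma f_nonneg_SC (k v : ℕ) : 0 ≤ f_SC k v := by
  unfold f_SC
  split_ifs <;> positivity

theorem SC_pf : SC_st := by
  intro k hk
  have hZ' := ZZ_ge_SC hk
  have hZ : 0 < ZZ k := by linarith
  refine ⟨fun v => ?_, ?_, fun y => ?_⟩
  · rw [al_eq_SC]; exact div_nonneg (a_nonneg_SC hk v) hZ.le
  · simp only [al_eq_SC]
    rw [← sum_div, sum_a_one_SC, div_self hZ.ne']
  · set P := ∑ v ∈ range (2 * k + 1), rt v * y v with hP
    set Q := ∑ v ∈ range (2 * k + 1), rt v * y (v + 1) with hQ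
    set S := ∑ v ∈ range (2 * k + 2), a_SC k v * y v ^ 2 with hS
    have e1 : ∑ v ∈ range (2 * k + 1), rh k v * y v = P / ZZ k := by
      rw [hP, sum_div]
      exact sum_congr rfl fun v hv => by rw [rh, if_pos (mem_range.1 hv)]; ring
    have e2 : ∑ v ∈ range (2 * k + 1), rh k v * y (v + 1) = Q / ZZ k := by
      rw [hQ, sum_div]
      exact sum_congr rfl fun v hv => by rw [rh, if_pos (mem_range.1 hv)]; ring
    have e3 : ∑ v ∈ range (2 * k + 2), al k v * y v ^ 2 = S / ZZ k := by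
      rw [hS, sum_div]
      exact sum_congr rfl fun v _ => by rw [al_eq_SC]; ring
    set m := (2 / 3 * P + 1 / 3 * Q) / ZZ k with hm
    have hmZ : m * ZZ k = 2 / 3 * P + 1 / 3 * Q := div_mul_cancel₀ _ hZ.ne'
    have h1 := Finset.sum_sq_le_sum_mul_sum_of_sq_le_mul (range (2 * k + 2))
      (r := fun v => (r0_SC k v - r1_SC k v) * (y v - m)) (f := fun v => f_SC k v)
      (g := fun v => a_SC k v * (y v - m) ^ 2) (fun v _ => f_nonneg_SC k v)
      (fun v _ => mul_nonneg (a_nonneg_SC hk v) (sq_nonneg _))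
      (fun v hv => by
        rw [mul_pow, ← mul_assoc]
        exact mul_le_mul_of_nonneg_right (d_sq_SC hk (mem_range.1 hv)) (sq_nonneg _))
    have e4 : ∑ v ∈ range (2 * k + 2), (r0_SC k v - r1_SC k v) * (y v - m) = P - Q := by
      simp only [sub_mul, sum_sub_distrib]
      rw [sum_r0_SC k (fun v => y v - m), sum_r1_SC k (fun v => y v - m)]
      simp only [mul_sub, sum_sub_distrib]
      ring
    have e5 : ∑ v ∈ range (2 * k + 2), a_SC k v * (y v - m) ^ 2 = S - m ^ 2 * ZZ k := by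
      have : ∀ v, a_SC k v * (y v - m) ^ 2
          = a_SC k v * y v ^ 2 - 2 * m * (a_SC k v * y v) + m ^ 2 * a_SC k v := fun v => by ring
      simp only [this, sum_add_distrib, sum_sub_distrib, ← mul_sum]
      rw [← hS, sum_a_SC k y, sum_a_one_SC, ← hP, ← hQ, ← hmZ]
      ring
    have h3 : 0 ≤ ∑ v ∈ range (2 * k + 2), a_SC k v * (y v - m) ^ 2 :=
      sum_nonneg fun v _ => mul_nonneg (a_nonneg_SC hk v) (sq_nonneg _)
    have h4 := h1.trans (mul_le_mul_of_nonneg_right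
      ((sum_f_SC k).trans (show (5 : ℝ) ≤ 9 / 2 * ZZ k by linarith)) h3)
    rw [e4, e5] at h4
    have e6 : 2 / 3 * (P / ZZ k) ^ 2 + 1 / 3 * (Q / ZZ k) ^ 2
        = ((m * ZZ k) ^ 2 + 2 / 9 * (P - Q) ^ 2) / ZZ k ^ 2 := by
      rw [hmZ]; field_simp; ring
    rw [e1, e2, e3, e6, div_le_div_iff₀ (by positivity) hZ]
    nlinarith [mul_le_mul_of_nonneg_right h4 hZ.le]

end

section


/-- A truncated geometric sequence. -/
noncomputable def cut_IT (k : ℕ) (c : ℝ) (l : ℕ) : ℝ := if l < 2 * k then c ^ l else 0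

lemma ph_eq_IT (k : ℕ) : ph k = cut_IT k (-2) := rfl

lemma sum_rt_IT (n : ℕ) :
    ∑ v ∈ range n, rt v = 3 / 2 * (1 - (1 / 3) ^ n) + 1 / 15 * (1 - (-1 / 2) ^ n) := by
  induction n with
  | zero => simp
  | succ n ih => rw [Finset.sum_range_succ, ih, rt, pow_succ, pow_succ]; ring

lemma ZZ_bounds_IT (k : ℕ) : 1 ≤ ZZ k ∧ ZZ k ≤ 2 := by
  rw [ZZ, sum_rt_IT]
  have h1 : (1 / 3 : ℝ) ^ (2 * k + 1) ≤ 1 / 3 := by
    rw [pow_succ]
    have : (1 / 3 : ℝ) ^ (2 * k) ≤ 1 := pow_le_one₀ (by norm_num) (by norm_num)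
    linarith
  have h2 : (0 : ℝ) ≤ (1 / 3) ^ (2 * k + 1) := by positivity
  have h3 : |(-1 / 2 : ℝ) ^ (2 * k + 1)| ≤ 1 := by
    rw [abs_pow]
    exact pow_le_one₀ (abs_nonneg _) (by rw [abs_le]; constructor <;> norm_num)
  obtain ⟨h4, h5⟩ := abs_le.mp h3
  constructor <;> linarith

lemma al_eq_IT {k v : ℕ} (hv : v < 2 * k + 1) :
    al k v = (5 / 3 * (1 / 3) ^ v - if v = 0 then 14 / 15 else 0) / ZZ k := by
  rcases v with _ | v
  · simp only [al, rh, if_pos hv, rt, if_true, pow_zero]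
    ring
  · have hv' : v < 2 * k + 1 := by omega
    simp only [al, rh, if_pos hv, Nat.add_sub_cancel, if_pos hv', rt, Nat.succ_ne_zero, if_false,
      pow_succ]
    ring

lemma Tal_cut_IT {k l u : ℕ} (c : ℝ) (h : l + (u + 1) = 2 * k) :
    Tal k (cut_IT k c) l
      = c ^ l * (5 / 3 * ∑ v ∈ range (u + 1), (c / 3) ^ v - 14 / 15) / ZZ k := by
  have hsub : range (u + 1) ⊆ range (2 * k + 2) := Finset.range_subset_range.mpr (by omega)
  rw [Tal, ← Finset.sum_subset hsub (fun v _ hv => by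
    rw [Finset.mem_range] at hv
    rw [cut_IT, if_neg (by omega), mul_zero])]
  have h1 : ∀ v ∈ range (u + 1), al k v * cut_IT k c (l + v)
      = c ^ l / ZZ k * (5 / 3 * (c / 3) ^ v - if v = 0 then 14 / 15 else 0) := by
    intro v hv
    rw [Finset.mem_range] at hv
    have hl : l + v < 2 * k := by omega
    rw [al_eq_IT (by omega), cut_IT, if_pos hl, pow_add]
    have e : (c / 3) ^ v = c ^ v * (1 / 3) ^ v := by rw [← mul_pow]; ring
    rw [e]
    split_ifs with h0
    · rw [h0]; ring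
    · ring
  rw [Finset.sum_congr rfl h1, ← Finset.mul_sum, Finset.sum_sub_distrib, ← Finset.mul_sum,
    Finset.sum_ite_eq', if_pos (Finset.mem_range.mpr (Nat.succ_pos u))]
  ring

lemma Tal_cut_zero_IT {k l : ℕ} (c : ℝ) (h : ¬ l < 2 * k) : Tal k (cut_IT k c) l = 0 :=
  Finset.sum_eq_zero (fun v _ => by rw [cut_IT, if_neg (by omega), mul_zero])

lemma geom_IT (r : ℝ) (n : ℕ) : (1 - r) * ∑ v ∈ range n, r ^ v = 1 - r ^ n :=
  mul_neg_geom_sum r n

lemma W_nonneg_IT (k l : ℕ) : 0 ≤ cut_IT k (5 / 2) l := by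
  rw [cut_IT]; split_ifs
  · positivity
  · exact le_rfl

lemma Tal_W_IT (k l : ℕ) : Tal k (cut_IT k (5 / 2)) l ≤ 10 * cut_IT k (5 / 2) l := by
  by_cases h : l < 2 * k
  · obtain ⟨u, hu⟩ : ∃ u, l + (u + 1) = 2 * k := ⟨2 * k - l - 1, by omega⟩
    rw [Tal_cut_IT _ hu, cut_IT, if_pos h]
    have h1 := geom_IT (5 / 2 / 3) (u + 1)
    have h2 : (0 : ℝ) ≤ (5 / 2 / 3) ^ (u + 1) := by positivity
    have h3 : (0 : ℝ) ≤ (5 / 2) ^ l := by positivity
    obtain ⟨h4, -⟩ := ZZ_bounds_IT k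
    rw [div_le_iff₀ (by linarith)]
    have h5 : 5 / 3 * ∑ v ∈ range (u + 1), (5 / 2 / 3 : ℝ) ^ v - 14 / 15 ≤ 10 * ZZ k := by
      linarith
    have := mul_le_mul_of_nonneg_left h5 h3
    linarith
  · rw [Tal_cut_zero_IT _ h, cut_IT, if_neg h, mul_zero]

lemma Tal_ph_IT (k l : ℕ) :
    1 / (15 * ZZ k) * cut_IT k (-2) l - (4 / 5) ^ (2 * k) * cut_IT k (5 / 2) l
      ≤ Tal k (cut_IT k (-2)) l := by
  by_cases h : l < 2 * k
  · obtain ⟨u, hu⟩ : ∃ u, l + (u + 1) = 2 * k := ⟨2 * k - l - 1, by omega⟩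
    rw [Tal_cut_IT _ hu, cut_IT, cut_IT, if_pos h, if_pos h]
    have h1 := geom_IT (-2 / 3) (u + 1)
    have e1 : 5 / 3 * ∑ v ∈ range (u + 1), (-2 / 3 : ℝ) ^ v - 14 / 15
        = 1 / 15 - (-2 / 3) ^ (u + 1) := by linarith
    obtain ⟨h4, -⟩ := ZZ_bounds_IT k
    have hZ : 0 < ZZ k := by linarith
    have e2 : (4 / 5 : ℝ) ^ (2 * k) * (5 / 2) ^ l = 2 ^ l * (4 / 5) ^ (u + 1) := by
      rw [← hu, pow_add, mul_right_comm, ← mul_pow]; norm_num
    have h5 : (-2 : ℝ) ^ l * (-2 / 3) ^ (u + 1) ≤ 2 ^ l * (4 / 5) ^ (u + 1) := by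
      refine (le_abs_self _).trans ?_
      rw [abs_mul, abs_pow, abs_pow, abs_neg, abs_two]
      refine mul_le_mul_of_nonneg_left (pow_le_pow_left₀ (abs_nonneg _) ?_ _) (by positivity)
      rw [abs_le]; constructor <;> norm_num
    have h6 : (0 : ℝ) ≤ 2 ^ l * (4 / 5) ^ (u + 1) := by positivity
    have h7 : (-2 : ℝ) ^ l * (-2 / 3) ^ (u + 1) / ZZ k ≤ 2 ^ l * (4 / 5) ^ (u + 1) := by
      rw [div_le_iff₀ hZ]
      nlinarith
    have e3 : (-2 : ℝ) ^ l * (1 / 15 - (-2 / 3) ^ (u + 1)) / ZZ k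
        = 1 / (15 * ZZ k) * (-2) ^ l - (-2) ^ l * (-2 / 3) ^ (u + 1) / ZZ k := by
      field_simp
    rw [e1, e2, e3]
    linarith
  · rw [Tal_cut_zero_IT _ h, cut_IT, cut_IT, if_neg h, if_neg h]
    simp

lemma iter_IT {k : ℕ} (hal : ∀ v, 0 ≤ al k v) (j l : ℕ) :
    (1 / (15 * ZZ k)) ^ j * cut_IT k (-2) l - (4 / 5) ^ (2 * k) * 11 ^ j * cut_IT k (5 / 2) l
      ≤ (Tal k)^[j] (cut_IT k (-2)) l := by
  induction j generalizing l with
  | zero =>
    have h5 : 0 ≤ (4 / 5 : ℝ) ^ (2 * k) * cut_IT k (5 / 2) l :=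
      mul_nonneg (by positivity) (W_nonneg_IT k l)
    simp only [pow_zero, one_mul, mul_one, Function.iterate_zero, id_eq]
    linarith
  | succ j ih =>
    rw [Function.iterate_succ_apply']
    have h0 : (1 / (15 * ZZ k)) ^ j * Tal k (cut_IT k (-2)) l
        - (4 / 5) ^ (2 * k) * 11 ^ j * Tal k (cut_IT k (5 / 2)) l
        ≤ Tal k ((Tal k)^[j] (cut_IT k (-2))) l := by
      rw [Tal, Tal, Finset.mul_sum, Finset.mul_sum, ← Finset.sum_sub_distrib]
      refine Finset.sum_le_sum (fun v _ => ?_)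
      have := mul_le_mul_of_nonneg_left (ih (l + v)) (hal v)
      linarith
    refine le_trans ?_ h0
    obtain ⟨hZ1, hZ2⟩ := ZZ_bounds_IT k
    have h1 := Tal_ph_IT k l
    have h2 := Tal_W_IT k l
    have h3 : 0 ≤ 1 / (15 * ZZ k) := by positivity
    have h3' : 1 / (15 * ZZ k) ≤ 11 := by
      rw [div_le_iff₀ (by positivity)]; linarith
    have h4 : 0 ≤ (1 / (15 * ZZ k)) ^ j := pow_nonneg h3 j
    have h5 : (1 / (15 * ZZ k)) ^ j ≤ 11 ^ j := pow_le_pow_left₀ h3 h3' j
    have h6 := W_nonneg_IT k l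
    have h7 : (0 : ℝ) ≤ (4 / 5) ^ (2 * k) := by positivity
    have h8 : (0 : ℝ) ≤ 11 ^ j := by positivity
    have h9 := mul_le_mul_of_nonneg_left h1 h4
    have h10 := mul_le_mul_of_nonneg_left h2 (mul_nonneg h7 h8)
    have h11 := mul_le_mul_of_nonneg_right h5 (mul_nonneg h7 h6)
    rw [pow_succ (1 / (15 * ZZ k)), pow_succ (11 : ℝ)]
    nlinarith

theorem IT_pf (hSC : SC_st) : IT_st := by
  intro K
  obtain ⟨k, hk⟩ : ∃ k : ℕ, (4 / 5 : ℝ) ^ k < 1 / (2 * 330 ^ K) :=
    exists_pow_lt_of_lt_one (by positivity) (by norm_num)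
  have hk' : (4 / 5 : ℝ) ^ (2 * (k + 1)) * 330 ^ K ≤ 1 / 2 := by
    have h1 : (4 / 5 : ℝ) ^ (2 * (k + 1)) ≤ (4 / 5) ^ k :=
      pow_le_pow_of_le_one (by norm_num) (by norm_num) (by omega)
    rw [lt_div_iff₀ (by positivity)] at hk
    have h2 : (0 : ℝ) ≤ 330 ^ K := by positivity
    nlinarith
  refine ⟨k + 1, by omega, (1 / 30) ^ K / 2, by positivity, fun j hj => ?_⟩
  rw [ph_eq_IT]
  refine le_trans ?_ (iter_IT (hSC (k + 1) (by omega)).1 j 0)
  have hpos : 0 < 2 * (k + 1) := by omega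
  simp only [cut_IT, if_pos hpos, pow_zero, mul_one]
  obtain ⟨hZ1, hZ2⟩ := ZZ_bounds_IT (k + 1)
  have h0 : (1 / 30 : ℝ) ≤ 1 / (15 * ZZ (k + 1)) :=
    one_div_le_one_div_of_le (by positivity) (by linarith)
  have h1 : (1 / 30 : ℝ) ^ j ≤ (1 / (15 * ZZ (k + 1))) ^ j := pow_le_pow_left₀ (by norm_num) h0 j
  have h2 : (1 / 30 : ℝ) ^ K ≤ (1 / 30) ^ j :=
    pow_le_pow_of_le_one (by norm_num) (by norm_num) hj.le
  have h3 : (330 : ℝ) ^ j ≤ 330 ^ K := pow_le_pow_right₀ (by norm_num) hj.le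
  have h4 : (11 : ℝ) ^ j = 330 ^ j * (1 / 30) ^ j := by rw [← mul_pow]; norm_num
  have h5 : (0 : ℝ) ≤ (4 / 5) ^ (2 * (k + 1)) := by positivity
  have h6 : (0 : ℝ) ≤ (1 / 30) ^ j := by positivity
  have h7 : (4 / 5 : ℝ) ^ (2 * (k + 1)) * 330 ^ j ≤ 1 / 2 :=
    (mul_le_mul_of_nonneg_left h3 h5).trans hk'
  have h8 := mul_le_mul_of_nonneg_right h7 h6
  rw [h4]
  nlinarith

end

section


/-- The values used in the scalar inequality. -/
noncomputable def yv_LET {G : Type} [AddCommGroup G] (σ : RG G) (g : G → ℝ) (x z : G) : ℕ → ℝ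
  | 0 => g x
  | v + 1 => op (σ ^ v) g z

lemma op_yv_LET {G : Type} [AddCommGroup G] {σ : RG G} (hσ : Prob σ) (g : G → ℝ) (x : G)
    (v : ℕ) : op σ (fun z => yv_LET σ g x z v) x = op (σ ^ v) g x := by
  rcases v with _ | v
  · simp only [yv_LET]
    rw [hσ.op_const, pow_zero, op_one]
  · simp only [yv_LET]
    rw [pow_succ', op_mul]

lemma op_yv_sq_LET {G : Type} [AddCommGroup G] {σ : RG G} (hσ : Prob σ) (g : G → ℝ) (x : G)
    (v : ℕ) : op σ (fun z => yv_LET σ g x z v ^ 2) x ≤ op (σ ^ v) (fun z => g z ^ 2) x := by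
  rcases v with _ | v
  · simp only [yv_LET]
    rw [hσ.op_const, pow_zero, op_one]
  · simp only [yv_LET]
    rw [pow_succ', op_mul]
    exact op_mono hσ.1 (fun z => (hσ.pow v).sq_op_le g z) x

lemma probB_LET {G : Type} [AddCommGroup G] {σ : RG G} (hσ : Prob σ) : Prob (lB σ) := by
  refine ⟨fun y => ?_, ?_⟩
  · rw [lB, AddMonoidAlgebra.coeff_add, Finsupp.add_apply, AddMonoidAlgebra.coeff_smul_apply,
      AddMonoidAlgebra.coeff_smul_apply, smul_eq_mul, smul_eq_mul]
    have h1 := (Prob.one (G := G)).1 y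
    have h2 := hσ.1 y
    positivity
  · rw [op_lB, hσ.2]
    norm_num

lemma probA_LET {G : Type} [AddCommGroup G] {σ : RG G} (hσ : Prob σ) (k : ℕ)
    (h0 : ∀ v, 0 ≤ al k v) (h1 : ∑ v ∈ range (2 * k + 2), al k v = 1) : Prob (lA k σ) := by
  refine ⟨fun y => ?_, ?_⟩
  · rw [lA, AddMonoidAlgebra.coeff_sum, Finsupp.finsetSum_apply]
    refine Finset.sum_nonneg (fun v _ => ?_)
    rw [AddMonoidAlgebra.coeff_smul_apply, smul_eq_mul]
    exact mul_nonneg (h0 v) ((hσ.pow v).1 y)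
  · rw [op_lA]
    exact (Finset.sum_congr rfl (fun v _ => by rw [(hσ.pow v).2, mul_one])).trans h1

lemma eq_LET {G : Type} [AddCommGroup G] (σ : RG G) (k : ℕ) : lA k σ = lB σ * lR k σ := by
  have h1 : ∑ v ∈ range (2 * k + 2), (2 / 3 * rh k v) • σ ^ v = (2 / 3 : ℝ) • lR k σ := by
    rw [Finset.sum_range_succ, lR, Finset.smul_sum]
    have : rh k (2 * k + 1) = 0 := by simp [rh]
    rw [this, mul_zero, zero_smul, add_zero]
    exact Finset.sum_congr rfl (fun v _ => by rw [smul_smul])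
  have h2 : ∑ v ∈ range (2 * k + 2), (1 / 3 * (if v = 0 then 0 else rh k (v - 1))) • σ ^ v
      = (1 / 3 : ℝ) • (σ * lR k σ) := by
    rw [Finset.sum_range_succ', lR, Finset.mul_sum, Finset.smul_sum]
    simp only [if_true, mul_zero, zero_smul, add_zero]
    refine Finset.sum_congr rfl (fun v _ => ?_)
    rw [if_neg (Nat.succ_ne_zero v), Nat.add_sub_cancel, mul_smul_comm, smul_smul, pow_succ']
  rw [lB, add_mul, smul_mul_assoc, smul_mul_assoc, one_mul, ← h1, ← h2, lA,
    ← Finset.sum_add_distrib]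
  exact Finset.sum_congr rfl (fun v _ => by rw [al, add_smul])

theorem LET_pf (G : Type) [AddCommGroup G] (hSC : SC_st) : LET_st G := by
  intro k hk σ hσ
  obtain ⟨h0, h1, h2⟩ := hSC k hk
  refine ⟨probA_LET hσ k h0 h1, probB_LET hσ, eq_LET σ k, fun g x => ?_⟩
  have e1 : op (lR k σ) g x
      = op σ (fun z => ∑ v ∈ range (2 * k + 1), rh k v * yv_LET σ g x z v) x := by
    rw [op_lR, op_sum]
    exact Finset.sum_congr rfl (fun v _ => by rw [op_const_mul, op_yv_LET hσ])
  have e2 : ∀ z, op (lR k σ) g z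
      = ∑ v ∈ range (2 * k + 1), rh k v * yv_LET σ g x z (v + 1) := fun z => by
    rw [op_lR]
    rfl
  have e3 : op (lR k σ) g x ^ 2
      ≤ op σ (fun z => (∑ v ∈ range (2 * k + 1), rh k v * yv_LET σ g x z v) ^ 2) x := by
    rw [e1]
    exact hσ.sq_op_le _ x
  calc op (lB σ) (fun z => op (lR k σ) g z ^ 2) x
      = 2 / 3 * op (lR k σ) g x ^ 2 + 1 / 3 * op σ (fun z => op (lR k σ) g z ^ 2) x := by
        rw [op_lB]
    _ ≤ 2 / 3 * op σ (fun z => (∑ v ∈ range (2 * k + 1), rh k v * yv_LET σ g x z v) ^ 2) x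
        + 1 / 3 * op σ (fun z =>
          (∑ v ∈ range (2 * k + 1), rh k v * yv_LET σ g x z (v + 1)) ^ 2) x := by
        simp only [← e2]
        linarith
    _ = op σ (fun z => 2 / 3 * (∑ v ∈ range (2 * k + 1), rh k v * yv_LET σ g x z v) ^ 2
        + 1 / 3 * (∑ v ∈ range (2 * k + 1), rh k v * yv_LET σ g x z (v + 1)) ^ 2) x := by
        rw [op_add, op_const_mul, op_const_mul]
    _ ≤ op σ (fun z => ∑ v ∈ range (2 * k + 2), al k v * yv_LET σ g x z v ^ 2) x :=
        op_mono hσ.1 (fun z => h2 (yv_LET σ g x z)) x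
    _ = ∑ v ∈ range (2 * k + 2), al k v * op σ (fun z => yv_LET σ g x z v ^ 2) x := by
        rw [op_sum]
        exact Finset.sum_congr rfl (fun v _ => by rw [op_const_mul])
    _ ≤ ∑ v ∈ range (2 * k + 2), al k v * op (σ ^ v) (fun z => g z ^ 2) x :=
        Finset.sum_le_sum (fun v _ => mul_le_mul_of_nonneg_left (op_yv_sq_LET hσ g x v) (h0 v))
    _ = _ := by rw [op_lA]

end

section


theorem rel_TRB {G : Type} [AddCommGroup G] {r : ℕ} {t : Fin r → G} (h : Dis t)
    {S T S' T' : Finset (Fin r)}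
    (e : ∑ i ∈ S, t i + ∑ i ∈ T, t i = ∑ i ∈ S', t i + ∑ i ∈ T', t i) {i : Fin r}
    (h1 : i ∉ S) (h2 : i ∈ T) (h3 : i ∉ S') (h4 : i ∉ T') : False := by
  have hs : ∀ A : Finset (Fin r), ∑ j, (if j ∈ A then (1 : ℤ) else 0) • t j = ∑ j ∈ A, t j :=
    fun A => by simp [ite_smul]
  refine h (fun j => (if j ∈ S then 1 else 0) + (if j ∈ T then 1 else 0) -
    ((if j ∈ S' then 1 else 0) + (if j ∈ T' then 1 else 0))) (fun j => ?_) ?_ i (by simp [*])
  · split_ifs <;> norm_num
  · simp only [sub_smul, add_smul, Finset.sum_sub_distrib, Finset.sum_add_distrib, hs, e, sub_self]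

theorem inj_TRB {G : Type} [AddCommGroup G] {r : ℕ} {t : Fin r → G} (h : Dis t)
    {S S' : Finset (Fin r)} (e : ∑ i ∈ S, t i = ∑ i ∈ S', t i) : S = S' := by
  have k : ∀ A B : Finset (Fin r), ∑ i ∈ A, t i = ∑ i ∈ B, t i → A ⊆ B := fun A B e i hi => by
    by_contra hB
    exact rel_TRB h (S := ∅) (T := A) (S' := ∅) (T' := B) (by rw [e]) (by simp) hi (by simp) hB
  exact (k _ _ e).antisymm (k _ _ e.symm)

theorem abs_TRB (k l : ℕ) : |ph k l| ≤ 4 ^ k := by
  unfold ph
  split_ifs with h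
  · rw [abs_pow, abs_neg, abs_two, show (4 : ℝ) = 2 ^ 2 by norm_num, ← pow_mul]
    exact pow_le_pow_right₀ one_le_two h.le
  · rw [abs_zero]; positivity

theorem step_TRB {k l : ℕ} (h : l < 2 * k) : 2 / 3 * ph k l + 1 / 3 * ph k (l + 1) ≤ 0 := by
  unfold ph
  rw [if_pos h]
  split_ifs with h'
  · rw [pow_succ]; linarith
  · have : ((-2 : ℝ)) ^ l < 0 := Odd.pow_neg ⟨k - 1, by omega⟩ (by norm_num)
    linarith

theorem TRB_pf (G : Type) [AddCommGroup G] : TRB_st G := by
  classical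
  intro k r hr t h
  obtain ⟨ψ, a1, a2, a3⟩ : ∃ ψ : G → ℝ, (∀ x, |ψ x| ≤ 4 ^ k) ∧
      (∀ S : Finset (Fin r), ψ (∑ i ∈ S, t i) = ph k S.card) ∧
      ∀ x, ψ x ≠ 0 → ∃ S : Finset (Fin r), ∑ i ∈ S, t i = x ∧ S.card < 2 * k := by
    refine ⟨fun x => if h : ∃ S : Finset (Fin r), ∑ i ∈ S, t i = x then ph k h.choose.card else 0,
      fun x => ?_, fun S => ?_, fun x hx => ?_⟩
    · dsimp only
      split_ifs
      · exact abs_TRB _ _
      · rw [abs_zero]; positivity
    · have e : ∃ S' : Finset (Fin r), ∑ i ∈ S', t i = ∑ i ∈ S, t i := ⟨S, rfl⟩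
      dsimp only
      rw [dif_pos e, inj_TRB h e.choose_spec]
    · dsimp only at hx
      split_ifs at hx with e
      · refine ⟨_, e.choose_spec, ?_⟩
        by_contra hc
        exact hx (if_neg hc)
      · exact absurd rfl hx
  refine ⟨ψ, a1, a2, fun z => ?_⟩
  have hr' : (0 : ℝ) < r := by exact_mod_cast hr
  have h4 : (0 : ℝ) < 4 ^ k := by positivity
  have hk : (0 : ℝ) ≤ k := by positivity
  rw [op_lB, op_sg]
  by_cases hz : ∃ S : Finset (Fin r), ∑ i ∈ S, t i = z ∧ S.card < 2 * k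
  · obtain ⟨S, rfl, hS⟩ := hz
    have b1 : ∑ i, ψ (∑ j ∈ S, t j + t i) ≤
        ∑ i, (ph k (S.card + 1) + if i ∈ S then 2 * 4 ^ k else 0) := by
      refine Finset.sum_le_sum fun i _ => ?_
      split_ifs with hi
      · linarith [(abs_le.1 (a1 (∑ j ∈ S, t j + t i))).2, (abs_le.1 (abs_TRB k (S.card + 1))).1]
      · rw [add_comm, ← Finset.sum_insert hi, a2, Finset.card_insert_of_notMem hi, add_zero]
    rw [Finset.sum_add_distrib, Finset.sum_ite_mem, Finset.univ_inter, Finset.sum_const,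
      Finset.sum_const, Finset.card_univ, Fintype.card_fin, nsmul_eq_mul, nsmul_eq_mul] at b1
    have b2 : (S.card : ℝ) ≤ 2 * k := by exact_mod_cast hS.le
    have b3 : (∑ i, ψ (∑ j ∈ S, t j + t i)) / r ≤ ph k (S.card + 1) + 4 * k * 4 ^ k / r := by
      rw [div_le_iff₀ hr', add_mul, div_mul_cancel₀ _ hr'.ne']
      nlinarith
    have b4 : 0 ≤ 4 * k * 4 ^ k / (r : ℝ) := by positivity
    rw [a2]
    linarith [step_TRB hS]
  · have b0 : ψ z = 0 := by
      by_contra hc
      exact hz (a3 z hc)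
    have b1 : ∀ i, ψ (z + t i) ≠ 0 →
        ∃ S : Finset (Fin r), ∑ j ∈ S, t j = z + t i ∧ S.card < 2 * k ∧ i ∉ S := fun i hi => by
      obtain ⟨S, e, hS⟩ := a3 _ hi
      refine ⟨S, e, hS, fun hm => hz ⟨S.erase i, ?_, Finset.card_erase_le.trans_lt hS⟩⟩
      rw [← Finset.sum_erase_add _ _ hm] at e
      exact add_right_cancel e
    have b2 : (Finset.univ.filter fun i => ψ (z + t i) ≠ 0).card ≤ 2 * k := by
      rcases (Finset.univ.filter fun i => ψ (z + t i) ≠ 0).eq_empty_or_nonempty with e | ⟨i₀, e⟩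
      · rw [e]; simp
      · obtain ⟨S₀, e₀, c₀, -⟩ := b1 i₀ (Finset.mem_filter.1 e).2
        refine (Finset.card_le_card (t := insert i₀ S₀) fun i hi => ?_).trans
          ((Finset.card_insert_le _ _).trans c₀)
        obtain ⟨S, e₁, -, c₁⟩ := b1 i (Finset.mem_filter.1 hi).2
        by_contra hc
        rw [Finset.mem_insert, not_or] at hc
        exact rel_TRB h (S := S₀) (T := {i}) (S' := S) (T' := {i₀})
          (by rw [e₀, e₁, Finset.sum_singleton, Finset.sum_singleton]; abel) hc.2 (by simp) c₁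
          (by simpa using hc.1)
    have b3 : ∑ i, ψ (z + t i) ≤ 2 * k * 4 ^ k := by
      rw [← Finset.sum_filter_ne_zero]
      refine (Finset.sum_le_card_nsmul _ _ (4 ^ k) fun i _ => (abs_le.1 (a1 _)).2).trans ?_
      rw [nsmul_eq_mul]
      exact mul_le_mul_of_nonneg_right (by exact_mod_cast b2) h4.le
    have b4 : (∑ i, ψ (z + t i)) / r ≤ 4 * k * 4 ^ k / r :=
      div_le_div_of_nonneg_right (by nlinarith) hr'.le
    have b5 : 0 ≤ 4 * k * 4 ^ k / (r : ℝ) := by positivity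
    rw [b0]
    linarith

end

section


section

variable {G : Type} [AddCommGroup G] {r : ℕ}

/-- Lower bound on the sums of at most `n` distinct letters. -/
def Good_TRA (t : Fin r → G) (h : G → ℝ) (φ : ℕ → ℝ) (n : ℕ) (d : ℝ) : Prop :=
  ∀ S : Finset (Fin r), S.card ≤ n → φ S.card - d ≤ h (∑ i ∈ S, t i)

variable {t : Fin r → G} {h : G → ℝ} {φ : ℕ → ℝ} {n N : ℕ} {d C : ℝ}

theorem step_TRA (hr : 0 < r) (hh : ∀ x, |h x| ≤ C) (hφ : ∀ l, |φ l| ≤ C) (hd : 0 ≤ d)
    (hn : n ≤ N) (g : Good_TRA t h φ (n + 1) d) :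
    Good_TRA t (op (sg t) h) (fun l => φ (l + 1)) n (d + 2 * C * N / r) := by
  intro S hS
  have hr' : (0 : ℝ) < r := by exact_mod_cast hr
  have hC : 0 ≤ C := (abs_nonneg _).trans (hφ 0)
  have h1 : ∑ i : Fin r, (φ (S.card + 1) - d - if i ∈ S then 2 * C else 0) ≤
      ∑ i, h (∑ j ∈ S, t j + t i) := sum_le_sum fun i _ => by
    split_ifs with hi
    · linarith [(abs_le.1 (hh (∑ j ∈ S, t j + t i))).1, (abs_le.1 (hφ (S.card + 1))).2]
    · have h2 := g (insert i S) (by rw [card_insert_of_notMem hi]; omega)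
      rwa [card_insert_of_notMem hi, sum_insert hi, add_comm (t i), ← sub_zero (_ - d)] at h2
  rw [sum_sub_distrib, sum_ite_mem, univ_inter, sum_const, sum_const, card_univ, Fintype.card_fin,
    nsmul_eq_mul, nsmul_eq_mul] at h1
  have h3 : (S.card : ℝ) ≤ N := by exact_mod_cast hS.trans hn
  rw [op_sg, le_div_iff₀ hr', sub_mul, add_mul, div_mul_cancel₀ _ hr'.ne']
  nlinarith [mul_le_mul_of_nonneg_right h3 hC]

theorem iter_TRA (hr : 0 < r) (hh : ∀ x, |h x| ≤ C) (hφ : ∀ l, |φ l| ≤ C) (hd : 0 ≤ d) (v : ℕ)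
    (hn : n + v ≤ N) (g : Good_TRA t h φ (n + v) d) :
    Good_TRA t (op (sg t ^ v) h) (fun l => φ (l + v)) n (d + v * (2 * C * N / r)) := by
  have hC : 0 ≤ C := (abs_nonneg _).trans (hφ 0)
  induction v generalizing n with
  | zero => simpa [op_one] using g
  | succ v ih =>
    have h1 := step_TRA (N := N) hr (fun x => ((sg_prob hr t).pow v).abs_op_le fun y _ => hh _)
      (fun l => hφ (l + v)) (by positivity) (by omega)
      (ih (n := n + 1) (by omega) (by rwa [add_right_comm]))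
    rw [pow_succ', op_mul, Nat.cast_succ, add_mul, one_mul, ← add_assoc]
    simpa only [add_assoc, add_comm 1 v] using h1

theorem let_TRA {k : ℕ} (a0 : ∀ v, 0 ≤ al k v) (a1 : ∑ v ∈ range (2 * k + 2), al k v = 1)
    (hr : 0 < r) (hh : ∀ x, |h x| ≤ C) (hφ : ∀ l, |φ l| ≤ C) (hd : 0 ≤ d)
    (hn : n + (2 * k + 1) ≤ N) (g : Good_TRA t h φ (n + (2 * k + 1)) d) :
    Good_TRA t (op (lA k (sg t)) h) (Tal k φ) n (d + (2 * k + 1) * (2 * C * N / r)) := by
  intro S hS
  have hC : 0 ≤ C := (abs_nonneg _).trans (hφ 0)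
  have e : ∀ x : ℝ, x = ∑ v ∈ range (2 * k + 2), al k v * x := fun x => by
    rw [← sum_mul, a1, one_mul]
  rw [op_lA, Tal, e (d + _), ← sum_sub_distrib]
  refine sum_le_sum fun v hv => ?_
  have hv' := mem_range.1 hv
  have h1 := iter_TRA (n := n) (N := N) hr hh hφ hd v (by omega)
    (fun S hS => g S (by omega)) S hS
  have h2 : (v : ℝ) ≤ 2 * k + 1 := by exact_mod_cast Nat.le_of_lt_succ hv'
  have h3 := mul_le_mul_of_nonneg_right h2 (show 0 ≤ 2 * C * N / r by positivity)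
  rw [← mul_sub]
  exact mul_le_mul_of_nonneg_left (by linarith) (a0 v)

theorem tal_TRA {k : ℕ} (a0 : ∀ v, 0 ≤ al k v) (a1 : ∑ v ∈ range (2 * k + 2), al k v = 1)
    (hφ : ∀ l, |φ l| ≤ C) (l : ℕ) : |Tal k φ l| ≤ C := by
  rw [← one_mul C, ← a1, sum_mul]
  refine (abs_sum_le_sum_abs _ _).trans (sum_le_sum fun v _ => ?_)
  rw [abs_mul, abs_of_nonneg (a0 v)]
  exact mul_le_mul_of_nonneg_left (hφ _) (a0 v)

end

theorem TRA_pf (G : Type) [AddCommGroup G] (hSC : SC_st) (hLET : LET_st G) : TRA_st G := by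
  intro k hk K r hr t ψ hψ hS j hj
  obtain ⟨a0, a1, -⟩ := hSC k hk
  have hA := (hLET k hk _ (sg_prob hr t)).1
  have hφ : ∀ j l, |(Tal k)^[j] (ph k) l| ≤ 4 ^ k := fun j => by
    induction j with
    | zero =>
      intro l
      rw [Function.iterate_zero_apply, ph]
      split_ifs with hl
      · rw [abs_pow, abs_neg, abs_two, show (4 : ℝ) = 2 ^ 2 by norm_num, ← pow_mul]
        exact pow_le_pow_right₀ one_le_two hl.le
      · rw [abs_zero]
        positivity
    | succ j ih =>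
      rw [Function.iterate_succ_apply']
      exact tal_TRA a0 a1 ih
  obtain ⟨N, hN⟩ : ∃ N, N = K * (2 * k + 2) := ⟨_, rfl⟩
  have key : ∀ j n, n + j * (2 * k + 1) ≤ N → Good_TRA t (op (lA k (sg t) ^ j) ψ)
      ((Tal k)^[j] (ph k)) n (j * ((2 * k + 1) * (2 * 4 ^ k * N / r))) := fun j => by
    induction j with
    | zero => exact fun n _ S _ => by simp [op_one, hS]
    | succ j ih =>
      intro n hn
      rw [Nat.succ_mul] at hn
      rw [Function.iterate_succ_apply', pow_succ', op_mul, Nat.cast_succ, add_mul, one_mul]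
      exact let_TRA a0 a1 hr (fun x => (hA.pow j).abs_op_le fun y _ => hψ _) (hφ j)
        (by positivity) (by omega) (ih _ (by omega))
  have h1 : j * (2 * k + 1) ≤ N := hN ▸ Nat.mul_le_mul hj.le (Nat.le_succ _)
  have h2 := key j 0 (by omega) ∅ le_rfl
  have h3 : (j : ℝ) * (2 * k + 1) ≤ N := by exact_mod_cast h1
  have h4 := mul_le_mul_of_nonneg_right h3 (show (0 : ℝ) ≤ 2 * 4 ^ k * N / r by positivity)
  have h5 : (K : ℝ) * (2 * k + 2) = N := by rw [hN]; push_cast; ring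
  have h6 : (2 : ℝ) * 4 ^ k * N ^ 2 / r = N * (2 * 4 ^ k * N / r) := by ring
  rw [card_empty, sum_empty] at h2
  rw [h5, h6]
  linarith

end

section


theorem ne_DIS {G : Type} [AddCommGroup G] [TopologicalSpace G] [IsTopologicalAddGroup G]
    (hG : ¬ DiscreteTopology G) {W : Set G} (hW : W ∈ 𝓝 (0 : G)) : ∃ u ∈ W, u ≠ 0 := by
  by_contra h
  push Not at h
  refine hG (discreteTopology_of_isOpen_singleton_zero (isOpen_iff_mem_nhds.2 fun x hx => ?_))
  rw [Set.mem_singleton_iff.1 hx]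
  exact mem_of_superset hW h

theorem ind_DIS {G : Type} [AddCommGroup G] [TopologicalSpace G] [IsTopologicalAddGroup G]
    [T2Space G] (hG : ¬ DiscreteTopology G) {V : Set G} (hV : V ∈ 𝓝 (0 : G)) (r : ℕ) :
    ∃ t : Fin r → G, (∀ i, t i ∈ V ∧ t i ≠ 0) ∧
      ∀ ε : Fin r → ℤ, (∀ i, |ε i| ≤ 2) → ∑ i, ε i • t i = 0 → ∀ i, ε i • t i = 0 := by
  induction r with
  | zero => exact ⟨fun _ => 0, fun i => i.elim0, fun _ _ _ i => i.elim0⟩
  | succ r ih =>
    obtain ⟨t, ht1, ht2⟩ := ih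
    obtain ⟨F, hF, hFm⟩ : ∃ F : Set G, F.Finite ∧
        ∀ ε : Fin r → ℤ, (∀ i, |ε i| ≤ 2) → ∑ i, ε i • t i ∈ F :=
      ⟨(fun ε : Fin r → ℤ => ∑ i, ε i • t i) '' {ε | ∀ i, ε i ∈ Set.Icc (-2 : ℤ) 2},
        (Set.Finite.pi' fun _ => Set.finite_Icc _ _).image _,
        fun ε hε => ⟨ε, fun i => abs_le.1 (hε i), rfl⟩⟩
    have hO : (F \ {0})ᶜ ∈ 𝓝 (0 : G) :=
      (hF.subset Set.sdiff_subset).isClosed.isOpen_compl.mem_nhds fun h => h.2 rfl
    have hW : ∀ᶠ u in 𝓝 (0 : G), ∀ e ∈ Set.Icc (-2 : ℤ) 2, e • u ∈ (F \ {0})ᶜ := by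
      refine (eventually_all_finite (Set.finite_Icc _ _)).2 fun e _ => ?_
      have h : Tendsto (fun u : G => e • u) (𝓝 0) (𝓝 0) :=
        (continuous_zsmul e).tendsto' 0 0 (smul_zero e)
      exact h.eventually hO
    obtain ⟨u, ⟨hu1, hu2⟩, hu3⟩ := ne_DIS hG (inter_mem hV hW)
    refine ⟨Fin.cons u t, fun i => ?_, fun ε hε h i => ?_⟩
    · refine Fin.cases ?_ (fun i => ?_) i
      · exact ⟨hu1, hu3⟩
      · exact ht1 i
    · rw [Fin.sum_univ_succ] at h
      simp only [Fin.cons_zero, Fin.cons_succ] at h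
      have h1 : (-ε 0) • u = ∑ i : Fin r, ε i.succ • t i := by
        rw [neg_smul]
        exact neg_eq_of_add_eq_zero_right h
      have h2 := hFm (fun i => ε i.succ) fun i => hε _
      have h3 := hu2 (-ε 0) (abs_le.1 (by rw [abs_neg]; exact hε 0))
      have h4 : ∑ i : Fin r, ε i.succ • t i = 0 := by
        by_contra hne
        rw [h1] at h3
        exact h3 ⟨h2, hne⟩
      refine Fin.cases ?_ (fun i => ?_) i
      · rw [h4, add_zero] at h
        exact h
      · exact ht2 (fun i => ε i.succ) (fun i => hε _) h4 i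

theorem DIS_pf (G : Type) [AddCommGroup G] [TopologicalSpace G] [IsTopologicalAddGroup G] [T2Space G] [LocallyCompactSpace G] [SecondCountableTopology G] [MeasurableSpace G] [BorelSpace G] (hG : ¬ DiscreteTopology G) : DIS_st G := by
  intro r V hV
  obtain ⟨t, ht1, ht2⟩ := ind_DIS hG hV r
  refine ⟨t, fun ε hε h i hi => (ht1 i).2 ?_, fun i => (ht1 i).1⟩
  have := ht2 ε hε h i
  rwa [hi, one_smul] at this

end

section


lemma inv_SL {y b : ℝ} (h : |y| ≤ b) (hb : b ≤ 1 / 2) :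
    0 < 1 + y ∧ (1 + y)⁻¹ ≤ 1 + 2 * b ^ 2 - y := by
  have h1 := abs_le.mp h
  have h2 : 0 < 1 + y := by linarith
  refine ⟨h2, ?_⟩
  have h3 : y ^ 2 ≤ b ^ 2 := sq_le_sq' h1.1 h1.2
  rw [inv_le_iff_one_le_mul₀ h2]
  have h4 := mul_nonneg (sq_nonneg y) (by linarith : (0 : ℝ) ≤ 1 + 2 * y)
  have h5 := mul_le_mul_of_nonneg_right h3 h2.le
  nlinarith

lemma big_SL (a b s : ℝ) (hs : 0 < s) : ∃ r : ℕ, 0 < r ∧ a / r ≤ s ∧ b / r ≤ s := by
  obtain ⟨r, hr⟩ := exists_nat_gt (max 0 (max (a / s) (b / s)))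
  have h0 : (0 : ℝ) < r := (le_max_left _ _).trans_lt hr
  have h1 : a / s < r := ((le_max_left _ _).trans (le_max_right _ _)).trans_lt hr
  have h2 : b / s < r := ((le_max_right _ _).trans (le_max_right _ _)).trans_lt hr
  rw [div_lt_iff₀ hs] at h1 h2
  refine ⟨r, Nat.cast_pos.mp h0, ?_, ?_⟩ <;> rw [div_le_iff₀ h0] <;> linarith

theorem SL_pf (G : Type) [AddCommGroup G] [TopologicalSpace G] [IsTopologicalAddGroup G]
    [T2Space G] [LocallyCompactSpace G] [SecondCountableTopology G] [MeasurableSpace G]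
    [BorelSpace G] (hIT : IT_st) (hLET : LET_st G) (hTRA : TRA_st G) (hTRB : TRB_st G)
    (hDIS : DIS_st G) : SL_st G := by
  intro K
  obtain ⟨k, hk, s, hs, hT⟩ := hIT K
  obtain ⟨r, hr, r1, r2⟩ := big_SL (4 * k * 4 ^ k) (2 * 4 ^ k * ((K : ℝ) * (2 * k + 2)) ^ 2)
    (s / 4) (by positivity)
  obtain ⟨C, hC⟩ : ∃ C : ℝ, C = 4 ^ k + s / 4 := ⟨_, rfl⟩
  have h4 : (0 : ℝ) < 4 ^ k := by positivity
  have hC0 : 0 < C := by rw [hC]; positivity
  obtain ⟨θ, hθ⟩ : ∃ θ : ℝ, θ = s / 2 / (4 * C ^ 2) := ⟨_, rfl⟩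
  have hθ0 : 0 < θ := by rw [hθ]; positivity
  have hθ2 : θ * C ^ 2 = s / 8 := by rw [hθ]; field_simp; norm_num
  have hθ1 : θ * C ≤ 1 / 2 := by
    refine le_of_mul_le_mul_right ?_ hC0
    have : θ * C * C = s / 8 := by rw [← hθ2]; ring
    rw [this, hC]
    linarith
  have hθ3 : 2 * (θ * C) ^ 2 = θ * (s / 4) := by
    rw [mul_pow, sq θ, mul_assoc θ, hθ2]; ring
  refine ⟨max 0 (1 - θ * (s / 4)), le_max_left _ _,
    max_lt one_pos (by have : 0 < θ * (s / 4) := by positivity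
                       linarith), fun V hV => ?_⟩
  obtain ⟨V₁, hV₁, s1⟩ := exists_nsmul_subset (K + 1) hV
  obtain ⟨V₂, hV₂, s2⟩ := exists_nsmul_subset (2 * k + 1) hV₁
  obtain ⟨t, hD, ht⟩ := hDIS r V₂ hV₂
  have hσ : SuppIn (sg t) V₂ := SuppIn.sum _ fun i _ => SuppIn.single _ _ (ht i)
  have hp : ∀ v ≤ 2 * k + 1, SuppIn (sg t ^ v) V₁ := fun v hv => (hσ.pow v).mono (s2 v hv)
  have h1 : V₁ ⊆ V := by simpa using s1 1 (by omega)
  have hA : SuppIn (lA k (sg t)) V₁ :=
    SuppIn.sum _ fun v hv => (hp v (by have := Finset.mem_range.mp hv; omega)).smul _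
  have hB : SuppIn (lB (sg t)) V₁ :=
    ((SuppIn.one (mem_of_mem_nhds hV₁)).smul _).add
      (SuppIn.smul (by simpa using hp 1 (by omega)) _)
  have hL := hLET k hk _ (sg_prob hr t)
  obtain ⟨ψ, p1, p2, p3⟩ := hTRB k r hr t hD
  have hy : ∀ x, |θ * (ψ x - s / 4)| ≤ θ * C := fun x => by
    rw [abs_mul, abs_of_pos hθ0]
    refine mul_le_mul_of_nonneg_left ?_ hθ0.le
    have := abs_le.mp (p1 x)
    rw [hC, abs_le]
    constructor <;> linarith
  refine ⟨_, _, _, fun x => 1 + θ * (ψ x - s / 4), hL, hA.mono h1, hB.mono h1,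
    fun j hj => (hA.pow j).mono (s1 j (by omega)), fun x => (inv_SL (hy x) hθ1).1,
    fun z => ?_, fun j hj => ?_⟩
  · rw [op_add, op_const_mul, op_sub, hL.2.1.op_const, hL.2.1.op_const]
    have := mul_le_mul_of_nonneg_left ((p3 z).trans r1) hθ0.le
    linarith
  · have hP := hL.1.pow j
    refine (op_mono hP.1 (fun x => (inv_SL (hy x) hθ1).2) 0).trans (le_trans ?_ (le_max_right _ _))
    rw [op_sub, op_const_mul, op_sub, hP.op_const, hP.op_const, hθ3]
    have a1 := hTRA k hk K r hr t ψ p1 p2 j hj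
    have a2 := hT j hj
    have a3 : s / 2 ≤ op (lA k (sg t) ^ j) ψ 0 - s / 4 := by linarith
    have := mul_le_mul_of_nonneg_left a3 hθ0.le
    linarith

end

section


theorem PROD_pf (G : Type) [AddCommGroup G] [TopologicalSpace G] [IsTopologicalAddGroup G]
    [T2Space G] [LocallyCompactSpace G] [SecondCountableTopology G] [MeasurableSpace G]
    [BorelSpace G] : PROD_st G := by
  classical
  intro E b hE hb
  obtain ⟨T, hT⟩ : ∃ T : Finset G, ∀ x u, E.coeff x ≠ 0 → b.coeff u ≠ 0 → x - u ∈ T :=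
    ⟨image₂ (· - ·) E.coeff.support b.coeff.support, fun x u hx hu =>
      mem_image₂_of_mem (Finsupp.mem_support_iff.2 hx) (Finsupp.mem_support_iff.2 hu)⟩
  obtain ⟨V, hV, h4⟩ := exists_nhds_zero_quarter
    (((image₂ (· - ·) T T).erase 0).finite_toSet.isClosed.isOpen_compl.mem_nhds (x := 0) (by simp))
  refine ⟨V ∩ -V, inter_mem hV (neg_mem_nhds_zero G hV), fun B e c hB sB e0 se hc h1 z => ?_⟩
  rw [op_mul]
  by_cases h : ∃ u0 v0 x0, b.coeff u0 ≠ 0 ∧ B.coeff v0 ≠ 0 ∧ E.coeff x0 ≠ 0 ∧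
      e (-x0 + (z + u0 + v0)) ≠ 0
  swap
  · refine le_trans (hb.op_le fun u hu => hB.op_le fun v hv => le_of_eq ?_)
      ((op_nonneg hb.1 hE z).trans (hc z))
    rw [star_def]
    refine sum_eq_zero fun x hx => ?_
    by_contra h'
    exact h ⟨u, v, x, hu, hv, left_ne_zero_of_mul h', right_ne_zero_of_mul h'⟩
  obtain ⟨u0, v0, x0, a1, a2, a3, a4⟩ := h
  have key : ∀ u v, b.coeff u ≠ 0 → B.coeff v ≠ 0 → star E e (z + u + v)
      = E.coeff (x0 - u0 + u) * e (z - (x0 - u0) + v) := by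
    intro u v hu hv
    rw [star_def, sum_eq_single (x0 - u0 + u) (fun x hx hne => ?_) (fun hx => ?_)]
    · congr 2
      abel
    · by_contra h'
      have b1 := h4 (se _ a4).1 (Set.mem_neg.1 (sB _ a2).2) (sB _ hv).1
        (Set.mem_neg.1 (se _ (right_ne_zero_of_mul h')).2)
      refine b1 (mem_coe.2 (mem_erase.2 ⟨fun e => hne ?_, mem_image₂.2
        ⟨_, hT x u (left_ne_zero_of_mul h') hu, _, hT x0 u0 a3 a1, by abel⟩⟩))
      rw [← sub_eq_zero, ← e]
      abel
    · rw [Finsupp.notMem_support_iff.1 hx, zero_mul]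
  refine le_trans ?_ (hc (x0 - u0))
  rw [op_def, op_def b]
  refine sum_le_sum fun u hu => mul_le_mul_of_nonneg_left ?_ (hb.1 u)
  calc _ = E.coeff (x0 - u0 + u) * op B e (z - (x0 - u0)) := by
        rw [op_def, op_def, mul_sum]
        refine sum_congr rfl fun v hv => ?_
        rw [key u v (Finsupp.mem_support_iff.1 hu) (Finsupp.mem_support_iff.1 hv), mul_left_comm]
    _ ≤ _ := mul_le_of_le_one_right (hE _) (h1 _)

end

section


theorem STEP_pf (G : Type) [AddCommGroup G] [TopologicalSpace G] [IsTopologicalAddGroup G]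
    [T2Space G] [LocallyCompactSpace G] [SecondCountableTopology G] [MeasurableSpace G]
    [BorelSpace G] (hSL : SL_st G) (hPROD : PROD_st G) : STEP_st G := by
  classical
  intro K
  obtain ⟨κ, hκ0, hκ1, hsl⟩ := hSL K
  refine ⟨κ, hκ0, hκ1, fun a b E c ha hb hI V hV => ?_⟩
  obtain ⟨hE0, hEb, hEa⟩ := hI
  obtain ⟨V1, hV1, hP⟩ := hPROD E b hE0 hb
  obtain ⟨A, B, R, e, hLN, hA, hB, hAj, he0, heB, heA⟩ := hsl (V ∩ V1) (inter_mem hV hV1)
  set Y : Finset G := (range K).biUnion (fun j => (A ^ j).coeff.support) with hY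
  set eY : RG G := ∑ y ∈ Y, AddMonoidAlgebra.single y (e y) with heY
  have hc : ∀ x, eY.coeff x = if x ∈ Y then e x else 0 := by
    intro x
    rw [heY, AddMonoidAlgebra.coeff_sum, Finsupp.finsetSum_apply]
    simp only [AddMonoidAlgebra.coeff_single, Finsupp.single_apply]
    rw [Finset.sum_ite_eq' Y x e]
  have hc0 : ∀ x, 0 ≤ eY.coeff x := fun x => by
    rw [hc]; split_ifs
    · exact (he0 x).le
    · exact le_rfl
  have hc1 : ∀ x, eY.coeff x ≤ e x := fun x => by
    rw [hc]; split_ifs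
    · exact le_rfl
    · exact (he0 x).le
  have hlow : ∀ j < K, ∀ x y, (A ^ j).coeff y ≠ 0 → E.coeff x * e y ≤ (E * eY).coeff (x + y) := by
    intro j hj x y hy
    have hyY : y ∈ Y :=
      Finset.mem_biUnion.mpr ⟨j, Finset.mem_range.mpr hj, Finsupp.mem_support_iff.mpr hy⟩
    by_cases hx : E.coeff x = 0
    · rw [hx, zero_mul]; exact coeff_mul_nonneg hE0 hc0 _
    · have := Finset.single_le_sum (f := fun z => E.coeff z * eY.coeff (-z + (x + y)))
        (fun z _ => mul_nonneg (hE0 z) (hc0 _)) (Finsupp.mem_support_iff.mpr hx)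
      simp only [neg_add_cancel_left, hc y, if_pos hyY] at this
      rw [coeff_mul_eq_star, star_def]
      exact this
  refine ⟨A, B, R, E * eY, hLN, hA.mono Set.inter_subset_left, hB.mono Set.inter_subset_left,
    coeff_mul_nonneg hE0 hc0, fun z => ?_, fun j hj => ⟨fun x hx => ?_, ?_⟩⟩
  · have e1 : ((E * eY).coeff : G → ℝ) = star E eY.coeff := funext (coeff_mul_eq_star E eY)
    rw [e1]
    refine hP B eY.coeff 1 hLN.2.1 (hB.mono Set.inter_subset_right) hc0 (fun y hy => ?_) hEb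
      (fun z => (op_mono hLN.2.1.1 hc1 z).trans (heB z)) z
    rw [hc] at hy
    have hyY : y ∈ Y := by
      by_contra h
      exact hy (if_neg h)
    obtain ⟨j, hj, hyj⟩ := Finset.mem_biUnion.mp hyY
    exact (hAj j (Finset.mem_range.mp hj) y (Finsupp.mem_support_iff.mp hyj)).2
  · rw [mul_pow] at hx
    obtain ⟨x1, x2, h1, h2, rfl⟩ := exists_of_coeff_mul_ne_zero hx
    exact (mul_pos ((hEa j hj).1 x1 h1) (he0 x2)).trans_le (hlow j hj x1 x2 h2)
  · rw [mul_pow, op_mul]
    have h1 : op (a ^ j) (op (A ^ j) (fun x => ((E * eY).coeff x)⁻¹)) 0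
        ≤ op (a ^ j) (fun x => κ * (E.coeff x)⁻¹) 0 := by
      refine op_mono_supp (ha.pow j).1 (fun x hx => ?_)
      rw [zero_add]
      have hxp := (hEa j hj).1 x hx
      have h2 : op (A ^ j) (fun z => ((E * eY).coeff z)⁻¹) x
          ≤ op (A ^ j) (fun z => (E.coeff x)⁻¹ * (e (-x + z))⁻¹) x := by
        refine op_mono_supp (hLN.1.pow j).1 (fun y hy => ?_)
        rw [neg_add_cancel_left, ← mul_inv]
        exact inv_anti₀ (mul_pos hxp (he0 y)) (hlow j hj x y hy)
      rw [op_const_mul, op_translate (A ^ j) (fun z => (e z)⁻¹), neg_add_cancel] at h2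
      refine h2.trans ?_
      rw [mul_comm κ]
      exact mul_le_mul_of_nonneg_left (heA j hj) (inv_pos.mpr hxp).le
    rw [op_const_mul] at h1
    exact h1.trans (mul_le_mul_of_nonneg_left (hEa j hj).2 hκ0)

end

section


lemma inv_start_STAGE {G : Type} [AddCommGroup G] (K : ℕ) {a b : RG G} (ha : Prob a)
    (hb : Prob b) : ∃ E : RG G, Inv K a b E 1 := by
  classical
  set Q : Finset G := (range K).biUnion (fun j => (a ^ j).coeff.support) with hQ
  set E : RG G := ∑ y ∈ Q, AddMonoidAlgebra.single y (1 : ℝ) with hE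
  have hc : ∀ x, E.coeff x = if x ∈ Q then 1 else 0 := by
    intro x
    rw [hE, AddMonoidAlgebra.coeff_sum, Finsupp.finsetSum_apply]
    simp only [AddMonoidAlgebra.coeff_single, Finsupp.single_apply, Finset.sum_ite_eq']
  have hmem : ∀ j < K, ∀ x, (a ^ j).coeff x ≠ 0 → E.coeff x = 1 := by
    intro j hj x hx
    rw [hc, if_pos]
    exact Finset.mem_biUnion.mpr ⟨j, Finset.mem_range.mpr hj, Finsupp.mem_support_iff.mpr hx⟩
  refine ⟨E, fun x => ?_, fun z => hb.op_le (fun y _ => ?_), fun j hj => ⟨fun x hx => ?_, ?_⟩⟩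
  · rw [hc]; split_ifs <;> norm_num
  · rw [hc]; split_ifs <;> norm_num
  · rw [hmem j hj x hx]; exact one_pos
  · refine (ha.pow j).op_le (fun y hy => ?_)
    rw [zero_add, hmem j hj y hy, inv_one]

lemma steps_STAGE {G : Type} [AddCommGroup G] [TopologicalSpace G] {K : ℕ} {κ : ℝ}
    (h : ∀ (a b E : RG G) (c : ℝ), Prob a → Prob b → Inv K a b E c → ∀ V ∈ 𝓝 (0 : G),
      ∃ A B R E' : RG G, LN A B R ∧ SuppIn A V ∧ SuppIn B V ∧ Inv K (a * A) (b * B) E' (κ * c))
    {a b : RG G} (ha : Prob a) (hb : Prob b) {V : Set G} (hV : V ∈ 𝓝 (0 : G)) (i : ℕ) :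
    ∃ A B R E : RG G, LN A B R ∧ SuppIn A (i • V) ∧ SuppIn B (i • V) ∧
      Inv K (a * A) (b * B) E (κ ^ i) := by
  induction i with
  | zero =>
    obtain ⟨E, hE⟩ := inv_start_STAGE K ha hb
    refine ⟨1, 1, 1, E, LN.one, ?_, ?_, by simpa using hE⟩
    · rw [zero_nsmul]; exact SuppIn.one Set.zero_mem_zero
    · rw [zero_nsmul]; exact SuppIn.one Set.zero_mem_zero
  | succ i ih =>
    obtain ⟨A, B, R, E, hLN, hA, hB, hI⟩ := ih
    obtain ⟨A', B', R', E', hLN', hA', hB', hI'⟩ :=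
      h (a * A) (b * B) E _ (ha.mul hLN.1) (hb.mul hLN.2.1) hI V hV
    refine ⟨A * A', B * B', R * R', E', hLN.mul hLN', ?_, ?_, ?_⟩
    · rw [succ_nsmul]; exact hA.mul hA'
    · rw [succ_nsmul]; exact hB.mul hB'
    · rw [← mul_assoc, ← mul_assoc, pow_succ']; exact hI'

lemma bump_STAGE {G : Type} [AddCommGroup G] [TopologicalSpace G] [IsTopologicalAddGroup G]
    [SecondCountableTopology G] {V : Set G} (hV : V ∈ 𝓝 (0 : G)) :
    ∃ W ∈ 𝓝 (0 : G), ∃ β : G → ℝ, Continuous β ∧ (∀ y, 0 ≤ β y) ∧ (∀ y, β y ≤ 1) ∧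
      (∀ y, β y ≠ 0 → y ∈ V) ∧ ∀ w ∈ W, β w = 1 := by
  obtain ⟨W, hW, hWc, hWV⟩ := exists_mem_nhds_isClosed_subset (interior_mem_nhds.mpr hV)
  obtain ⟨f, hf0, hf1, hf⟩ := exists_continuous_zero_one_of_isClosed
    (isOpen_interior (s := V)).isClosed_compl hWc
    (Set.disjoint_left.mpr (fun x hx hxW => hx (hWV hxW)))
  refine ⟨W, hW, f, f.continuous, fun y => (hf y).1, fun y => (hf y).2, fun y hy => ?_,
    fun w hw => hf1 hw⟩
  by_contra hyV
  exact hy (hf0 (fun h => hyV (interior_subset h)))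

theorem STAGE_pf (G : Type) [AddCommGroup G] [TopologicalSpace G] [IsTopologicalAddGroup G]
    [T2Space G] [LocallyCompactSpace G] [SecondCountableTopology G] [MeasurableSpace G]
    [BorelSpace G] (hSTEP : STEP_st G) (hPROD : PROD_st G) : STAGE_st G := by
  intro a b K L ha hb hL V hV
  obtain ⟨κ, hκ0, hκ1, hstep⟩ := hSTEP K
  obtain ⟨M, hM⟩ : ∃ M : ℕ, κ ^ M < 1 / (2 * L) :=
    exists_pow_lt_of_lt_one (by positivity) hκ1
  obtain ⟨V', hV', hVV⟩ := exists_nsmul_subset M hV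
  obtain ⟨A, B, R, E, hLN, hA, hB, hE0, hEb, hEa⟩ := steps_STAGE hstep ha hb hV' M
  refine ⟨A, B, R, hLN, hA.mono (hVV M le_rfl), hB.mono (hVV M le_rfl), ?_⟩
  have haA : Prob (a * A) := ha.mul hLN.1
  have hbB : Prob (b * B) := hb.mul hLN.2.1
  set F : RG G := AddMonoidAlgebra.ofCoeff
    (Finsupp.mapRange (fun t : ℝ => t / (t + L)) (by simp) E.coeff) with hF
  have hFc : ∀ x, F.coeff x = E.coeff x / (E.coeff x + L) := fun x => rfl
  have hpos : ∀ x, 0 < E.coeff x + L := fun x => by linarith [hE0 x]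
  have hF0 : ∀ x, 0 ≤ F.coeff x := fun x => by
    rw [hFc]; exact div_nonneg (hE0 x) (hpos x).le
  have hF1 : ∀ x, F.coeff x ≤ 1 := fun x => by
    rw [hFc, div_le_one (hpos x)]; linarith
  have hFb : ∀ z, op (b * B) F.coeff z ≤ 1 / L := by
    intro z
    have h1 : op (b * B) F.coeff z ≤ op (b * B) (fun x => 1 / L * E.coeff x) z := by
      refine op_mono hbB.1 (fun x => ?_) z
      rw [hFc, one_div, ← div_eq_inv_mul]
      exact div_le_div_of_nonneg_left (hE0 x) hL (by linarith [hE0 x])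
    rw [op_const_mul] at h1
    have h2 := mul_le_mul_of_nonneg_left (hEb z) (by positivity : 0 ≤ 1 / L)
    linarith
  obtain ⟨V1, hV1, h1⟩ := hPROD F (b * B) hF0 hbB
  obtain ⟨V2, hV2, h2⟩ := hPROD F 1 hF0 Prob.one
  obtain ⟨W, hW, β, hβc, hβ0, hβ1, hβV, hβW⟩ := bump_STAGE (inter_mem hV1 hV2)
  have hβop : ∀ z, op (1 : RG G) β z ≤ 1 := fun z => by rw [op_one]; exact hβ1 z
  have hst0 : ∀ x, 0 ≤ star F β x := fun x =>
    Finset.sum_nonneg (fun y _ => mul_nonneg (hF0 y) (hβ0 _))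
  refine ⟨W, hW, star F β, F.coeff, ?_, hst0, fun x => ?_, fun z => ?_, fun x w hw => ?_,
    fun j hj => ?_⟩
  · have : star F β = fun w => ∑ x ∈ F.coeff.support, F.coeff x * β (-x + w) := rfl
    rw [this]
    fun_prop
  · have := h2 1 β 1 Prob.one (SuppIn.one (mem_of_mem_nhds hV2)) hβ0 (fun y hy => (hβV y hy).2)
      (fun z => by rw [op_one]; exact hF1 z) hβop x
    rwa [mul_one, op_one] at this
  · have := h1 1 β (1 / L) Prob.one (SuppIn.one (mem_of_mem_nhds hV1)) hβ0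
      (fun y hy => (hβV y hy).1) hFb hβop z
    rwa [mul_one] at this
  · by_cases hx : F.coeff x = 0
    · rw [hx]; exact hst0 _
    · have := Finset.single_le_sum (f := fun y => F.coeff y * β (-y + (x + w)))
        (fun y _ => mul_nonneg (hF0 y) (hβ0 _)) (Finsupp.mem_support_iff.mpr hx)
      simp only [neg_add_cancel_left, hβW w hw, mul_one] at this
      exact this
  · obtain ⟨hp, hc⟩ := hEa j hj
    have h3 : op ((a * A) ^ j) (fun x => 1 - L * (E.coeff x)⁻¹) 0
        ≤ op ((a * A) ^ j) F.coeff 0 := by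
      refine op_mono_supp (haA.pow j).1 (fun y hy => ?_)
      rw [zero_add, hFc]
      have h4 := hp y hy
      rw [le_div_iff₀ (hpos y)]
      have h5 : L * (E.coeff y)⁻¹ * E.coeff y = L := by field_simp
      have h6 : 0 ≤ L * (E.coeff y)⁻¹ * L := by positivity
      nlinarith
    rw [op_sub, (haA.pow j).op_const, op_const_mul] at h3
    have h7 := mul_le_mul_of_nonneg_left (hc.trans hM.le) hL.le
    have h8 : L * (1 / (2 * L)) = 1 / 2 := by field_simp
    linarith

end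

section


/-- The state of the recursion. -/
structure St_SEQ (G : Type) [AddCommGroup G] [TopologicalSpace G] where
  a : RG G
  b : RG G
  U : Set G
  ln : ∃ R, LN a b R
  nhd : U ∈ 𝓝 (0 : G)

/-- The relation between consecutive states. -/
def Rel_SEQ {G : Type} [AddCommGroup G] [TopologicalSpace G] (u : ℕ → Set G) (n : ℕ)
    (s s' : St_SEQ G) : Prop :=
  (∃ (A B : RG G) (V : Set G), Prob A ∧ Prob B ∧ SuppIn A V ∧ SuppIn B V ∧ V + s'.U ⊆ s.U ∧
    s'.a = s.a * A ∧ s'.b = s.b * B) ∧ s'.U ⊆ u n ∧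
  ∃ W : Set G, (∀ i ≤ n, i • s'.U ⊆ W) ∧ Test G n (n + 1) s'.a s'.b W

lemma step_SEQ {G : Type} [AddCommGroup G] [TopologicalSpace G] [IsTopologicalAddGroup G]
    (hSTAGE : STAGE_st G) (u : ℕ → Set G) (hu : ∀ n, u n ∈ 𝓝 (0 : G)) (n : ℕ) (s : St_SEQ G) :
    ∃ s' : St_SEQ G, Rel_SEQ u n s s' := by
  obtain ⟨R0, hR0⟩ := s.ln
  obtain ⟨V, hV, hVV⟩ := exists_nhds_zero_half s.nhd
  obtain ⟨A, B, R, hLN, hA, hB, W, hW, hT⟩ :=
    hSTAGE s.a s.b n (n + 1) hR0.1 hR0.2.1 (by positivity) V hV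
  obtain ⟨W', hW', hWW⟩ := exists_nsmul_subset n hW
  refine ⟨⟨s.a * A, s.b * B, V ∩ (u n ∩ W'), ⟨_, hR0.mul hLN⟩,
    inter_mem hV (inter_mem (hu n) hW')⟩, ⟨A, B, V, hLN.1, hLN.2.1, hA, hB, ?_, rfl, rfl⟩,
    fun x hx => hx.2.1, W, fun i hi => ?_, hT⟩
  · rintro _ ⟨x, hx, y, hy, rfl⟩
    exact hVV x hx y hy.1
  · exact (Set.nsmul_subset_nsmul_left (fun x hx => hx.2.2)).trans (hWW i hi)

lemma test_mono_SEQ {G : Type} [AddCommGroup G] [TopologicalSpace G] {K K' : ℕ} {L L' : ℝ}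
    {a b : RG G} {W : Set G} (hK : K ≤ K') (hL : 0 < L) (hL' : L ≤ L')
    (h : Test G K' L' a b W) : Test G K L a b W := by
  obtain ⟨g, g', h1, h2, h3, h4, h5, h6⟩ := h
  exact ⟨g, g', h1, h2, h3, fun z => (h4 z).trans (one_div_le_one_div_of_le hL hL'), h5,
    fun j hj => h6 j (hj.trans_le hK)⟩

theorem SEQ_pf (G : Type) [AddCommGroup G] [TopologicalSpace G] [IsTopologicalAddGroup G]
    [T2Space G] [LocallyCompactSpace G] [SecondCountableTopology G] [MeasurableSpace G]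
    [BorelSpace G] (hSTAGE : STAGE_st G) : SEQ_st G := by
  obtain ⟨u, hu⟩ := (𝓝 (0 : G)).exists_antitone_basis
  obtain ⟨C, hC, hC0⟩ := exists_compact_mem_nhds (0 : G)
  choose nx hnx using step_SEQ hSTAGE u (fun n => hu.mem n)
  let s : ℕ → St_SEQ G := fun n => Nat.rec ⟨1, 1, C, ⟨1, LN.one⟩, hC0⟩ nx n
  have hs : ∀ n, Rel_SEQ u n (s n) (s (n + 1)) := fun n => hnx n (s n)
  have h0 : ∀ n, (0 : G) ∈ (s n).U := fun n => mem_of_mem_nhds (s n).nhd
  have htail : ∀ d n, ∃ A B : RG G, Prob A ∧ Prob B ∧ SuppIn A (s n).U ∧ SuppIn B (s n).U ∧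
      (s (n + d)).a = (s n).a * A ∧ (s (n + d)).b = (s n).b * B := by
    intro d
    induction d with
    | zero =>
      intro n
      exact ⟨1, 1, Prob.one, Prob.one, SuppIn.one (h0 n), SuppIn.one (h0 n), by simp, by simp⟩
    | succ d ih =>
      intro n
      obtain ⟨A, B, V, hA, hB, hAV, hBV, hV, e1, e2⟩ := (hs n).1
      obtain ⟨A', B', hA', hB', hAU, hBU, e1', e2'⟩ := ih (n + 1)
      have e : n + (d + 1) = n + 1 + d := by omega
      refine ⟨A * A', B * B', hA.mul hA', hB.mul hB', (hAV.mul hAU).mono hV,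
        (hBV.mul hBU).mono hV, ?_, ?_⟩
      · rw [e, e1', e1, mul_assoc]
      · rw [e, e2', e2, mul_assoc]
  refine ⟨fun n => (s n).a, fun n => (s n).b, fun n => (s n).U, C, hC, fun n => ?_, fun n => ?_,
    fun n => (s n).ln, h0, fun n N hnN => ?_, fun V hV => ?_, fun K L hL => ?_⟩
  · obtain ⟨A, B, _, _, hA, _, e1, _⟩ := htail n 0
    rw [zero_add] at e1
    have e : (s 0).a = 1 := rfl
    simp only [e1, e, one_mul]
    exact hA
  · obtain ⟨A, B, _, _, _, hB, _, e2⟩ := htail n 0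
    rw [zero_add] at e2
    have e : (s 0).b = 1 := rfl
    simp only [e2, e, one_mul]
    exact hB
  · obtain ⟨d, rfl⟩ := Nat.exists_eq_add_of_le hnN
    exact htail d n
  · obtain ⟨n, hn⟩ := hu.mem_iff.mp hV
    exact ⟨n + 1, (hs n).2.1.trans hn⟩
  · obtain ⟨m, hm⟩ := exists_nat_ge L
    obtain ⟨W, hW, hT⟩ := (hs (max K m)).2.2
    refine ⟨max K m + 1, W, fun i hi => hW i (hi.trans (le_max_left _ _)),
      test_mono_SEQ (le_max_left _ _) hL ?_ hT⟩
    have : (m : ℝ) ≤ (max K m : ℕ) := by exact_mod_cast le_max_right K m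
    linarith

end

section


section

variable {G : Type} [AddCommGroup G] [MeasurableSpace G]

/-- The measure of a weight. -/
noncomputable def ms_LIM (w : RG G) : Measure G :=
  ∑ y ∈ w.coeff.support, ENNReal.ofReal (w.coeff y) • Measure.dirac y

lemma int_LIM [MeasurableSingletonClass G] {w : RG G} (hw : Prob w) (f : G → ℝ) :
    ∫ y, f y ∂(ms_LIM w) = ∑ y ∈ w.coeff.support, w.coeff y * f y := by
  rw [ms_LIM, integral_finsetSum_measure fun y _ =>
    (integrable_dirac (by simp)).smul_measure ENNReal.ofReal_ne_top]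
  refine Finset.sum_congr rfl fun y _ => ?_
  rw [integral_smul_measure, integral_dirac, ENNReal.toReal_ofReal (hw.1 y), smul_eq_mul]

lemma univ_LIM {w : RG G} (hw : Prob w) : ms_LIM w Set.univ = 1 := by
  have h := hw.2
  simp only [op_def, mul_one] at h
  simp only [ms_LIM, Measure.coe_finsetSum, Finset.sum_apply, Measure.smul_apply, measure_univ,
    smul_eq_mul, mul_one]
  rw [← ENNReal.ofReal_sum_of_nonneg fun y _ => hw.1 y, h, ENNReal.ofReal_one]

lemma compl_LIM {w : RG G} {C : Set G} (hC : MeasurableSet C) (h : SuppIn w C) :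
    ms_LIM w Cᶜ = 0 := by
  simp only [ms_LIM, Measure.coe_finsetSum, Finset.sum_apply, Measure.smul_apply, smul_eq_mul]
  refine Finset.sum_eq_zero fun y hy => ?_
  rw [Measure.dirac_apply' _ hC.compl, Set.indicator_of_notMem
    (not_not.2 (h y (Finsupp.mem_support_iff.1 hy))), mul_zero]

end

lemma lim_LIM {G : Type} [AddCommGroup G] [TopologicalSpace G] [IsTopologicalAddGroup G]
    [T2Space G] [MeasurableSpace G] [BorelSpace G] (l : Ultrafilter ℕ) (a : ℕ → RG G) {C : Set G}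
    (hC : IsCompact C) (ha : ∀ n, Prob (a n)) (hs : ∀ n, SuppIn (a n) C) :
    ∃ α : Measure G, IsProbabilityMeasure α ∧ Lim l a α := by
  let μ : ℕ → FiniteMeasure G := fun n =>
    ⟨ms_LIM (a n), ⟨by rw [univ_LIM (ha n)]; exact ENNReal.one_lt_top⟩⟩
  obtain ⟨α, -, hα⟩ := (isCompact_setOfPred_finiteMeasure_le_of_isCompact 1 hC).ultrafilter_le_nhds'
    (l.map μ) (Ultrafilter.mem_map.2 (Filter.univ_mem' fun n => ⟨by
      rw [← ENNReal.coe_le_coe, FiniteMeasure.ennreal_mass]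
      exact (univ_LIM (ha n)).le, (FiniteMeasure.null_iff_toMeasure_null _ _).2
        (compl_LIM hC.isClosed.measurableSet (hs n))⟩))
  have h1 := FiniteMeasure.tendsto_iff_forall_integral_tendsto.1
    (show Tendsto μ l (𝓝 α) from hα)
  have h2 : Lim l a α := fun g M hg hM x => by
    refine (h1 (BoundedContinuousFunction.ofNormedAddCommGroup (fun y => g (x + y))
      (hg.comp (continuous_const.add continuous_id)) M fun y => hM _)).congr fun n => ?_
    exact int_LIM (ha n) _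
  refine ⟨α, ⟨?_⟩, h2⟩
  have h3 := h2 (fun _ => 1) 1 continuous_const (by simp) 0
  simp only [(ha _).2, Tm, integral_const, smul_eq_mul, mul_one] at h3
  exact (ENNReal.toReal_eq_one_iff _).1 (tendsto_nhds_unique h3 tendsto_const_nhds)

theorem LIM_pf (G : Type) [AddCommGroup G] [TopologicalSpace G] [IsTopologicalAddGroup G]
    [T2Space G] [LocallyCompactSpace G] [SecondCountableTopology G] [MeasurableSpace G]
    [BorelSpace G] : LIM_st G := by
  intro a b C hC ha hb hsa hsb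
  obtain ⟨α, h1, h2⟩ := lim_LIM (hyperfilter ℕ) a hC ha hsa
  obtain ⟨β, h3, h4⟩ := lim_LIM (hyperfilter ℕ) b hC hb hsb
  exact ⟨hyperfilter ℕ, α, β, inferInstance, Nat.hyperfilter_le_atTop, h1, h3, h2, h4⟩

end

section


lemma uc_op_PA {G : Type} [AddCommGroup G] [TopologicalSpace G] (w : RG G) {g : G → ℝ}
    (hg : UC g) : UC (op w g) := by
  intro ε hε
  set s : ℝ := ∑ y ∈ w.coeff.support, |w.coeff y| with hs
  have hs0 : 0 ≤ s := Finset.sum_nonneg fun y _ => abs_nonneg _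
  obtain ⟨V, hV, h⟩ := hg (ε / (s + 1)) (by positivity)
  refine ⟨V, hV, fun x v hv => ?_⟩
  rw [op_def, op_def, ← Finset.sum_sub_distrib]
  refine (Finset.abs_sum_le_sum_abs _ _).trans ?_
  calc ∑ y ∈ w.coeff.support, |w.coeff y * g (x + v + y) - w.coeff y * g (x + y)|
      ≤ ∑ y ∈ w.coeff.support, |w.coeff y| * (ε / (s + 1)) := by
        refine Finset.sum_le_sum fun y _ => ?_
        rw [← mul_sub, abs_mul, add_right_comm]
        exact mul_le_mul_of_nonneg_left (h _ v hv) (abs_nonneg _)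
    _ = s * (ε / (s + 1)) := by rw [← Finset.sum_mul]
    _ ≤ ε := by
        rw [← mul_div_assoc, div_le_iff₀ (by positivity)]
        nlinarith

lemma clip_PA (t : ℝ) : |t - max (-(1 / 2)) (min (1 / 2) t)| ≤ t ^ 2 / 2 := by
  rw [abs_le]
  rcases le_total t (1 / 2) with h6 | h6
  · rw [min_eq_right h6]
    rcases le_total (-(1 / 2)) t with h7 | h7
    · rw [max_eq_right h7]; constructor <;> nlinarith [sq_nonneg t]
    · rw [max_eq_left h7]; constructor <;> nlinarith [sq_nonneg (t + 1)]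
  · rw [min_eq_left h6, max_eq_right (by norm_num)]
    constructor <;> nlinarith [sq_nonneg (t - 1)]

lemma clip_lip_PA (s t : ℝ) :
    |max (-(1 / 2)) (min (1 / 2) s) - max (-(1 / 2)) (min (1 / 2) t)| ≤ |s - t| := by
  rw [max_comm _ (min _ s), max_comm _ (min _ t)]
  refine (abs_max_sub_max_le_abs _ _ _).trans ?_
  have := abs_min_sub_min_le_max (1 / 2 : ℝ) s (1 / 2) t
  rwa [sub_self, abs_zero, max_eq_right (abs_nonneg _)] at this

theorem PA_pf (G : Type) [AddCommGroup G] [TopologicalSpace G] [IsTopologicalAddGroup G]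
    [T2Space G] [LocallyCompactSpace G] [SecondCountableTopology G] [MeasurableSpace G]
    [BorelSpace G] : PA_st G := by
  intro a b U l α β hS hl hle ha hb g hg hg1
  obtain ⟨h1, -, h3, h4, -⟩ := hS
  obtain ⟨V, hV, hgV⟩ := hg (1 / 8) (by norm_num)
  obtain ⟨n, hn⟩ := h4 V hV
  obtain ⟨R, hpa, hpb, hfac, hcon⟩ := h1 n
  set g₁ : G → ℝ := fun x => max (-(1 / 2)) (min (1 / 2) (op R g x)) with hg₁
  have hu : UC g₁ := fun ε hε => by
    obtain ⟨W, hW, h⟩ := uc_op_PA R hg ε hε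
    exact ⟨W, hW, fun x v hv => (clip_lip_PA _ _).trans (h x v hv)⟩
  have hb1 : ∀ x, |g₁ x| ≤ 1 := fun x => abs_le.2
    ⟨le_trans (by norm_num) (le_max_left _ _),
      max_le (by norm_num) ((min_le_left _ _).trans (by norm_num))⟩
  have key : ∀ z, |op (a n) g z - op (b n) g₁ z| ≤ 1 / 2 := by
    intro z
    have e1 : op (a n) g z = op (b n) (op R g) z := by rw [hfac, op_mul]
    have e2 : op (b n) (fun x => op R g x ^ 2) z ≤ 1 :=
      (hcon g z).trans (hpa.op_le fun y _ => by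
        have := hg1 (z + y)
        rw [← sq_abs]
        nlinarith [abs_nonneg (g (z + y))])
    have e3 : op (b n) (fun x => op R g x - g₁ x) z ≤
        op (b n) (fun x => 1 / 2 * op R g x ^ 2) z :=
      op_mono hpb.1 (fun x => by linarith [(abs_le.1 (clip_PA (op R g x))).2]) z
    have e4 : op (b n) (fun x => g₁ x - op R g x) z ≤
        op (b n) (fun x => 1 / 2 * op R g x ^ 2) z :=
      op_mono hpb.1 (fun x => by linarith [(abs_le.1 (clip_PA (op R g x))).1]) z
    rw [op_sub, op_const_mul] at e3 e4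
    rw [e1, abs_le]
    constructor <;> linarith
  have near : ∀ A : RG G, Prob A → SuppIn A (U n) → ∀ x,
      |op (a n) (op A g) x - op (a n) g x| ≤ 1 / 8 := by
    intro A hA hs x
    rw [← op_sub]
    refine hpa.abs_op_le fun y _ => ?_
    rw [← hA.op_const (g (x + y)) (x + y), ← op_sub]
    exact hA.abs_op_le fun v hv => hgV _ v (hn (hs v hv))
  refine ⟨g₁, hu, hb1, fun x => ?_⟩
  have hlim := ((ha g 1 hg.continuous hg1 x).sub (hb g₁ 1 hu.continuous hb1 x)).abs
  refine le_of_tendsto hlim ?_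
  filter_upwards [(eventually_ge_atTop n).filter_mono hle] with N hN
  obtain ⟨A, B, hA, hB, sA, sB, eA, eB⟩ := h3 n N hN
  have k1 := near A hA sA x
  have k2 := near B hB sB x
  have k3 : |op B (op (a n) g) x - op B (op (b n) g₁) x| ≤ 1 / 2 := by
    rw [← op_sub]
    exact hB.abs_op_le fun y _ => key _
  have k4 : op B (op (a n) g) x = op (a n) (op B g) x := by
    rw [← op_mul, ← op_mul, mul_comm]
  rw [eA, eB, mul_comm (b n) B, op_mul, op_mul]
  rw [k4] at k3
  rw [abs_le] at k1 k2 k3 ⊢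
  constructor <;> linarith [k1.1, k1.2, k2.1, k2.2, k3.1, k3.2]

end

section


theorem tm_PB {G : Type} [AddCommGroup G] [TopologicalSpace G] [IsTopologicalAddGroup G]
    [SecondCountableTopology G] [MeasurableSpace G] [BorelSpace G] (α : Measure G)
    [IsProbabilityMeasure α] {g : G → ℝ} (h : Continuous g ∧ ∀ x, |g x| ≤ 1) (j : ℕ) :
    Continuous ((Tm α)^[j] g) ∧ ∀ x, |(Tm α)^[j] g x| ≤ 1 := by
  induction j with
  | zero => exact h
  | succ j ih =>
    rw [Function.iterate_succ_apply']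
    refine ⟨continuous_of_dominated (bound := fun _ => 1)
      (fun x => (ih.1.comp (continuous_const.add continuous_id)).aestronglyMeasurable)
      (fun x => Eventually.of_forall fun y => ih.2 _) (integrable_const _)
      (Eventually.of_forall fun y => ih.1.comp (continuous_id.add continuous_const)), fun x => ?_⟩
    simpa [Tm] using norm_integral_le_of_norm_le_const (μ := α) (C := 1)
      (f := fun y => (Tm α)^[j] g (x + y)) (Eventually.of_forall fun y => ih.2 _)

theorem PB_pf (G : Type) [AddCommGroup G] [TopologicalSpace G] [IsTopologicalAddGroup G]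
    [T2Space G] [LocallyCompactSpace G] [SecondCountableTopology G] [MeasurableSpace G]
    [BorelSpace G] : PB_st G := by
  intro a b U l α β ⟨h1, h2, h3, _, h5⟩ hl hle hα ha hb K L hL
  obtain ⟨n, W, hW, g, g', gc, g0, g1, gb, gW, ga⟩ := h5 K L hL
  have gm : ∀ x, |g x| ≤ 1 := fun x => abs_le.2 ⟨by linarith [g0 x], g1 x⟩
  have ev : ∀ᶠ N in l, n ≤ N := hle (eventually_ge_atTop n)
  obtain ⟨R, hR⟩ := h1 n
  have key : ∀ j ≤ K, ∀ x, ∀ w ∈ (K - j) • U n, op (a n ^ j) g' x ≤ (Tm α)^[j] g (x + w) := by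
    intro j
    induction j with
    | zero => exact fun _ x w hw => by rw [pow_zero, op_one]; exact gW x w (hW K le_rfl hw)
    | succ j ih =>
      intro hj x w hw
      obtain ⟨c1, c2⟩ := tm_PB α ⟨gc, gm⟩ j
      rw [Function.iterate_succ_apply']
      refine ge_of_tendsto (ha _ 1 c1 c2 (x + w)) (ev.mono fun N hN => ?_)
      obtain ⟨A, B, pA, -, sA, -, eA, -⟩ := h3 n N hN
      rw [eA, pow_succ', op_mul, op_mul, op_def, op_def]
      refine Finset.sum_le_sum fun y _ => mul_le_mul_of_nonneg_left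
        (pA.le_op fun y' hy' => ?_) (hR.1.1 y)
      rw [show x + w + y + y' = x + y + (w + y') by abel]
      refine ih (by omega) _ _ ?_
      rw [show K - j = K - (j + 1) + 1 by omega, succ_nsmul]
      exact Set.add_mem_add hw (sA y' hy')
  refine ⟨g, gc, g0, g1, fun x => le_of_tendsto (hb g 1 gc gm x) (ev.mono fun N hN => ?_),
    fun j hj => (ga j hj).trans ?_⟩
  · obtain ⟨A, B, -, pB, -, -, -, eB⟩ := h3 n N hN
    rw [eB, mul_comm, op_mul]
    exact pB.op_le fun y _ => gb _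
  · simpa using key j hj.le 0 0 (Set.zero_mem_nsmul (h2 n))

end

section


lemma exists_density_DEN {X : Type} [MeasurableSpace X] (μ : ComplexMeasure X) :
    ∃ (m : Measure X) (h : X → ℂ), IsFiniteMeasure m ∧ Integrable h m ∧ μ = m.withDensityᵥ h := by
  have hz : ∀ s, MeasurableSet s → μ.variation.toENNRealVectorMeasure s = 0 → μ s = 0 := by
    intro s hs h
    rw [Measure.toENNRealVectorMeasure_apply_measurable hs] at h
    have := VectorMeasure.enorm_measure_le_variation μ s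
    rw [h] at this
    simpa using this
  have hre : ComplexMeasure.re μ ≪ᵥ μ.variation.toENNRealVectorMeasure :=
    VectorMeasure.AbsolutelyContinuous.mk (fun s hs h => by
      change (μ s).re = 0
      rw [hz s hs h]; rfl)
  have him : ComplexMeasure.im μ ≪ᵥ μ.variation.toENNRealVectorMeasure :=
    VectorMeasure.AbsolutelyContinuous.mk (fun s hs h => by
      change (μ s).im = 0
      rw [hz s hs h]; rfl)
  have hi := μ.integrable_rnDeriv μ.variation
  refine ⟨μ.variation, μ.rnDeriv μ.variation, inferInstance, hi, ?_⟩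
  ext s hs
  rw [withDensityᵥ_apply hi hs]
  apply Complex.ext
  · rw [← RCLike.re_eq_complex_re, ← integral_re hi.integrableOn, RCLike.re_eq_complex_re]
    change (ComplexMeasure.re μ) s = ∫ x in s, (ComplexMeasure.re μ).rnDeriv μ.variation x ∂_
    rw [← withDensityᵥ_apply (SignedMeasure.integrable_rnDeriv _ _) hs,
      SignedMeasure.withDensityᵥ_rnDeriv_eq _ _ hre]
  · rw [← RCLike.im_eq_complex_im, ← integral_im hi.integrableOn, RCLike.im_eq_complex_im]
    change (ComplexMeasure.im μ) s = ∫ x in s, (ComplexMeasure.im μ).rnDeriv μ.variation x ∂_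
    rw [← withDensityᵥ_apply (SignedMeasure.integrable_rnDeriv _ _) hs,
      SignedMeasure.withDensityᵥ_rnDeriv_eq _ _ him]

lemma simple_DEN {X : Type} [MeasurableSpace X] {m : Measure X} {h : X → ℂ} (hh : Integrable h m)
    (f : SimpleFunc X ℂ) :
    VectorMeasure.integral (m.withDensityᵥ h) f (ContinuousLinearMap.mul ℝ ℂ)
      = ∫ x, f x * h x ∂m := by
  have hb : ∀ g : SimpleFunc X ℂ, Integrable (fun x => g x * h x) m := by
    intro g
    obtain ⟨C, hC⟩ := g.exists_forall_norm_le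
    exact hh.bdd_mul g.aestronglyMeasurable (Eventually.of_forall hC)
  have hv : ∀ g : SimpleFunc X ℂ, (m.withDensityᵥ h).Integrable g := by
    intro g
    obtain ⟨C, hC⟩ := g.exists_forall_norm_le
    exact Integrable.of_bound g.aestronglyMeasurable C (Eventually.of_forall hC)
  induction f using SimpleFunc.induction with
  | @const c s hs =>
    have e : ((SimpleFunc.piecewise s hs (SimpleFunc.const X c) (SimpleFunc.const X 0) :
        SimpleFunc X ℂ) : X → ℂ) = s.indicator (fun _ => c) := by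
      funext x
      by_cases hx : x ∈ s <;> simp [hx]
    rw [e]
    have e2 := VectorMeasure.integral_indicator_const (μ := m.withDensityᵥ h)
      (B := ContinuousLinearMap.mul ℝ ℂ) c hs
    refine e2.trans ?_
    rw [withDensityᵥ_apply hh hs, ContinuousLinearMap.mul_apply', ← integral_const_mul,
      ← integral_indicator hs]
    congr 1
    funext x
    by_cases hx : x ∈ s <;> simp [hx]
  | @add f g _ hf hg =>
    have e := VectorMeasure.integral_add (B := ContinuousLinearMap.mul ℝ ℂ) (hv f) (hv g)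
    rw [SimpleFunc.coe_add]
    refine e.trans ?_
    rw [hf, hg, ← integral_add (hb f) (hb g)]
    congr 1
    funext x
    simp [add_mul]

lemma density_DEN {X : Type} [MeasurableSpace X] {m : Measure X} {h f : X → ℂ} {M : ℝ}
    (hh : Integrable h m) (hf : Measurable f) (hM : ∀ x, ‖f x‖ ≤ M) :
    VectorMeasure.integral (m.withDensityᵥ h) f (ContinuousLinearMap.mul ℝ ℂ)
      = ∫ x, f x * h x ∂m := by
  have hs := hf.stronglyMeasurable
  have hM0 : 0 ≤ max M 0 := le_max_right _ _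
  have hb : ∀ n x, ‖hs.approxBounded (max M 0) n x‖ ≤ max M 0 :=
    fun n x => hs.norm_approxBounded_le hM0 n x
  have ht : ∀ x, Tendsto (fun n => hs.approxBounded (max M 0) n x) atTop (𝓝 (f x)) :=
    fun x => hs.tendsto_approxBounded_of_norm_le ((hM x).trans (le_max_left _ _))
  have h1 : Tendsto (fun n => VectorMeasure.integral (m.withDensityᵥ h)
      (hs.approxBounded (max M 0) n) (ContinuousLinearMap.mul ℝ ℂ)) atTop
      (𝓝 (VectorMeasure.integral (m.withDensityᵥ h) f (ContinuousLinearMap.mul ℝ ℂ))) :=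
    VectorMeasure.tendsto_integral_filter_of_norm_le_const
      (Eventually.of_forall (fun n => (hs.approxBounded (max M 0) n).aestronglyMeasurable))
      ⟨max M 0, Eventually.of_forall (fun n => Eventually.of_forall (hb n))⟩
      (Eventually.of_forall ht)
  have h2 : Tendsto (fun n => ∫ x, hs.approxBounded (max M 0) n x * h x ∂m) atTop
      (𝓝 (∫ x, f x * h x ∂m)) := by
    refine tendsto_integral_of_dominated_convergence (fun x => max M 0 * ‖h x‖)
      (fun n => (hs.approxBounded (max M 0) n).aestronglyMeasurable.mul hh.aestronglyMeasurable)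
      (hh.norm.const_mul _) (fun n => Eventually.of_forall (fun x => ?_))
      (Eventually.of_forall (fun x => (ht x).mul_const _))
    rw [norm_mul]
    exact mul_le_mul_of_nonneg_right (hb n x) (norm_nonneg _)
  refine tendsto_nhds_unique h1 (h2.congr (fun n => ?_))
  exact (simple_DEN hh _).symm

theorem DEN_pf (G : Type) [AddCommGroup G] [TopologicalSpace G] [IsTopologicalAddGroup G]
    [T2Space G] [LocallyCompactSpace G] [SecondCountableTopology G] [MeasurableSpace G]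
    [BorelSpace G] : DEN_st G :=
  ⟨exists_density_DEN, fun _ _ _ _ _ hh hf hM => density_DEN hh hf hM⟩

theorem FUB_pf (G : Type) [AddCommGroup G] [TopologicalSpace G] [IsTopologicalAddGroup G]
    [T2Space G] [LocallyCompactSpace G] [SecondCountableTopology G] [MeasurableSpace G]
    [BorelSpace G] : FUB_st G := by
  intro μ ν
  refine ⟨?_, fun f M hf hM => ?_⟩
  · have h1 : ν.prod μ (ContinuousLinearMap.mul ℝ ℂ)
        = (μ.prod ν (ContinuousLinearMap.mul ℝ ℂ)).map Prod.swap := by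
      refine VectorMeasure.prod_eq_of_forall_apply_prod (fun s t hs ht => ?_)
      rw [VectorMeasure.map_apply _ measurable_swap (hs.prod ht), Set.preimage_swap_prod,
        VectorMeasure.prod_apply]
      simp [mul_comm]
    ext s hs
    unfold conv
    rw [h1, VectorMeasure.map_apply _ measurable_add hs, VectorMeasure.map_apply _ measurable_add hs,
      VectorMeasure.map_apply _ measurable_swap (measurable_add hs)]
    congr 1
    ext p
    simp [add_comm]
  · obtain ⟨m, h, hm, hh, rfl⟩ := exists_density_DEN μ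
    obtain ⟨n, k, hn, hk, rfl⟩ := exists_density_DEN ν
    have hhk : Integrable (fun p : G × G => h p.1 * k p.2) (m.prod n) := hh.mul_prod hk
    have h1 : (m.withDensityᵥ h).prod (n.withDensityᵥ k) (ContinuousLinearMap.mul ℝ ℂ)
        = (m.prod n).withDensityᵥ (fun p : G × G => h p.1 * k p.2) := by
      refine VectorMeasure.prod_eq_of_forall_apply_prod (fun s t hs ht => ?_)
      rw [withDensityᵥ_apply hhk (hs.prod ht), withDensityᵥ_apply hh hs, withDensityᵥ_apply hk ht,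
        setIntegral_prod_mul]
      rfl
    have hfa : Measurable (fun p : G × G => f (p.1 + p.2)) := hf.comp measurable_add
    have h2 : J (conv (m.withDensityᵥ h) (n.withDensityᵥ k)) f
        = ∫ p, f (p.1 + p.2) * (h p.1 * k p.2) ∂(m.prod n) := by
      unfold J conv
      rw [h1]
      refine (VectorMeasure.integral_map measurable_add hf.aestronglyMeasurable
        (Integrable.of_bound hfa.aestronglyMeasurable M
          (Eventually.of_forall (fun p => hM _)))).trans ?_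
      exact density_DEN hhk hfa (fun p => hM _)
    have h3 : ∀ x, J (n.withDensityᵥ k) (fun y => f (x + y)) = ∫ y, f (x + y) * k y ∂n :=
      fun x => density_DEN hk (hf.comp (measurable_const_add x)) (fun y => hM _)
    have hk' := hk.aestronglyMeasurable
    have h4 : ∀ x, ∫ y, f (x + y) * k y ∂n = ∫ y, f (x + y) * hk'.mk k y ∂n := fun x =>
      integral_congr_ae (hk'.ae_eq_mk.mono (fun y hy => by simp only [hy]))
    have h5 : Measurable (fun x => ∫ y, f (x + y) * k y ∂n) := by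
      simp only [h4]
      exact (StronglyMeasurable.integral_prod_right' (f := fun p : G × G =>
        f (p.1 + p.2) * hk'.mk k p.2) (hfa.stronglyMeasurable.mul
          (hk'.stronglyMeasurable_mk.comp_measurable measurable_snd))).measurable
    have h6 : ∀ x, ‖∫ y, f (x + y) * k y ∂n‖ ≤ ∫ y, M * ‖k y‖ ∂n := fun x =>
      norm_integral_le_of_norm_le (hk.norm.const_mul M) (Eventually.of_forall (fun y => by
        rw [norm_mul]
        exact mul_le_mul_of_nonneg_right (hM _) (norm_nonneg _)))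
    rw [h2]
    simp only [h3]
    unfold J
    rw [density_DEN hh h5 h6, integral_prod _ (hhk.bdd_mul hfa.aestronglyMeasurable
      (Eventually.of_forall (fun p => hM _)))]
    congr 1
    funext x
    rw [← integral_mul_const]
    congr 1
    funext y
    ring

end

section


section OPS

variable {G : Type} [AddCommGroup G] [TopologicalSpace G] [IsTopologicalAddGroup G]
  [SecondCountableTopology G] [MeasurableSpace G] [BorelSpace G]

lemma meas_OPS (f : G →ᵇ ℂ) (x : G) : Measurable (fun y => f (x + y)) :=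
  (f.continuous.comp (continuous_const.add continuous_id)).measurable

lemma integrable_OPS (μ : ComplexMeasure G) (f : G →ᵇ ℂ) (x : G) :
    μ.Integrable (fun y => f (x + y)) :=
  Integrable.of_bound (meas_OPS f x).aestronglyMeasurable ‖f‖
    (Eventually.of_forall (fun _ => f.norm_coe_le_norm _))

lemma norm_J_OPS (μ : ComplexMeasure G) (f : G →ᵇ ℂ) (x : G) :
    ‖J μ (fun y => f (x + y))‖ ≤ ‖f‖ * μ.variation.real Set.univ := by
  have h := VectorMeasure.norm_integral_le_of_norm_le_const (μ := μ)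
    (B := ContinuousLinearMap.mul ℝ ℂ) (f := fun y => f (x + y)) (C := ‖f‖)
    (Eventually.of_forall (fun _ => f.norm_coe_le_norm _))
  rwa [ContinuousLinearMap.opNorm_mul, mul_one] at h

lemma cont_J_OPS (μ : ComplexMeasure G) (f : G →ᵇ ℂ) :
    Continuous (fun x => J μ (fun y => f (x + y))) :=
  VectorMeasure.continuous_of_dominated (bound := fun _ => ‖f‖)
    (fun x => (meas_OPS f x).aestronglyMeasurable)
    (fun _ => Eventually.of_forall (fun _ => f.norm_coe_le_norm _)) (integrable_const _)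
    (Eventually.of_forall (fun _ => f.continuous.comp (continuous_id.add continuous_const)))

noncomputable def T0_OPS (μ : ComplexMeasure G) (f : G →ᵇ ℂ) : G →ᵇ ℂ :=
  BoundedContinuousFunction.ofNormedAddCommGroup (fun x => J μ (fun y => f (x + y)))
    (cont_J_OPS μ f) _ (norm_J_OPS μ f)

lemma T0_apply_OPS (μ : ComplexMeasure G) (f : G →ᵇ ℂ) (x : G) :
    T0_OPS μ f x = J μ (fun y => f (x + y)) := rfl

noncomputable def T1_OPS (hDEN : DEN_st G) (μ : ComplexMeasure G) : (G →ᵇ ℂ) →L[ℂ] (G →ᵇ ℂ) :=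
  LinearMap.mkContinuous
    { toFun := T0_OPS μ
      map_add' := fun f g => by
        ext x
        exact VectorMeasure.integral_fun_add (integrable_OPS μ f x) (integrable_OPS μ g x)
      map_smul' := fun c f => by
        ext x
        obtain ⟨m, h, hm, hh, rfl⟩ := hDEN.1 μ
        simp only [RingHom.id_apply, BoundedContinuousFunction.smul_apply, T0_apply_OPS]
        rw [hDEN.2 m h _ ‖f‖ hm hh (meas_OPS f x) (fun _ => f.norm_coe_le_norm _),
          hDEN.2 m h (fun y => c • f (x + y)) ‖c • f‖ hm hh (meas_OPS (c • f) x)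
            (fun _ => (c • f).norm_coe_le_norm _), smul_eq_mul, ← integral_const_mul]
        simp only [smul_eq_mul, mul_assoc] }
    (μ.variation.real Set.univ) (fun f => by
      rw [mul_comm]
      exact (BoundedContinuousFunction.norm_le (by positivity)).mpr (norm_J_OPS μ f))

lemma T1_apply_OPS (hDEN : DEN_st G) (μ : ComplexMeasure G) (f : G →ᵇ ℂ) (x : G) :
    T1_OPS hDEN μ f x = J μ (fun y => f (x + y)) := rfl

noncomputable def T2_OPS (hDEN : DEN_st G) :
    ComplexMeasure G →ₗ[ℂ] ((G →ᵇ ℂ) →L[ℂ] (G →ᵇ ℂ)) where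
  toFun := T1_OPS hDEN
  map_add' μ ν := by
    ext f x
    exact VectorMeasure.integral_add_vectorMeasure (integrable_OPS μ f x) (integrable_OPS ν f x)
  map_smul' c μ := by
    ext f x
    obtain ⟨m, h, hm, hh, rfl⟩ := hDEN.1 μ
    simp only [RingHom.id_apply, _root_.smul_apply,
      BoundedContinuousFunction.smul_apply, T1_apply_OPS]
    rw [← withDensityᵥ_smul, hDEN.2 m h _ ‖f‖ hm hh (meas_OPS f x) (fun _ => f.norm_coe_le_norm _),
      hDEN.2 m (c • h) _ ‖f‖ hm (hh.smul c) (meas_OPS f x) (fun _ => f.norm_coe_le_norm _),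
      smul_eq_mul, ← integral_const_mul]
    congr 1
    funext y
    simp only [Pi.smul_apply, smul_eq_mul]
    ring

end OPS

theorem OPS_pf (G : Type) [AddCommGroup G] [TopologicalSpace G] [IsTopologicalAddGroup G]
    [T2Space G] [LocallyCompactSpace G] [SecondCountableTopology G] [MeasurableSpace G]
    [BorelSpace G] (hDEN : DEN_st G) (hFUB : FUB_st G) : OPS_st G := by
  have hmul : ∀ μ ν, T2_OPS hDEN (conv μ ν) = T2_OPS hDEN μ * T2_OPS hDEN ν := by
    intro μ ν
    ext f x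
    have := (hFUB μ ν).2 (fun y => f (x + y)) ‖f‖ (meas_OPS f x) (fun _ => f.norm_coe_le_norm _)
    refine this.trans ?_
    change _ = J μ (fun y => J ν (fun z => f (x + y + z)))
    simp only [add_assoc]
  refine ⟨T2_OPS hDEN, fun _ _ _ => rfl, hmul, fun μ ν => by rw [← hmul, ← hmul, (hFUB μ ν).1],
    ?_, norm_J_OPS, fun α hα f x => ?_⟩
  · ext f x
    change J _ (fun y => f (x + y)) = f x
    unfold J
    refine VectorMeasure.integral_dirac.trans ?_
    simp
  · have := hDEN.2 α (fun _ => 1) _ ‖f‖ inferInstance (integrable_const _) (meas_OPS f x)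
      (fun _ => f.norm_coe_le_norm _)
    simp only [mul_one] at this
    exact this

end

section


lemma comm_CHAR {A : Type} [NormedCommRing A] [NormedAlgebra ℂ A] [CompleteSpace A] (x y : A)
    (h : ∀ s t : A, s * x + t * y ≠ 1) : ∃ φ : A →ₐ[ℂ] ℂ, φ x = 0 ∧ φ y = 0 := by
  have hne : Ideal.span {x, y} ≠ ⊤ := by
    intro htop
    have h1 : (1 : A) ∈ Ideal.span {x, y} := by
      rw [htop]; trivial
    obtain ⟨s, t, hst⟩ := Ideal.mem_span_pair.mp h1
    exact h s t hst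
  obtain ⟨M, hM, hle⟩ := Ideal.exists_le_maximal _ hne
  refine ⟨WeakDual.CharacterSpace.equivAlgHom M.toCharacterSpace, ?_, ?_⟩
  · exact M.toCharacterSpace_apply_eq_zero_of_mem (hle (Ideal.subset_span (by simp)))
  · exact M.toCharacterSpace_apply_eq_zero_of_mem (hle (Ideal.subset_span (by simp)))

lemma abs_CHAR {E V : Type} [NormedRing E] [NormedAlgebra ℂ E] [CompleteSpace E]
    [AddCommGroup V] [Module ℂ V] (T : V →ₗ[ℂ] E) (hc : ∀ u v, T u * T v = T v * T u) (x y : V)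
    (h : ∀ s t : E, s * T x + t * T y ≠ 1) :
    ∃ φ : V →ₗ[ℂ] ℂ, (∀ u, T u = 1 → φ u = 1) ∧ (∀ u v w, T w = T u * T v → φ w = φ u * φ v) ∧
      φ x = 0 ∧ φ y = 0 := by
  let A : Subalgebra ℂ E :=
    Subalgebra.centralizer ℂ (Subalgebra.centralizer ℂ (Set.range T) : Set E)
  have hT : ∀ u, T u ∈ A := fun u => (Subalgebra.mem_centralizer_iff ℂ).2 fun g hg =>
    ((Subalgebra.mem_centralizer_iff ℂ).1 hg _ ⟨u, rfl⟩).symm
  have hA : ∀ a ∈ A, a ∈ Subalgebra.centralizer ℂ (Set.range T) := fun a ha =>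
    (Subalgebra.mem_centralizer_iff ℂ).2 fun g hg =>
      (Subalgebra.mem_centralizer_iff ℂ).1 ha g ((Subalgebra.mem_centralizer_iff ℂ).2 (by
        rintro _ ⟨v, rfl⟩
        obtain ⟨u, rfl⟩ := hg
        exact hc v u))
  have hcl : IsClosed (A : Set E) := Set.isClosed_centralizer _
  let _ : NormedCommRing A :=
    { (inferInstance : NormedRing A) with
      mul_comm := fun a b => Subtype.ext
        ((Subalgebra.mem_centralizer_iff ℂ).1 b.2 a.1 (hA a.1 a.2)) }
  have : CompleteSpace A := hcl.completeSpace_coe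
  obtain ⟨φ, h1, h2⟩ := comm_CHAR (A := A) ⟨T x, hT x⟩ ⟨T y, hT y⟩
    fun s t e => h s.1 t.1 (congrArg Subtype.val e)
  let T' : V →ₗ[ℂ] A :=
    { toFun := fun u => ⟨T u, hT u⟩
      map_add' := fun u v => Subtype.ext (T.map_add u v)
      map_smul' := fun c u => Subtype.ext (T.map_smul c u) }
  refine ⟨φ.toLinearMap ∘ₗ T', fun u hu => ?_, fun u v w hw => ?_, h1, h2⟩
  · have : T' u = 1 := Subtype.ext hu
    change φ (T' u) = 1
    rw [this, map_one]
  · have : T' w = T' u * T' v := Subtype.ext hw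
    change φ (T' w) = φ (T' u) * φ (T' v)
    rw [this, map_mul]

lemma bound_CHAR {X : Type} [NormedAddCommGroup X] [NormedSpace ℂ X] (a b s t : X →L[ℂ] X)
    (hab : a * b = b * a) (h : s * (1 - a) + t * b = 1) (ha : ∀ f, ‖a f‖ ≤ ‖f‖) (f : X)
    (hf : ‖f‖ ≤ 1) (K : ℕ) :
    ‖∑ j ∈ range K, (a ^ j) f‖ ≤ 2 * ‖s‖ + ‖t‖ * (K * ‖b f‖) := by
  have hp : ∀ (j : ℕ) (f : X), ‖(a ^ j) f‖ ≤ ‖f‖ := by
    intro j
    induction j with
    | zero => intro f; simp
    | succ j ih => intro f; rw [pow_succ]; exact (ih _).trans (ha f)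
  have hc : Commute b (∑ j ∈ range K, a ^ j) :=
    Commute.sum_right _ _ _ fun j _ => (Commute.symm hab).pow_right j
  have e : ∑ j ∈ range K, a ^ j = s * (1 - a ^ K) + t * ((∑ j ∈ range K, a ^ j) * b) := by
    rw [← mul_neg_geom_sum, ← hc.eq, ← mul_assoc, ← mul_assoc, ← add_mul, h, one_mul]
  have e2 : ∑ j ∈ range K, (a ^ j) f =
      s (f - (a ^ K) f) + t (∑ j ∈ range K, (a ^ j) (b f)) := by
    rw [← _root_.sum_apply, ← _root_.sum_apply]
    exact congrArg (fun u : X →L[ℂ] X => u f) e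
  rw [e2]
  refine (norm_add_le _ _).trans (add_le_add ?_ ?_)
  · refine (s.le_opNorm _).trans ?_
    rw [mul_comm]
    refine mul_le_mul_of_nonneg_right ((norm_sub_le _ _).trans ?_) (norm_nonneg s)
    linarith [hp K f]
  · refine (t.le_opNorm _).trans (mul_le_mul_of_nonneg_left ?_ (norm_nonneg t))
    refine (norm_sum_le _ _).trans ?_
    simpa using Finset.sum_le_card_nsmul (range K) (fun j => ‖(a ^ j) (b f)‖) ‖b f‖
      fun j _ => hp j _

theorem CHAR_pf (G : Type) [AddCommGroup G] [TopologicalSpace G] [IsTopologicalAddGroup G]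
    [T2Space G] [LocallyCompactSpace G] [SecondCountableTopology G] [MeasurableSpace G]
    [BorelSpace G] : CHAR_st G := by
  intro T α β hT hα hβ hP
  obtain ⟨-, hmul, hc, hone, -, hint⟩ := hT
  suffices hne : ∀ s t : (G →ᵇ ℂ) →L[ℂ] (G →ᵇ ℂ),
      s * T (VectorMeasure.dirac (0 : G) (1 : ℂ) - cm α) + t * T (cm β) ≠ 1 by
    obtain ⟨φ, h1, h2, h3, h4⟩ := abs_CHAR (E := (G →ᵇ ℂ) →L[ℂ] (G →ᵇ ℂ))
      (V := ComplexMeasure G) T hc _ _ hne
    refine ⟨φ, fun h0 => ?_, fun μ ν => h2 _ _ _ (hmul μ ν), h3, h4⟩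
    have := h1 _ hone
    rw [h0] at this
    exact zero_ne_one this
  intro s t hst
  rw [map_sub, hone] at hst
  obtain ⟨K, hK⟩ := exists_nat_gt (8 * ‖s‖)
  have hL : 0 < 4 * ‖t‖ + 1 := by positivity
  obtain ⟨g, hg, hg0, hg1, hb, hj⟩ := hP K _ hL
  let f : G →ᵇ ℂ := BoundedContinuousFunction.ofNormedAddCommGroup (fun x => (g x : ℂ))
    (Complex.continuous_ofReal.comp hg) 1 fun x => by
      rw [Complex.norm_real, Real.norm_of_nonneg (hg0 x)]; exact hg1 x
  have hf : ‖f‖ ≤ 1 := BoundedContinuousFunction.norm_ofNormedAddCommGroup_le _ zero_le_one _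
  have ha : ∀ u : G →ᵇ ℂ, ‖T (cm α) u‖ ≤ ‖u‖ := fun u =>
    (BoundedContinuousFunction.norm_le (norm_nonneg u)).2 fun x => by
      rw [hint α hα]
      simpa using norm_integral_le_of_norm_le_const (μ := α) (f := fun y => u (x + y)) (C := ‖u‖)
        (Eventually.of_forall fun y => u.norm_coe_le_norm _)
  have hbf : ‖T (cm β) f‖ ≤ 1 / (4 * ‖t‖ + 1) :=
    (BoundedContinuousFunction.norm_le (by positivity)).2 fun x => by
      have e : T (cm β) f x = (Tm β g x : ℂ) := by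
        rw [hint β hβ]; exact integral_ofReal
      have e0 : 0 ≤ Tm β g x := integral_nonneg fun y => hg0 _
      rw [e, Complex.norm_real, Real.norm_of_nonneg e0]
      exact hb x
  have hit : ∀ (j : ℕ) (x : G), (T (cm α) ^ j) f x = ((Tm α)^[j] g x : ℂ) := by
    intro j
    induction j with
    | zero => intro x; rfl
    | succ j ih =>
      intro x
      rw [pow_succ', Function.iterate_succ_apply', mul_apply_eq_comp, hint α hα]
      simp only [ih]
      exact integral_ofReal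
  have hB := bound_CHAR _ _ s t (hc _ _) hst ha f hf K
  have h5 : (K : ℝ) / 2 ≤ ∑ j ∈ range K, (Tm α)^[j] g 0 := by
    have := Finset.card_nsmul_le_sum (range K) (fun j => (Tm α)^[j] g 0) (1 / 2)
      (fun j h => hj j (Finset.mem_range.mp h))
    simp only [card_range, nsmul_eq_mul] at this
    linarith
  have h6 : (∑ j ∈ range K, (T (cm α) ^ j) f) 0 = ((∑ j ∈ range K, (Tm α)^[j] g 0 : ℝ) : ℂ) := by
    rw [BoundedContinuousFunction.sum_apply, Complex.ofReal_sum]
    exact Finset.sum_congr rfl fun j _ => hit j 0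
  have h7 := (∑ j ∈ range K, (T (cm α) ^ j) f).norm_coe_le_norm 0
  rw [h6, Complex.norm_real] at h7
  have h8 : ‖t‖ * ‖T (cm β) f‖ ≤ 1 / 4 := by
    refine (mul_le_mul_of_nonneg_left hbf (norm_nonneg t)).trans ?_
    rw [mul_one_div, div_le_iff₀ hL]
    linarith
  have h9 := mul_le_mul_of_nonneg_left h8 (Nat.cast_nonneg (α := ℝ) K)
  have h10 := Real.le_norm_self (∑ j ∈ range K, (Tm α)^[j] g 0)
  nlinarith

end

section


lemma uc_APX {G : Type} [AddCommGroup G] [TopologicalSpace G] [IsTopologicalAddGroup G]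
    {g : G → ℝ} (hs : HasCompactSupport g) (hc : Continuous g) : UC g := by
  intro ε hε
  let _ : UniformSpace G := IsTopologicalAddGroup.rightUniformSpace G
  have : IsUniformAddGroup G := isUniformAddGroup_of_addCommGroup
  have hu := hs.uniformContinuous_of_continuous hc
  have h1 := hu (Metric.dist_mem_uniformity hε)
  rw [Filter.mem_map, uniformity_eq_comap_nhds_zero G, Filter.mem_comap] at h1
  obtain ⟨V, hV, h2⟩ := h1
  refine ⟨V, hV, fun x v hv => ?_⟩
  have h3 : dist (g x) (g (x + v)) < ε := h2 (a := (x, x + v)) (by simpa using hv)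
  rw [dist_comm, Real.dist_eq] at h3
  exact h3.le

lemma clamp_APX (a t : ℝ) (h0 : 0 ≤ a) (h1 : a ≤ 1) : |a - max (-1) (min 1 t)| ≤ |a - t| := by
  rcases le_total 1 t with h | h
  · rw [min_eq_left h, max_eq_right (by norm_num), abs_of_nonpos (by linarith),
      abs_of_nonpos (by linarith)]
    linarith
  · rw [min_eq_right h]
    rcases le_total (-1) t with h' | h'
    · rw [max_eq_right h']
    · rw [max_eq_left h', abs_of_nonneg (by linarith), abs_of_nonneg (by linarith)]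
      linarith

theorem APX_pf (G : Type) [AddCommGroup G] [TopologicalSpace G] [IsTopologicalAddGroup G]
    [T2Space G] [LocallyCompactSpace G] [SecondCountableTopology G] [MeasurableSpace G]
    [BorelSpace G] : APX_st G := by
  intro ν s hs ε hε
  have hi : Integrable (s.indicator fun _ => (1 : ℝ)) ν.variation :=
    (integrable_const 1).indicator hs
  obtain ⟨g0, k1, k2, k3, k4⟩ := hi.exists_hasCompactSupport_integral_sub_le hε
  have gc : Continuous fun x => max (-1) (min 1 (g0 x)) := by fun_prop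
  have gs : HasCompactSupport fun x => max (-1) (min 1 (g0 x)) :=
    k1.comp_left (g := fun t : ℝ => max (-1) (min 1 t)) (by norm_num)
  have gi : Integrable (fun x => max (-1) (min 1 (g0 x))) ν.variation :=
    gc.integrable_of_hasCompactSupport gs
  refine ⟨fun x => max (-1) (min 1 (g0 x)), uc_APX gs gc, fun x => ?_, ?_⟩
  · exact abs_le.2 ⟨le_max_left _ _, max_le (by norm_num) (min_le_left _ _)⟩
  · have e : ν s = J ν (s.indicator fun _ => (1 : ℂ)) := by
      rw [J, VectorMeasure.integral_indicator_const _ hs]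
      simp
    rw [e, J, J, ← VectorMeasure.integral_fun_sub ((integrable_const 1).indicator hs) gi.ofReal]
    refine VectorMeasure.norm_integral_le_integral_norm.trans ?_
    rw [ContinuousLinearMap.opNorm_mul, one_mul]
    refine le_trans (integral_mono_of_nonneg (Eventually.of_forall fun x => norm_nonneg _)
      (hi.sub k4).norm (Eventually.of_forall fun x => ?_)) k2
    have e2 : (s.indicator fun _ => (1 : ℂ)) x = (((s.indicator fun _ => (1 : ℝ)) x : ℝ) : ℂ) := by
      by_cases hx : x ∈ s <;> simp [hx]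
    simp only [Pi.sub_apply]
    rw [e2, ← Complex.ofReal_sub, Complex.norm_real, Real.norm_eq_abs, Real.norm_eq_abs]
    refine clamp_APX _ _ ?_ ?_ <;> by_cases hx : x ∈ s <;> simp [hx]

end

section


section LOW

variable {G : Type} [AddCommGroup G] [TopologicalSpace G] [IsTopologicalAddGroup G]

noncomputable def lift_LOW {g : G → ℝ} (hg : UC g) (h1 : ∀ x, |g x| ≤ 1) : G →ᵇ ℂ :=
  BoundedContinuousFunction.ofNormedAddCommGroup (fun x => (g x : ℂ))
    (Complex.continuous_ofReal.comp hg.continuous) 1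
    (fun x => by rw [Complex.norm_real, Real.norm_eq_abs]; exact h1 x)

lemma lift_apply_LOW {g : G → ℝ} (hg : UC g) (h1 : ∀ x, |g x| ≤ 1) (x : G) :
    lift_LOW hg h1 x = (g x : ℂ) := rfl

lemma norm_lift_LOW {g : G → ℝ} (hg : UC g) (h1 : ∀ x, |g x| ≤ 1) : ‖lift_LOW hg h1‖ ≤ 1 :=
  (BoundedContinuousFunction.norm_le zero_le_one).mpr (fun x => by
    rw [lift_apply_LOW, Complex.norm_real, Real.norm_eq_abs]; exact h1 x)

lemma uc_Tm_LOW [MeasurableSpace G] [BorelSpace G] (α : Measure G) [IsProbabilityMeasure α]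
    {g : G → ℝ} (hg : UC g) (h1 : ∀ x, |g x| ≤ 1) : UC (Tm α g) := by
  intro ε hε
  obtain ⟨V, hV, h⟩ := hg ε hε
  have hi : ∀ x, Integrable (fun y => g (x + y)) α := fun x =>
    Integrable.of_bound (hg.continuous.comp
      (continuous_const.add continuous_id)).measurable.aestronglyMeasurable 1
      (Eventually.of_forall (fun y => h1 _))
  refine ⟨V, hV, fun x v hv => ?_⟩
  unfold Tm
  rw [← integral_sub (hi _) (hi _)]
  have := norm_integral_le_of_norm_le_const (μ := α) (C := ε)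
    (f := fun y => g (x + v + y) - g (x + y)) (Eventually.of_forall (fun y => by
      rw [add_right_comm]; exact h _ v hv))
  simpa using this

omit [IsTopologicalAddGroup G] in
lemma uc_comb_LOW {g g' : G → ℝ} (hg : UC g) (hg' : UC g') :
    UC (fun x => 4 / 3 * (g x - g' x)) := by
  intro ε hε
  obtain ⟨V, hV, h⟩ := hg (ε / 4) (by positivity)
  obtain ⟨V', hV', h'⟩ := hg' (ε / 4) (by positivity)
  refine ⟨V ∩ V', inter_mem hV hV', fun x v hv => ?_⟩
  have h1 := abs_le.mp (h x v hv.1)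
  have h2 := abs_le.mp (h' x v hv.2)
  rw [abs_le]
  constructor <;> linarith [h1.1, h1.2, h2.1, h2.2]

end LOW

theorem LOW_pf (G : Type) [AddCommGroup G] [TopologicalSpace G] [IsTopologicalAddGroup G]
    [T2Space G] [LocallyCompactSpace G] [SecondCountableTopology G] [MeasurableSpace G]
    [BorelSpace G] (hAPX : APX_st G) : LOW_st G := by
  intro T α β hT hα hβ hP ν
  obtain ⟨hJ, hmul, hcomm, hone, hnorm, hcm⟩ := hT
  set μ₁ := conv (VectorMeasure.dirac (0 : G) (1 : ℂ) - cm α) ν with hμ₁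
  set μ₂ := conv (cm β) ν with hμ₂
  set D : ℝ := μ₁.variation.real Set.univ + μ₂.variation.real Set.univ with hD
  have e1 : T μ₁ = T ν * (1 - T (cm α)) := by rw [hμ₁, hmul, hcomm, map_sub, hone]
  have e2 : T μ₂ = T ν * T (cm β) := by rw [hμ₂, hmul, hcomm]
  have hb : ∀ (μ : ComplexMeasure G) {g : G → ℝ} (hg : UC g) (h1 : ∀ x, |g x| ≤ 1),
      ‖T μ (lift_LOW hg h1) 0‖ ≤ μ.variation.real Set.univ := by
    intro μ g hg h1
    refine (hnorm μ _ 0).trans ?_
    exact mul_le_of_le_one_left measureReal_nonneg (norm_lift_LOW hg h1)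
  have key : ∀ (n : ℕ) {g : G → ℝ} (hg : UC g) (h1 : ∀ x, |g x| ≤ 1),
      ‖T ν (lift_LOW hg h1) 0‖ ≤ 4 * D + (3 / 4) ^ n * ν.variation.real Set.univ := by
    intro n
    induction n with
    | zero =>
      intro g hg h1
      have : 0 ≤ D := add_nonneg measureReal_nonneg measureReal_nonneg
      have := hb ν hg h1
      simp only [pow_zero, one_mul]
      linarith
    | succ n ih =>
      intro g hg h1
      obtain ⟨g₁, hg₁, h2, h3⟩ := hP g hg h1
      have hr := uc_comb_LOW (uc_Tm_LOW α hg h1) (uc_Tm_LOW β hg₁ h2)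
      have hr1 : ∀ x, |4 / 3 * (Tm α g x - Tm β g₁ x)| ≤ 1 := by
        intro x
        have := abs_le.mp (h3 x)
        rw [abs_le]
        constructor <;> linarith [this.1, this.2]
      have e3 : lift_LOW hg h1 = (1 - T (cm α)) (lift_LOW hg h1) + T (cm β) (lift_LOW hg₁ h2)
          + (3 / 4 : ℂ) • lift_LOW hr hr1 := by
        ext x
        simp only [BoundedContinuousFunction.add_apply, BoundedContinuousFunction.smul_apply,
          _root_.sub_apply, one_apply_eq_self,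
          BoundedContinuousFunction.sub_apply, hcm α hα, hcm β hβ, lift_apply_LOW,
          integral_complex_ofReal, smul_eq_mul, Tm]
        push_cast
        ring
      have e4 : T ν (lift_LOW hg h1) 0 = T μ₁ (lift_LOW hg h1) 0 + T μ₂ (lift_LOW hg₁ h2) 0
          + (3 / 4 : ℂ) * T ν (lift_LOW hr hr1) 0 := by
        rw [e1, e2]
        conv_lhs => rw [e3]
        simp only [map_add, map_smul, BoundedContinuousFunction.add_apply,
          BoundedContinuousFunction.smul_apply, smul_eq_mul, mul_apply_eq_comp]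
      rw [e4]
      have h4 := hb μ₁ hg h1
      have h5 := hb μ₂ hg₁ h2
      have h6 := ih hr hr1
      have h7 : ‖(3 / 4 : ℂ) * T ν (lift_LOW hr hr1) 0‖ = 3 / 4 * ‖T ν (lift_LOW hr hr1) 0‖ := by
        rw [norm_mul]; norm_num
      refine (norm_add₃_le).trans ?_
      rw [h7, pow_succ]
      linarith
  have key2 : ∀ {g : G → ℝ} (hg : UC g) (h1 : ∀ x, |g x| ≤ 1),
      ‖T ν (lift_LOW hg h1) 0‖ ≤ 4 * D := by
    intro g hg h1
    have ht : Tendsto (fun n : ℕ => 4 * D + (3 / 4 : ℝ) ^ n * ν.variation.real Set.univ) atTop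
        (𝓝 (4 * D + 0 * ν.variation.real Set.univ)) :=
      ((tendsto_pow_atTop_nhds_zero_of_lt_one (by norm_num) (by norm_num)).mul_const _).const_add _
    simpa using ge_of_tendsto' ht (fun n => key n hg h1)
  have h1 : ∀ s, MeasurableSet s → ‖ν s‖ ≤ 4 * D := by
    intro s hs
    refine le_of_forall_pos_le_add (fun ε hε => ?_)
    obtain ⟨g, hg, h1, h2⟩ := hAPX ν s hs ε hε
    have h3 := key2 hg h1
    rw [hJ] at h3
    simp only [zero_add, lift_apply_LOW] at h3
    have := norm_sub_norm_le (ν s) (J ν (fun x => (g x : ℂ)))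
    linarith
  refine (variation_le_of_bound ν _ h1).trans (le_of_eq ?_)
  rw [ENNReal.ofReal_mul (by norm_num), ENNReal.ofReal_add measureReal_nonneg measureReal_nonneg,
    ofReal_measureReal, ofReal_measureReal, ENNReal.ofReal_ofNat, ← mul_assoc]
  norm_num

end

section


section Norm

variable {G : Type} [MeasurableSpace G]

/-- The total variation norm, as a real number. -/
noncomputable def Nn (μ : ComplexMeasure G) : ℝ := μ.variation.real Set.univ

lemma Nn_nonneg (μ : ComplexMeasure G) : 0 ≤ Nn μ := measureReal_nonneg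

lemma ofReal_Nn (μ : ComplexMeasure G) : ENNReal.ofReal (Nn μ) = μ.variation Set.univ :=
  ofReal_measureReal

lemma norm_le_Nn (μ : ComplexMeasure G) (s : Set G) : ‖μ s‖ ≤ Nn μ :=
  le_trans VectorMeasure.norm_measure_le_variation (measureReal_mono (Set.subset_univ s))

lemma Nn_add (μ ν : ComplexMeasure G) : Nn (μ + ν) ≤ Nn μ + Nn ν := by
  unfold Nn
  rw [← measureReal_add_apply]
  exact ENNReal.toReal_mono (measure_ne_top _ _) (VectorMeasure.variation_add_le Set.univ)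

lemma Nn_smul (c : ℂ) (μ : ComplexMeasure G) : Nn (c • μ) = ‖c‖ * Nn μ := by
  unfold Nn
  have : VectorMeasure.variation (c • μ) = ‖c‖₊ • μ.variation := VectorMeasure.variation_smul
  rw [this, measureReal_nnreal_smul_apply, coe_nnnorm]

lemma Nn_sub (μ ν : ComplexMeasure G) : Nn (μ - ν) ≤ Nn μ + Nn ν := by
  unfold Nn
  rw [← measureReal_add_apply]
  exact ENNReal.toReal_mono (measure_ne_top _ _) (VectorMeasure.variation_sub_le Set.univ)

lemma Nn_sum {ι : Type} (s : Finset ι) (μ : ι → ComplexMeasure G) :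
    Nn (∑ i ∈ s, μ i) ≤ ∑ i ∈ s, Nn (μ i) := by
  classical
  induction s using Finset.induction_on with
  | empty => simp [Nn]
  | insert a s ha ih =>
    rw [Finset.sum_insert ha, Finset.sum_insert ha]
    linarith [Nn_add (μ a) (∑ i ∈ s, μ i)]

lemma Nn_dirac (x : G) : Nn (VectorMeasure.dirac x (1 : ℂ)) = 1 := by
  simp [Nn]

lemma Nn_le_of_bound (μ : ComplexMeasure G) {R : ℝ} (hR : 0 ≤ R)
    (h : ∀ U, MeasurableSet U → ‖μ U‖ ≤ R) : Nn μ ≤ 4 * R := by
  have := variation_le_of_bound μ R h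
  refine ENNReal.toReal_le_of_le_ofReal (by positivity) (this.trans (le_of_eq ?_))
  rw [ENNReal.ofReal_mul (by norm_num), ENNReal.ofReal_ofNat]

lemma eq_zero_of_Nn {μ : ComplexMeasure G} (h : Nn μ ≤ 0) : μ = 0 := by
  ext s _
  exact norm_le_zero_iff.mp ((norm_le_Nn μ s).trans h)

lemma Nn_conv [AddCommGroup G] [MeasurableAdd₂ G] (μ ν : ComplexMeasure G) :
    Nn (conv μ ν) ≤ Nn μ * Nn ν := by
  have h1 : (conv μ ν).variation Set.univ ≤ μ.variation Set.univ * ν.variation Set.univ := by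
    unfold conv
    refine (VectorMeasure.variation_map_le Set.univ).trans ?_
    rw [Measure.map_apply measurable_add MeasurableSet.univ, Set.preimage_univ]
    refine (VectorMeasure.variation_prod_le Set.univ).trans (le_of_eq ?_)
    rw [Measure.smul_apply, ← Set.univ_prod_univ, Measure.prod_prod, ← ofReal_norm,
      ContinuousLinearMap.opNorm_mul]
    simp
  unfold Nn
  rw [measureReal_def, measureReal_def, measureReal_def, ← ENNReal.toReal_mul]
  exact ENNReal.toReal_mono (ENNReal.mul_ne_top (measure_ne_top _ _) (measure_ne_top _ _)) h1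

lemma sum_norm_le_Nn (μ : ComplexMeasure G) {f : ℕ → Set G} (hm : ∀ i, MeasurableSet (f i))
    (hd : Pairwise (Function.onFun Disjoint f)) (s : Finset ℕ) : ∑ i ∈ s, ‖μ (f i)‖ ≤ Nn μ := by
  refine (Finset.sum_le_sum (fun i _ => VectorMeasure.norm_measure_le_variation
    (μ := μ) (E := f i))).trans ?_
  rw [← measureReal_biUnion_finset (fun i _ j _ hij => hd hij) (fun i _ => hm i)]
  exact measureReal_mono (Set.subset_univ _)

/-- The sum of an absolutely convergent series of complex measures. -/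
noncomputable def vsum (μ : ℕ → ComplexMeasure G) (h : Summable (fun n => Nn (μ n))) :
    ComplexMeasure G where
  measureOf' s := ∑' n, μ n s
  empty' := by simp
  not_measurable' s hs := by simp [VectorMeasure.not_measurable _ hs]
  m_iUnion' f hm hd := by
    have h1 : ∀ n, Summable (fun i => ‖μ n (f i)‖) := fun n =>
      summable_of_sum_le (fun _ => norm_nonneg _) (sum_norm_le_Nn (μ n) hm hd)
    have h2 : Summable (fun p : ℕ × ℕ => μ p.1 (f p.2)) := by
      refine Summable.of_norm ((summable_prod_of_nonneg (fun _ => norm_nonneg _)).mpr ⟨h1, ?_⟩)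
      exact Summable.of_nonneg_of_le (fun n => tsum_nonneg (fun _ => norm_nonneg _))
        (fun n => (h1 n).tsum_le_of_sum_le (sum_norm_le_Nn (μ n) hm hd)) h
    have h3 : HasSum (fun n => μ n (⋃ i, f i)) (∑' p : ℕ × ℕ, μ p.1 (f p.2)) :=
      h2.hasSum.prod_fiberwise (fun n => VectorMeasure.hasSum_of_disjoint_iUnion hm hd)
    have h4 : HasSum (fun p : ℕ × ℕ => μ p.2 (f p.1)) (∑' p : ℕ × ℕ, μ p.1 (f p.2)) :=
      ((Equiv.prodComm ℕ ℕ).hasSum_iff (f := fun p : ℕ × ℕ => μ p.1 (f p.2))).mpr h2.hasSum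
    rw [h3.tsum_eq]
    exact h4.prod_fiberwise (fun i => (Summable.of_norm_bounded h
      (fun n => norm_le_Nn (μ n) (f i))).hasSum)

lemma vsum_apply (μ : ℕ → ComplexMeasure G) (h : Summable (fun n => Nn (μ n))) (s : Set G) :
    vsum μ h s = ∑' n, μ n s := rfl

/-- Convolution powers. -/
noncomputable def cpow [AddCommGroup G] (μ : ComplexMeasure G) : ℕ → ComplexMeasure G
  | 0 => VectorMeasure.dirac 0 1
  | n + 1 => conv μ (cpow μ n)

lemma Nn_cpow [AddCommGroup G] [MeasurableAdd₂ G] (μ : ComplexMeasure G) (n : ℕ) :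
    Nn (cpow μ n) ≤ Nn μ ^ n := by
  induction n with
  | zero => rw [pow_zero]; exact (Nn_dirac 0).le
  | succ n ih =>
    rw [pow_succ']
    exact (Nn_conv _ _).trans (mul_le_mul_of_nonneg_left ih (Nn_nonneg μ))

end Norm

section Disc

variable {G : Type} [AddCommGroup G] [MeasurableSpace G] [MeasurableAdd₂ G]
  {E : Type} [Ring E] [Algebra ℂ E] {T : ComplexMeasure G →ₗ[ℂ] E}
  (hinj : Function.Injective T) (hmul : ∀ μ ν, T (conv μ ν) = T μ * T ν)
  (hcomm : ∀ μ ν, T μ * T ν = T ν * T μ) (hone : T (VectorMeasure.dirac (0 : G) (1 : ℂ)) = 1)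
  {φ : ComplexMeasure G →ₗ[ℂ] ℂ} (hφ0 : φ ≠ 0) (hφ : ∀ μ ν, φ (conv μ ν) = φ μ * φ ν)

omit [MeasurableAdd₂ G] in
include hmul hone in
lemma T_cpow (μ : ComplexMeasure G) (n : ℕ) : T (cpow μ n) = T μ ^ n := by
  induction n with
  | zero => rw [pow_zero]; exact hone
  | succ n ih => rw [pow_succ', ← ih]; exact hmul _ _

omit [MeasurableAdd₂ G] in
include hinj hmul hone hφ0 hφ in
lemma phi_one : φ (VectorMeasure.dirac (0 : G) (1 : ℂ)) = 1 := by
  obtain ⟨μ, hμ⟩ : ∃ μ, φ μ ≠ 0 := by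
    by_contra h
    exact hφ0 (LinearMap.ext (fun μ => by simpa using not_exists.mp h μ))
  have h1 : conv (VectorMeasure.dirac (0 : G) (1 : ℂ)) μ = μ := hinj (by rw [hmul, hone, one_mul])
  have h2 := hφ (VectorMeasure.dirac (0 : G) (1 : ℂ)) μ
  rw [h1] at h2
  exact mul_right_cancel₀ hμ (by rw [← h2, one_mul])

include hinj hmul hone hφ0 hφ in
lemma norm_phi_le (μ : ComplexMeasure G) : ‖φ μ‖ ≤ Nn μ := by
  by_contra hlt
  have hlt' : Nn μ < ‖φ μ‖ := not_le.mp hlt
  have hpos : 0 < ‖φ μ‖ := (Nn_nonneg μ).trans_lt hlt'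
  have hne : φ μ ≠ 0 := norm_pos_iff.mp hpos
  set ν : ComplexMeasure G := (φ μ)⁻¹ • μ with hν
  have hq1 : Nn ν < 1 := by
    rw [hν, Nn_smul, norm_inv, inv_mul_lt_iff₀ hpos, mul_one]; exact hlt'
  have hq0 := Nn_nonneg ν
  have hφν : φ ν = 1 := by rw [hν, map_smul, smul_eq_mul, inv_mul_cancel₀ hne]
  have hg := summable_geometric_of_lt_one hq0 hq1
  have hs : Summable (fun n => Nn (cpow ν n)) :=
    Summable.of_nonneg_of_le (fun _ => Nn_nonneg _) (Nn_cpow ν) hg
  set w := vsum (cpow ν) hs with hw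
  set d : ComplexMeasure G := VectorMeasure.dirac (0 : G) (1 : ℂ) with hd
  have h1 : ∀ N : ℕ, Nn (w - ∑ n ∈ range N, cpow ν n) ≤ 4 * (Nn ν ^ N * (1 - Nn ν)⁻¹) := by
    intro N
    have h0 : 0 < 1 - Nn ν := by linarith
    refine Nn_le_of_bound _ (by positivity) (fun U _ => ?_)
    have h2 : Summable (fun n => cpow ν n U) :=
      Summable.of_norm_bounded hs (fun n => norm_le_Nn _ U)
    have h3 : (w - ∑ n ∈ range N, cpow ν n) U = ∑' n, cpow ν (n + N) U := by
      rw [_root_.sub_apply, hw, vsum_apply, ← h2.sum_add_tsum_nat_add N]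
      simp
    rw [h3]
    refine tsum_of_norm_bounded (g := fun n => Nn ν ^ N * Nn ν ^ n)
      ((hasSum_geometric_of_lt_one hq0 hq1).mul_left _) (fun n => ?_)
    rw [← pow_add, add_comm N]
    exact (norm_le_Nn _ U).trans (Nn_cpow ν _)
  have h2 : ∀ N : ℕ, conv (d - ν) w - d
      = conv (d - ν) (w - ∑ n ∈ range N, cpow ν n) - cpow ν N := by
    intro N
    apply hinj
    simp only [map_sub, hmul, hone, map_sum, T_cpow hmul hone]
    rw [mul_sub (1 - T ν), mul_neg_geom_sum]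
    abel
  have h3 : ∀ N : ℕ, Nn (conv (d - ν) w - d)
      ≤ (Nn (d - ν) * (4 * (1 - Nn ν)⁻¹) + 1) * Nn ν ^ N := by
    intro N
    rw [h2 N]
    refine (Nn_sub _ _).trans ?_
    have h4 := (Nn_conv (d - ν) _).trans (mul_le_mul_of_nonneg_left (h1 N) (Nn_nonneg _))
    have h5 := Nn_cpow ν N
    nlinarith
  have h4 : Nn (conv (d - ν) w - d) ≤ 0 := by
    have ht := (tendsto_pow_atTop_nhds_zero_of_lt_one hq0 hq1).const_mul
      (Nn (d - ν) * (4 * (1 - Nn ν)⁻¹) + 1)
    rw [mul_zero] at ht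
    exact ge_of_tendsto' ht h3
  have h5 : conv (d - ν) w = d := sub_eq_zero.mp (eq_zero_of_Nn h4)
  have h6 := hφ (d - ν) w
  rw [h5, map_sub, hd, phi_one hinj hmul hone hφ0 hφ, hφν] at h6
  simp at h6

include hinj hmul hone hφ0 hφ in
lemma exists_fejer {u : ComplexMeasure G} (hu : Nn u ≤ 1) (hφu : φ u = 1) {η : ℝ} (hη : 0 < η) :
    ∃ ν : ComplexMeasure G, φ ν = 1 ∧ Nn ν ≤ 1 ∧
      Nn (conv (u - VectorMeasure.dirac (0 : G) (1 : ℂ)) ν) ≤ η := by
  obtain ⟨M, hM⟩ := exists_nat_gt (2 / η)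
  have hM0 : (0 : ℝ) < M := lt_trans (by positivity) hM
  have hMc : (M : ℂ) ≠ 0 := by exact_mod_cast hM0.ne'
  have hp : ∀ n, Nn (cpow u n) ≤ 1 := fun n =>
    (Nn_cpow u n).trans (pow_le_one₀ (Nn_nonneg u) hu)
  have hφp : ∀ n, φ (cpow u n) = 1 := by
    intro n
    induction n with
    | zero => exact phi_one hinj hmul hone hφ0 hφ
    | succ n ih => rw [cpow, hφ, ih, hφu, one_mul]
  refine ⟨(M : ℂ)⁻¹ • ∑ n ∈ range M, cpow u n, ?_, ?_, ?_⟩
  · simp [hφp, hMc]
  · rw [Nn_smul, norm_inv, Complex.norm_natCast, inv_mul_le_iff₀ hM0, mul_one]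
    refine (Nn_sum _ _).trans ?_
    simpa using Finset.sum_le_card_nsmul (range M) _ 1 (fun n _ => hp n)
  · have e : conv (u - VectorMeasure.dirac (0 : G) (1 : ℂ)) ((M : ℂ)⁻¹ • ∑ n ∈ range M, cpow u n)
        = (M : ℂ)⁻¹ • (cpow u M - VectorMeasure.dirac (0 : G) (1 : ℂ)) := by
      apply hinj
      simp only [map_sub, hmul, hone, map_sum, map_smul, T_cpow hmul hone]
      rw [mul_smul_comm, mul_geom_sum]
    rw [e, Nn_smul, norm_inv, Complex.norm_natCast, inv_mul_le_iff₀ hM0]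
    have h1 := Nn_sub (cpow u M) (VectorMeasure.dirac (0 : G) (1 : ℂ))
    rw [Nn_dirac] at h1
    rw [div_lt_iff₀ hη] at hM
    linarith [hp M]

include hinj hmul hcomm hone hφ0 hφ in
lemma exists_folner {ι : Type} (u : ι → ComplexMeasure G) (hu : ∀ i, Nn (u i) ≤ 1)
    (hφu : ∀ i, φ (u i) = 1) {η : ℝ} (hη : 0 < η) (F : Finset ι) :
    ∃ ν : ComplexMeasure G, φ ν = 1 ∧ Nn ν ≤ 1 ∧
      ∀ i ∈ F, Nn (conv (u i - VectorMeasure.dirac (0 : G) (1 : ℂ)) ν) ≤ η := by
  classical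
  induction F using Finset.induction_on with
  | empty => exact ⟨_, phi_one hinj hmul hone hφ0 hφ, (Nn_dirac 0).le, by simp⟩
  | insert a F _ ih =>
    obtain ⟨ν, h1, h2, h3⟩ := ih
    obtain ⟨ν', h1', h2', h3'⟩ := exists_fejer hinj hmul hone hφ0 hφ (hu a) (hφu a) hη
    refine ⟨conv ν' ν, by rw [hφ, h1, h1', one_mul],
      (Nn_conv _ _).trans (mul_le_one₀ h2' (Nn_nonneg _) h2), fun i hi => ?_⟩
    rcases Finset.mem_insert.mp hi with rfl | hi
    · have e : conv (u i - VectorMeasure.dirac (0 : G) (1 : ℂ)) (conv ν' ν)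
          = conv (conv (u i - VectorMeasure.dirac (0 : G) (1 : ℂ)) ν') ν :=
        hinj (by simp only [hmul, mul_assoc])
      rw [e]
      refine (Nn_conv _ _).trans ?_
      exact (mul_le_of_le_one_right (Nn_nonneg _) h2).trans h3'
    · have e : conv (u i - VectorMeasure.dirac (0 : G) (1 : ℂ)) (conv ν' ν)
          = conv ν' (conv (u i - VectorMeasure.dirac (0 : G) (1 : ℂ)) ν) :=
        hinj (by simp only [hmul]; rw [← mul_assoc, hcomm _ ν', mul_assoc])
      rw [e]
      refine (Nn_conv _ _).trans ?_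
      exact (mul_le_of_le_one_left (Nn_nonneg _) h2').trans (h3 i hi)

lemma conv_dirac (x y : G) : conv (VectorMeasure.dirac x (1 : ℂ)) (VectorMeasure.dirac y (1 : ℂ))
    = VectorMeasure.dirac (x + y) (1 : ℂ) := by
  have h1 : (VectorMeasure.dirac x (1 : ℂ)).prod (VectorMeasure.dirac y (1 : ℂ))
      (ContinuousLinearMap.mul ℝ ℂ) = VectorMeasure.dirac (x, y) (1 : ℂ) := by
    refine VectorMeasure.prod_eq_of_forall_apply_prod (fun s t hs ht => ?_)
    by_cases hx : x ∈ s <;> by_cases hy : y ∈ t <;> simp [hx, hy, hs, ht, hs.prod ht]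
  unfold conv
  rw [h1]
  ext s hs
  rw [VectorMeasure.map_apply _ measurable_add hs]
  by_cases hx : x + y ∈ s
  · rw [VectorMeasure.dirac_apply_of_mem hs hx,
      VectorMeasure.dirac_apply_of_mem (measurable_add hs) hx]
  · rw [VectorMeasure.dirac_apply_of_notMem hx, VectorMeasure.dirac_apply_of_notMem (by exact hx)]

omit [AddCommGroup G] [MeasurableAdd₂ G] in
lemma sub_sum_dirac [MeasurableSingletonClass G] (μ : ComplexMeasure G) (F : Finset G) :
    μ - ∑ x ∈ F, μ {x} • (VectorMeasure.dirac x (1 : ℂ) : ComplexMeasure G)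
      = VectorMeasure.restrict μ (F : Set G)ᶜ := by
  classical
  rw [sub_eq_iff_eq_add']
  conv_lhs => rw [← VectorMeasure.restrict_add_restrict_compl (v := μ) F.measurableSet]
  congr 1
  ext s hs
  have e : s ∩ (F : Set G) = ⋃ x ∈ F.filter (· ∈ s), {x} := by
    ext x; simp [and_comm]
  rw [VectorMeasure.restrict_apply _ F.measurableSet hs, e, VectorMeasure.of_biUnion_finset
    (fun a _ b _ hab => Set.disjoint_singleton.mpr hab) (fun b _ => measurableSet_singleton b),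
    Finset.sum_filter]
  simp only [FunLike.coe_sum, Finset.sum_apply, _root_.smul_apply, smul_eq_mul]
  refine Finset.sum_congr rfl (fun x _ => ?_)
  by_cases hx : x ∈ s <;> simp [hx, hs]

include hinj hmul hcomm hone hφ0 hφ in
lemma discrete_small [MeasurableSingletonClass G]
    (htight : ∀ m : Measure G, IsFiniteMeasure m → ∀ ε : ℝ, 0 < ε →
      ∃ F : Finset G, m.real (F : Set G)ᶜ ≤ ε)
    {n : ℕ} (μ : Fin n → ComplexMeasure G) (hμ : ∀ j, φ (μ j) = 0) {ε : ℝ} (hε : 0 < ε) :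
    ∃ ν : ComplexMeasure G, Nn ν = 1 ∧ ∀ j, Nn (conv (μ j) ν) ≤ 3 * ε := by
  have hle := norm_phi_le hinj hmul hone hφ0 hφ
  set dl : G → ComplexMeasure G := fun x => VectorMeasure.dirac x (1 : ℂ) with hdl
  have hγ1 : ∀ x, ‖φ (dl x)‖ ≤ 1 := fun x => (hle _).trans (Nn_dirac x).le
  have hγ2 : ∀ x, φ (dl x) * φ (dl (-x)) = 1 := by
    intro x
    rw [← hφ, hdl]
    simp only
    rw [conv_dirac, add_neg_cancel, phi_one hinj hmul hone hφ0 hφ]
  obtain ⟨F, hF⟩ := htight (∑ j, (μ j).variation) inferInstance ε hε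
  set S : ℝ := ∑ j, ∑ x ∈ F, ‖μ j {x}‖ with hS
  have hS0 : 0 ≤ S := by positivity
  obtain ⟨ν, h1, h2, h3⟩ := exists_folner hinj hmul hcomm hone hφ0 hφ
    (fun x => φ (dl (-x)) • dl x)
    (fun x => by rw [Nn_smul, Nn_dirac, mul_one]; exact hγ1 _)
    (fun x => by rw [map_smul, smul_eq_mul, mul_comm, hγ2]) (η := ε / (S + 1)) (by positivity) F
  refine ⟨ν, le_antisymm h2 (by simpa [h1] using hle ν), fun j => ?_⟩
  set μ' : ComplexMeasure G := ∑ x ∈ F, μ j {x} • dl x with hμ'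
  have h4 : Nn (μ j - μ') ≤ ε := by
    rw [hμ', hdl]
    simp only
    rw [sub_sum_dirac, Nn, VectorMeasure.variation_restrict F.measurableSet.compl,
      measureReal_restrict_apply_univ]
    refine le_trans ?_ hF
    refine ENNReal.toReal_mono (measure_ne_top _ _) ?_
    exact Measure.le_iff'.mp (Finset.single_le_sum (f := fun j => (μ j).variation)
      (fun _ _ => Measure.zero_le _) (Finset.mem_univ j)) _
  have h5 : ‖φ μ'‖ ≤ ε := by
    have := hle (μ j - μ')
    rw [map_sub, hμ j, zero_sub, norm_neg] at this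
    exact this.trans h4
  have e : conv (μ j) ν = conv (μ j - μ') ν + (∑ x ∈ F, (μ j {x} * φ (dl x)) •
      conv (φ (dl (-x)) • dl x - VectorMeasure.dirac (0 : G) (1 : ℂ)) ν + φ μ' • ν) := by
    apply hinj
    simp only [map_add, map_sub, map_sum, map_smul, hmul, hone, hμ', smul_eq_mul, sub_mul,
      Finset.sum_mul, smul_mul_assoc, one_mul, smul_sub, smul_smul, mul_assoc, hγ2, mul_one,
      Finset.sum_sub_distrib, Finset.sum_smul]
    abel
  rw [e]
  refine (Nn_add _ _).trans ?_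
  have h6 := (Nn_conv (μ j - μ') ν).trans (mul_le_mul h4 h2 (Nn_nonneg _) hε.le)
  have h7 : Nn (φ μ' • ν) ≤ ε * 1 := by
    rw [Nn_smul]; exact mul_le_mul h5 h2 (Nn_nonneg _) hε.le
  have h8 : Nn (∑ x ∈ F, (μ j {x} * φ (dl x)) •
      conv (φ (dl (-x)) • dl x - VectorMeasure.dirac (0 : G) (1 : ℂ)) ν) ≤ S * (ε / (S + 1)) := by
    refine (Nn_sum _ _).trans ?_
    have h9 : ∑ x ∈ F, ‖μ j {x}‖ ≤ S :=
      Finset.single_le_sum (f := fun j => ∑ x ∈ F, ‖μ j {x}‖) (fun _ _ => by positivity)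
        (Finset.mem_univ j)
    refine le_trans ?_ (mul_le_mul_of_nonneg_right h9 (by positivity))
    rw [Finset.sum_mul]
    refine Finset.sum_le_sum (fun x hx => ?_)
    rw [Nn_smul, norm_mul]
    exact mul_le_mul (mul_le_of_le_one_right (norm_nonneg _) (hγ1 x)) (h3 x hx) (Nn_nonneg _)
      (norm_nonneg _)
  have h10 : S * (ε / (S + 1)) ≤ ε := by
    rw [← mul_div_assoc, div_le_iff₀ (by positivity)]
    nlinarith
  linarith [Nn_add (∑ x ∈ F, (μ j {x} * φ (dl x)) •
      conv (φ (dl (-x)) • dl x - VectorMeasure.dirac (0 : G) (1 : ℂ)) ν) (φ μ' • ν)]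

end Disc

theorem DISC_pf (G : Type) [AddCommGroup G] [TopologicalSpace G] [IsTopologicalAddGroup G]
    [T2Space G] [LocallyCompactSpace G] [SecondCountableTopology G] [MeasurableSpace G]
    [BorelSpace G] (hOPS : OPS_st G) (hAPX : APX_st G) [DiscreteTopology G]
    (φ : ComplexMeasure G →ₗ[ℂ] ℂ) (hφ0 : φ ≠ 0) (hφ : ∀ μ ν, φ (conv μ ν) = φ μ * φ ν)
    (n : ℕ) (μ : Fin n → ComplexMeasure G) (hμ : ∀ j, φ (μ j) = 0) :
    ⨅ (ν : ComplexMeasure G) (_ : ν.variation Set.univ = 1),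
      ∑ j, (conv (μ j) ν).variation Set.univ = 0 := by
  obtain ⟨T, hJ, hmul, hcomm, hone, -, -⟩ := hOPS
  have hinj : Function.Injective T := by
    refine (injective_iff_map_eq_zero T).mpr (fun ν hν => ?_)
    ext s hs
    refine norm_le_zero_iff.mp (le_of_forall_pos_le_add (fun ε hε => ?_))
    obtain ⟨g, hg, h1, h2⟩ := hAPX ν s hs ε hε
    have h3 := hJ ν (BoundedContinuousFunction.ofNormedAddCommGroup (fun x => (g x : ℂ))
      (Complex.continuous_ofReal.comp hg.continuous) 1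
      (fun x => by rw [Complex.norm_real, Real.norm_eq_abs]; exact h1 x)) 0
    rw [hν] at h3
    simp only [zero_add, BoundedContinuousFunction.coe_ofNormedAddCommGroup] at h3
    rw [← h3] at h2
    simpa using h2
  have htight : ∀ m : Measure G, IsFiniteMeasure m → ∀ ε : ℝ, 0 < ε →
      ∃ F : Finset G, m.real (F : Set G)ᶜ ≤ ε := by
    intro m _ ε hε
    obtain ⟨K, -, hK, hlt⟩ := MeasurableSet.univ.exists_isCompact_sdiff_lt (μ := m)
      (measure_ne_top _ _) (ε := ENNReal.ofReal ε) (by simpa using hε)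
    refine ⟨hK.finite_of_discrete.toFinset, ?_⟩
    rw [Set.Finite.coe_toFinset, Set.compl_eq_univ_sdiff]
    exact ENNReal.toReal_le_of_le_ofReal hε.le hlt.le
  refine le_antisymm (ENNReal.le_of_forall_pos_le_add (fun ε hε _ => ?_)) bot_le
  have hε' : (0 : ℝ) < ε := hε
  obtain ⟨ν, h1, h2⟩ := discrete_small hinj hmul hcomm hone hφ0 hφ htight μ hμ
    (ε := ε / (3 * (n + 1))) (by positivity)
  have h3 : ν.variation Set.univ = 1 := by rw [← ofReal_Nn, h1, ENNReal.ofReal_one]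
  refine (iInf₂_le ν h3).trans ?_
  rw [zero_add]
  simp only [← ofReal_Nn]
  rw [← ENNReal.ofReal_sum_of_nonneg (fun _ _ => Nn_nonneg _), ← ENNReal.ofReal_coe_nnreal]
  refine ENNReal.ofReal_le_ofReal ((Finset.sum_le_sum (fun j _ => h2 j)).trans ?_)
  simp only [Finset.sum_const, Finset.card_univ, Fintype.card_fin, nsmul_eq_mul]
  have e : (n : ℝ) * (3 * (ε / (3 * (n + 1)))) = n / (n + 1) * ε := by field_simp
  rw [e]
  refine mul_le_of_le_one_left hε'.le ?_
  rw [div_le_one (by positivity)]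
  linarith

end

theorem main_of (G : Type) [AddCommGroup G] [TopologicalSpace G] [MeasurableSpace G]
    (hSEQ : SEQ_st G) (hLIM : LIM_st G) (hPA : PA_st G) (hPB : PB_st G) (hOPS : OPS_st G)
    (hCHAR : CHAR_st G) (hLOW : LOW_st G) :
    ∃ φ : ComplexMeasure G →ₗ[ℂ] ℂ, φ ≠ 0 ∧ (∀ μ ν, φ (conv μ ν) = φ μ * φ ν) ∧
      ∃ (n : ℕ) (μ : Fin n → ComplexMeasure G), (∀ j, φ (μ j) = 0) ∧
        ∃ c : ℝ≥0∞, 0 < c ∧ ∀ ν : ComplexMeasure G, ν.variation Set.univ = 1 →
          c ≤ ∑ j, (conv (μ j) ν).variation Set.univ := by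
  obtain ⟨a, b, U, C, hC, ha, hb, hS⟩ := hSEQ
  obtain ⟨l, α, β, hl, hle, hα, hβ, hla, hlb⟩ := hLIM a b C hC
    (fun n => (hS.1 n).choose_spec.1) (fun n => (hS.1 n).choose_spec.2.1) ha hb
  obtain ⟨T, hT⟩ := hOPS
  obtain ⟨φ, h0, hmul, h1, h2⟩ := hCHAR T α β hT hα hβ (hPB a b U l α β hS hl hle hα hla hlb)
  refine ⟨φ, h0, hmul, 2, ![VectorMeasure.dirac (0 : G) (1 : ℂ) - cm α, cm β], ?_, 16⁻¹, by simp,
    fun ν hν => ?_⟩
  · intro j
    fin_cases j
    · exact h1
    · exact h2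
  · have := hLOW T α β hT hα hβ (hPA a b U l α β hS hl hle hla hlb) ν
    rw [hν] at this
    rw [Fin.sum_univ_two]
    simp only [Matrix.cons_val_zero, Matrix.cons_val_one]
    rw [ENNReal.inv_le_iff_le_mul (by simp) (by simp)]
    exact this

theorem not_cortex (G : Type) [AddCommGroup G] [TopologicalSpace G] [IsTopologicalAddGroup G]
    [T2Space G] [LocallyCompactSpace G] [SecondCountableTopology G] [MeasurableSpace G]
    [BorelSpace G] (hG : ¬ DiscreteTopology G) :
    ∃ φ : ComplexMeasure G →ₗ[ℂ] ℂ, φ ≠ 0 ∧ (∀ μ ν, φ (conv μ ν) = φ μ * φ ν) ∧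
      ∃ (n : ℕ) (μ : Fin n → ComplexMeasure G), (∀ j, φ (μ j) = 0) ∧
        ∃ c : ℝ≥0∞, 0 < c ∧ ∀ ν : ComplexMeasure G, ν.variation Set.univ = 1 →
          c ≤ ∑ j, (conv (μ j) ν).variation Set.univ :=
  main_of G
    (SEQ_pf G (STAGE_pf G (STEP_pf G (SL_pf G (IT_pf SC_pf) (LET_pf G SC_pf)
      (TRA_pf G SC_pf (LET_pf G SC_pf)) (TRB_pf G) (DIS_pf G hG)) (PROD_pf G)) (PROD_pf G)))
    (LIM_pf G) (PA_pf G) (PB_pf G) (OPS_pf G (DEN_pf G) (FUB_pf G)) (CHAR_pf G)
    (LOW_pf G (APX_pf G))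

theorem cortex_iff (G : Type) [AddCommGroup G] [TopologicalSpace G] [IsTopologicalAddGroup G]
    [T2Space G] [LocallyCompactSpace G] [SecondCountableTopology G] [MeasurableSpace G]
    [BorelSpace G] :
    (∀ φ : ComplexMeasure G →ₗ[ℂ] ℂ, φ ≠ 0 → (∀ μ ν, φ (conv μ ν) = φ μ * φ ν) →
      ∀ (n : ℕ) (μ : Fin n → ComplexMeasure G), (∀ j, φ (μ j) = 0) →
        ⨅ (ν : ComplexMeasure G) (_ : ν.variation Set.univ = 1),
          ∑ j, (conv (μ j) ν).variation Set.univ = 0) ↔ DiscreteTopology G := by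
  constructor
  · intro h
    by_contra hG
    obtain ⟨φ, h0, hmul, n, μ, hμ, c, hc, hle⟩ := not_cortex G hG
    have h1 := h φ h0 hmul n μ hμ
    exact absurd (h1 ▸ le_iInf₂ hle) (not_le.mpr hc)
  · intro _
    exact DISC_pf G (OPS_pf G (DEN_pf G) (FUB_pf G)) (APX_pf G)

/-- The circle group is a compact example. -/
theorem exists_compact_not_cortex :
    ∃ (G : Type) (_ : AddCommGroup G) (_ : TopologicalSpace G) (_ : IsTopologicalAddGroup G)
      (_ : T2Space G) (_ : LocallyCompactSpace G) (_ : CompactSpace G)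
      (_ : SecondCountableTopology G) (_ : MeasurableSpace G) (_ : BorelSpace G),
      (∀ μ : ComplexMeasure G, IsFiniteMeasure μ.variation ∧ μ.variation.Regular) ∧
      ∃ φ : ComplexMeasure G →ₗ[ℂ] ℂ, φ ≠ 0 ∧ (∀ μ ν, φ (conv μ ν) = φ μ * φ ν) ∧
        ∃ (n : ℕ) (μ : Fin n → ComplexMeasure G), (∀ j, φ (μ j) = 0) ∧
          ∃ c : ENNReal, 0 < c ∧ ∀ ν : ComplexMeasure G, ν.variation Set.univ = 1 →
            c ≤ ∑ j, (conv (μ j) ν).variation Set.univ := by
  refine ⟨UnitAddCircle, inferInstance, inferInstance, inferInstance, inferInstance, inferInstance,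
    inferInstance, inferInstance, inferInstance, inferInstance,
    fun _ => ⟨inferInstance, inferInstance⟩, not_cortex UnitAddCircle (fun h => ?_)⟩
  have : Finite UnitAddCircle := finite_of_compact_of_discrete
  have : Infinite (Set.Ico (0 : ℝ) (0 + 1)) := Set.Ico.infinite (by norm_num)
  have : Infinite UnitAddCircle :=
    Infinite.of_injective _ (AddCircle.equivIco (1 : ℝ) 0).symm.injective
  exact not_finite UnitAddCircle

end Pool.Agent.MP_4cde56_an.ND
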