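import Mathlib
import Pool.Agent.MP_4cde56_an.Defs

set_option autoImplicit false

namespace Pool.Agent.MP_4cde56_an.ND

open MeasureTheory Finset Filter Topology
open scoped Pointwise ENNReal BoundedContinuousFunction

/-- Finitely supported real weights on `G`, with convolution. -/
abbrev RG (G : Type) [AddCommGroup G] : Type := AddMonoidAlgebra ℝ G

section Alg

variable {G : Type} [AddCommGroup G]

/-- The averaging operator of a weight. -/
noncomputable def op (w : RG G) (g : G → ℝ) (x : G) : ℝ :=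
  w.coeff.sum (fun y c => c * g (x + y))

/-- Probability weights. -/
def Prob (w : RG G) : Prop := (∀ y, 0 ≤ w.coeff y) ∧ op w (fun _ => 1) 0 = 1

/-- The support lies in `V`. -/
def SuppIn (w : RG G) (V : Set G) : Prop := ∀ y, w.coeff y ≠ 0 → y ∈ V

/-- `B` is less noisy than `A`, through the signed weight `R`. -/
def LN (A B R : RG G) : Prop := Prob A ∧ Prob B ∧ A = B * R ∧
  ∀ (g : G → ℝ) (x : G), op B (fun z => op R g z ^ 2) x ≤ op A (fun z => g z ^ 2) x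

/-- Convolution of a weight with a function. -/
noncomputable def star (E : RG G) (e : G → ℝ) (w : G) : ℝ :=
  E.coeff.sum (fun x c => c * e (-x + w))

lemma op_def (w : RG G) (g : G → ℝ) (x : G) :
    op w g x = ∑ y ∈ w.coeff.support, w.coeff y * g (x + y) := rfl

lemma star_def (E : RG G) (e : G → ℝ) (w : G) :
    star E e w = ∑ x ∈ E.coeff.support, E.coeff x * e (-x + w) := rfl

lemma coeff_mul_eq_star (E F : RG G) (w : G) : (E * F).coeff w = star E F.coeff w :=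
  AddMonoidAlgebra.coeff_mul_apply_left E F w

lemma op_single (y : G) (c : ℝ) (g : G → ℝ) (x : G) :
    op (AddMonoidAlgebra.single y c) g x = c * g (x + y) := by
  unfold op
  rw [AddMonoidAlgebra.coeff_single, Finsupp.sum_single_index (by simp)]

lemma op_zero_left (g : G → ℝ) (x : G) : op (0 : RG G) g x = 0 := by
  simp [op]

lemma op_add_left (w w' : RG G) (g : G → ℝ) (x : G) :
    op (w + w') g x = op w g x + op w' g x := by
  unfold op
  rw [AddMonoidAlgebra.coeff_add, Finsupp.sum_add_index' (by simp) (by intros; ring)]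

lemma op_smul_left (c : ℝ) (w : RG G) (g : G → ℝ) (x : G) :
    op (c • w) g x = c * op w g x := by
  unfold op
  rw [AddMonoidAlgebra.coeff_smul, Finsupp.sum_smul_index' (by simp), Finsupp.mul_sum]
  exact Finsupp.sum_congr (fun y _ => by rw [smul_eq_mul]; ring)

lemma op_sum_left {ι : Type} (s : Finset ι) (w : ι → RG G) (g : G → ℝ) (x : G) :
    op (∑ i ∈ s, w i) g x = ∑ i ∈ s, op (w i) g x := by
  classical
  induction s using Finset.induction_on with
  | empty => simp [op_zero_left]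
  | insert a s ha ih => rw [Finset.sum_insert ha, Finset.sum_insert ha, op_add_left, ih]

lemma op_one (g : G → ℝ) : op (1 : RG G) g = g := by
  funext x
  rw [AddMonoidAlgebra.one_def, op_single]
  simp

lemma op_add (w : RG G) (g g' : G → ℝ) (x : G) :
    op w (fun z => g z + g' z) x = op w g x + op w g' x := by
  simp only [op_def, mul_add, Finset.sum_add_distrib]

lemma op_sub (w : RG G) (g g' : G → ℝ) (x : G) :
    op w (fun z => g z - g' z) x = op w g x - op w g' x := by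
  simp only [op_def, mul_sub, Finset.sum_sub_distrib]

lemma op_const_mul (w : RG G) (c : ℝ) (g : G → ℝ) (x : G) :
    op w (fun z => c * g z) x = c * op w g x := by
  simp only [op_def, Finset.mul_sum]
  exact Finset.sum_congr rfl (fun y _ => by ring)

lemma op_sum {ι : Type} (w : RG G) (s : Finset ι) (g : ι → G → ℝ) (x : G) :
    op w (fun z => ∑ i ∈ s, g i z) x = ∑ i ∈ s, op w (g i) x := by
  simp only [op_def, Finset.mul_sum]
  exact Finset.sum_comm

lemma op_translate (w : RG G) (g : G → ℝ) (a x : G) :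
    op w (fun z => g (a + z)) x = op w g (a + x) := by
  simp only [op_def, add_assoc]

lemma op_mul (w w' : RG G) (g : G → ℝ) : op (w * w') g = op w (op w' g) := by
  funext x
  induction w using AddMonoidAlgebra.induction_linear with
  | zero => simp [op_zero_left]
  | add a b ha hb => rw [add_mul, op_add_left, op_add_left, ha, hb]
  | single y c =>
    rw [op_single]
    induction w' using AddMonoidAlgebra.induction_linear with
    | zero => simp [op_zero_left]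
    | add a b ha hb => rw [mul_add, op_add_left, op_add_left, ha, hb, mul_add]
    | single y' c' =>
      rw [AddMonoidAlgebra.single_mul_single, op_single, op_single, add_assoc, mul_assoc]

lemma op_mono_supp {w : RG G} (hw : ∀ y, 0 ≤ w.coeff y) {g g' : G → ℝ} {x : G}
    (h : ∀ y, w.coeff y ≠ 0 → g (x + y) ≤ g' (x + y)) : op w g x ≤ op w g' x :=
  Finset.sum_le_sum (fun y hy =>
    mul_le_mul_of_nonneg_left (h y (Finsupp.mem_support_iff.mp hy)) (hw y))

lemma op_mono {w : RG G} (hw : ∀ y, 0 ≤ w.coeff y) {g g' : G → ℝ} (h : ∀ z, g z ≤ g' z)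
    (x : G) : op w g x ≤ op w g' x := op_mono_supp hw (fun _ _ => h _)

lemma op_nonneg {w : RG G} (hw : ∀ y, 0 ≤ w.coeff y) {g : G → ℝ} (h : ∀ z, 0 ≤ g z)
    (x : G) : 0 ≤ op w g x :=
  Finset.sum_nonneg (fun y _ => mul_nonneg (hw y) (h _))

lemma Prob.op_const {w : RG G} (hw : Prob w) (c : ℝ) (x : G) : op w (fun _ => c) x = c := by
  have h := hw.2
  simp only [op_def, mul_one] at h
  rw [op_def, ← Finset.sum_mul, h, one_mul]

lemma Prob.op_le {w : RG G} (hw : Prob w) {g : G → ℝ} {x : G} {c : ℝ}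
    (h : ∀ y, w.coeff y ≠ 0 → g (x + y) ≤ c) : op w g x ≤ c :=
  (op_mono_supp hw.1 (g' := fun _ => c) h).trans (hw.op_const c x).le

lemma Prob.le_op {w : RG G} (hw : Prob w) {g : G → ℝ} {x : G} {c : ℝ}
    (h : ∀ y, w.coeff y ≠ 0 → c ≤ g (x + y)) : c ≤ op w g x :=
  (hw.op_const c x).ge.trans (op_mono_supp hw.1 (g := fun _ => c) h)

lemma Prob.abs_op_le {w : RG G} (hw : Prob w) {g : G → ℝ} {x : G} {c : ℝ}
    (h : ∀ y, w.coeff y ≠ 0 → |g (x + y)| ≤ c) : |op w g x| ≤ c :=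
  abs_le.mpr ⟨hw.le_op (fun y hy => (abs_le.mp (h y hy)).1),
    hw.op_le (fun y hy => (abs_le.mp (h y hy)).2)⟩

lemma Prob.sq_op_le {w : RG G} (hw : Prob w) (g : G → ℝ) (x : G) :
    op w g x ^ 2 ≤ op w (fun z => g z ^ 2) x := by
  have h1 : op w (fun z => 2 * op w g x * g z - op w g x ^ 2) x ≤ op w (fun z => g z ^ 2) x :=
    op_mono hw.1 (fun z => by nlinarith [sq_nonneg (g z - op w g x)]) x
  rw [op_sub, op_const_mul, hw.op_const] at h1
  nlinarith

lemma coeff_mul_nonneg {w w' : RG G} (hw : ∀ y, 0 ≤ w.coeff y) (hw' : ∀ y, 0 ≤ w'.coeff y)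
    (y : G) : 0 ≤ (w * w').coeff y := by
  rw [coeff_mul_eq_star, star_def]
  exact Finset.sum_nonneg (fun x _ => mul_nonneg (hw x) (hw' _))

lemma Prob.single (y : G) : Prob (AddMonoidAlgebra.single y (1 : ℝ)) := by
  classical
  refine ⟨fun z => ?_, by rw [op_single]; simp⟩
  rw [AddMonoidAlgebra.coeff_single, Finsupp.single_apply]
  split_ifs <;> norm_num

lemma Prob.one : Prob (1 : RG G) := Prob.single 0

lemma Prob.mul {w w' : RG G} (hw : Prob w) (hw' : Prob w') : Prob (w * w') := by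
  refine ⟨coeff_mul_nonneg hw.1 hw'.1, ?_⟩
  rw [op_mul]
  have : op w' (fun _ => (1 : ℝ)) = fun _ => 1 := funext (fun x => hw'.op_const 1 x)
  rw [this, hw.2]

lemma Prob.pow {w : RG G} (hw : Prob w) (n : ℕ) : Prob (w ^ n) := by
  induction n with
  | zero => rw [pow_zero]; exact Prob.one
  | succ n ih => rw [pow_succ]; exact ih.mul hw

lemma SuppIn.mono {w : RG G} {V V' : Set G} (h : SuppIn w V) (hV : V ⊆ V') : SuppIn w V' :=
  fun y hy => hV (h y hy)

lemma exists_of_coeff_mul_ne_zero {w w' : RG G} {y : G} (h : (w * w').coeff y ≠ 0) :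
    ∃ x x', w.coeff x ≠ 0 ∧ w'.coeff x' ≠ 0 ∧ y = x + x' := by
  rw [coeff_mul_eq_star, star_def] at h
  obtain ⟨x, _, hx⟩ := Finset.exists_ne_zero_of_sum_ne_zero h
  exact ⟨x, -x + y, left_ne_zero_of_mul hx, right_ne_zero_of_mul hx, by abel⟩

lemma SuppIn.mul {w w' : RG G} {V V' : Set G} (h : SuppIn w V) (h' : SuppIn w' V') :
    SuppIn (w * w') (V + V') := by
  intro y hy
  obtain ⟨x, x', hx, hx', rfl⟩ := exists_of_coeff_mul_ne_zero hy
  exact Set.add_mem_add (h x hx) (h' x' hx')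

lemma SuppIn.single (y : G) (c : ℝ) {V : Set G} (h : y ∈ V) :
    SuppIn (AddMonoidAlgebra.single y c) V := by
  classical
  intro z hz
  rw [AddMonoidAlgebra.coeff_single, Finsupp.single_apply] at hz
  split_ifs at hz with h1
  · exact h1 ▸ h
  · exact absurd rfl hz

lemma SuppIn.one {V : Set G} (h : (0 : G) ∈ V) : SuppIn (1 : RG G) V := SuppIn.single 0 1 h

lemma SuppIn.pow {w : RG G} {V : Set G} (h : SuppIn w V) (n : ℕ) : SuppIn (w ^ n) (n • V) := by
  induction n with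
  | zero => rw [pow_zero, zero_nsmul]; exact SuppIn.one Set.zero_mem_zero
  | succ n ih => rw [pow_succ, succ_nsmul]; exact ih.mul h

lemma SuppIn.smul {w : RG G} {V : Set G} (h : SuppIn w V) (c : ℝ) : SuppIn (c • w) V := by
  intro y hy
  rw [AddMonoidAlgebra.coeff_smul_apply, smul_eq_mul] at hy
  exact h y (right_ne_zero_of_mul hy)

lemma SuppIn.add {w w' : RG G} {V : Set G} (h : SuppIn w V) (h' : SuppIn w' V) :
    SuppIn (w + w') V := by
  intro y hy
  rw [AddMonoidAlgebra.coeff_add, Finsupp.add_apply] at hy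
  by_cases h1 : w.coeff y = 0
  · rw [h1, zero_add] at hy; exact h' y hy
  · exact h y h1

lemma SuppIn.sum {ι : Type} (s : Finset ι) {w : ι → RG G} {V : Set G}
    (h : ∀ i ∈ s, SuppIn (w i) V) : SuppIn (∑ i ∈ s, w i) V := by
  classical
  induction s using Finset.induction_on with
  | empty => intro y hy; simp at hy
  | insert a s ha ih =>
    rw [Finset.sum_insert ha]
    exact (h a (Finset.mem_insert_self a s)).add
      (ih (fun i hi => h i (Finset.mem_insert_of_mem hi)))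

lemma LN.one : LN (1 : RG G) 1 1 :=
  ⟨Prob.one, Prob.one, (one_mul 1).symm, fun g x => by simp only [op_one, le_refl]⟩

lemma LN.mul {A B R A' B' R' : RG G} (h : LN A B R) (h' : LN A' B' R') :
    LN (A * A') (B * B') (R * R') := by
  refine ⟨h.1.mul h'.1, h.2.1.mul h'.2.1, by rw [h.2.2.1, h'.2.2.1]; ring, fun g x => ?_⟩
  calc op (B * B') (fun z => op (R * R') g z ^ 2) x
      = op B' (op B (fun z => op R (op R' g) z ^ 2)) x := by
        rw [mul_comm B, op_mul, op_mul]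
    _ ≤ op B' (op A (fun z => op R' g z ^ 2)) x := op_mono h'.2.1.1 (h.2.2.2 _) x
    _ = op A (op B' (fun z => op R' g z ^ 2)) x := by
        rw [← op_mul, ← op_mul, mul_comm]
    _ ≤ op A (op A' (fun z => g z ^ 2)) x := op_mono h.1.1 (h'.2.2.2 _) x
    _ = _ := by rw [op_mul]

end Alg

/-- Every neighbourhood of `0` contains the sums of at most `n` points of a smaller one. -/
lemma exists_nsmul_subset {G : Type} [AddCommGroup G] [TopologicalSpace G]
    [IsTopologicalAddGroup G] (n : ℕ) {V : Set G} (hV : V ∈ 𝓝 (0 : G)) :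
    ∃ V' ∈ 𝓝 (0 : G), ∀ i ≤ n, i • V' ⊆ V := by
  induction n generalizing V with
  | zero =>
    refine ⟨V, hV, fun i hi => ?_⟩
    rw [Nat.le_zero.mp hi, zero_nsmul]
    exact Set.zero_subset.mpr (mem_of_mem_nhds hV)
  | succ n ih =>
    obtain ⟨U, hU, hUU⟩ := exists_nhds_zero_half hV
    obtain ⟨V', hV', h⟩ := ih hU
    refine ⟨V' ∩ U, inter_mem hV' hU, fun i hi => ?_⟩
    rcases i with _ | i
    · rw [zero_nsmul]
      exact Set.zero_subset.mpr (mem_of_mem_nhds hV)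
    · rw [succ_nsmul]
      rintro _ ⟨x, hx, y, hy, rfl⟩
      exact hUU x (h i (by omega) (Set.nsmul_subset_nsmul_left Set.inter_subset_left hx)) y hy.2

/-! ### The numbers -/

noncomputable def rt (v : ℕ) : ℝ := (1 / 3) ^ v + (1 / 10) * (-1 / 2) ^ v

noncomputable def ZZ (k : ℕ) : ℝ := ∑ v ∈ range (2 * k + 1), rt v

noncomputable def rh (k v : ℕ) : ℝ := if v < 2 * k + 1 then rt v / ZZ k else 0

noncomputable def al (k v : ℕ) : ℝ := 2 / 3 * rh k v + 1 / 3 * (if v = 0 then 0 else rh k (v - 1))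

noncomputable def Tal (k : ℕ) (φ : ℕ → ℝ) (l : ℕ) : ℝ :=
  ∑ v ∈ range (2 * k + 2), al k v * φ (l + v)

noncomputable def ph (k l : ℕ) : ℝ := if l < 2 * k then (-2) ^ l else 0

def SC_st : Prop := ∀ k : ℕ, 1 ≤ k → (∀ v, 0 ≤ al k v) ∧ ∑ v ∈ range (2 * k + 2), al k v = 1 ∧
  ∀ y : ℕ → ℝ, 2 / 3 * (∑ v ∈ range (2 * k + 1), rh k v * y v) ^ 2
    + 1 / 3 * (∑ v ∈ range (2 * k + 1), rh k v * y (v + 1)) ^ 2
      ≤ ∑ v ∈ range (2 * k + 2), al k v * y v ^ 2

def IT_st : Prop := ∀ K : ℕ, ∃ k : ℕ, 1 ≤ k ∧ ∃ s : ℝ, 0 < s ∧ ∀ j < K, s ≤ (Tal k)^[j] (ph k) 0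

/-! ### One letter -/

section Letter

variable {G : Type} [AddCommGroup G]

noncomputable def lB (σ : RG G) : RG G := (2 / 3 : ℝ) • (1 : RG G) + (1 / 3 : ℝ) • σ

noncomputable def lR (k : ℕ) (σ : RG G) : RG G := ∑ v ∈ range (2 * k + 1), rh k v • σ ^ v

noncomputable def lA (k : ℕ) (σ : RG G) : RG G := ∑ v ∈ range (2 * k + 2), al k v • σ ^ v

noncomputable def sg {r : ℕ} (t : Fin r → G) : RG G :=
  ∑ i, AddMonoidAlgebra.single (t i) (1 / (r : ℝ))

/-- No relation with coefficients of size at most `2` has a coefficient `1`. -/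
def Dis {r : ℕ} (t : Fin r → G) : Prop :=
  ∀ ε : Fin r → ℤ, (∀ i, |ε i| ≤ 2) → ∑ i, ε i • t i = 0 → ∀ i, ε i ≠ 1

/-- The invariant of the steps. -/
def Inv (K : ℕ) (a b E : RG G) (c : ℝ) : Prop :=
  (∀ x, 0 ≤ E.coeff x) ∧ (∀ z, op b E.coeff z ≤ 1) ∧
    ∀ j < K, (∀ x, (a ^ j).coeff x ≠ 0 → 0 < E.coeff x) ∧
      op (a ^ j) (fun x => (E.coeff x)⁻¹) 0 ≤ c

lemma sg_prob {r : ℕ} (hr : 0 < r) (t : Fin r → G) : Prob (sg t) := by
  classical
  refine ⟨fun y => ?_, ?_⟩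
  · rw [sg, AddMonoidAlgebra.coeff_sum, Finsupp.finsetSum_apply]
    refine Finset.sum_nonneg (fun i _ => ?_)
    rw [AddMonoidAlgebra.coeff_single, Finsupp.single_apply]
    split_ifs
    · positivity
    · exact le_rfl
  · rw [sg, op_sum_left]
    simp only [op_single, mul_one, Finset.sum_const, Finset.card_univ, Fintype.card_fin,
      nsmul_eq_mul]
    have : (r : ℝ) ≠ 0 := by positivity
    field_simp

lemma op_sg {r : ℕ} (t : Fin r → G) (g : G → ℝ) (x : G) :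
    op (sg t) g x = (∑ i, g (x + t i)) / r := by
  rw [sg, op_sum_left, Finset.sum_div]
  exact Finset.sum_congr rfl (fun i _ => by rw [op_single]; ring)

lemma op_lB (σ : RG G) (g : G → ℝ) (x : G) :
    op (lB σ) g x = 2 / 3 * g x + 1 / 3 * op σ g x := by
  rw [lB, op_add_left, op_smul_left, op_smul_left, op_one]

lemma op_lR (k : ℕ) (σ : RG G) (g : G → ℝ) (x : G) :
    op (lR k σ) g x = ∑ v ∈ range (2 * k + 1), rh k v * op (σ ^ v) g x := by
  rw [lR, op_sum_left]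
  simp only [op_smul_left]

lemma op_lA (k : ℕ) (σ : RG G) (g : G → ℝ) (x : G) :
    op (lA k σ) g x = ∑ v ∈ range (2 * k + 2), al k v * op (σ ^ v) g x := by
  rw [lA, op_sum_left]
  simp only [op_smul_left]

end Letter

section Statements

variable (G : Type) [AddCommGroup G]

def LET_st : Prop := ∀ k : ℕ, 1 ≤ k → ∀ σ : RG G, Prob σ → LN (lA k σ) (lB σ) (lR k σ)

def TRB_st : Prop := ∀ (k : ℕ) (r : ℕ), 0 < r → ∀ t : Fin r → G, Dis t →
  ∃ ψ : G → ℝ, (∀ x, |ψ x| ≤ 4 ^ k) ∧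
    (∀ S : Finset (Fin r), ψ (∑ i ∈ S, t i) = ph k S.card) ∧
    ∀ z, op (lB (sg t)) ψ z ≤ 4 * k * 4 ^ k / r

def TRA_st : Prop := ∀ k : ℕ, 1 ≤ k → ∀ (K r : ℕ), 0 < r → ∀ (t : Fin r → G) (ψ : G → ℝ),
  (∀ x, |ψ x| ≤ 4 ^ k) → (∀ S : Finset (Fin r), ψ (∑ i ∈ S, t i) = ph k S.card) →
  ∀ j < K, (Tal k)^[j] (ph k) 0 - 2 * 4 ^ k * ((K : ℝ) * (2 * k + 2)) ^ 2 / r
    ≤ op (lA k (sg t) ^ j) ψ 0

variable [TopologicalSpace G]

def DIS_st : Prop := ∀ (r : ℕ), ∀ V ∈ 𝓝 (0 : G), ∃ t : Fin r → G, Dis t ∧ ∀ i, t i ∈ V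

def SL_st : Prop := ∀ K : ℕ, ∃ κ : ℝ, 0 ≤ κ ∧ κ < 1 ∧ ∀ V ∈ 𝓝 (0 : G),
  ∃ (A B R : RG G) (e : G → ℝ), LN A B R ∧ SuppIn A V ∧ SuppIn B V ∧
    (∀ j < K, SuppIn (A ^ j) V) ∧ (∀ x, 0 < e x) ∧ (∀ z, op B e z ≤ 1) ∧
    ∀ j < K, op (A ^ j) (fun x => (e x)⁻¹) 0 ≤ κ

def PROD_st : Prop := ∀ E b : RG G, (∀ x, 0 ≤ E.coeff x) → Prob b → ∃ V ∈ 𝓝 (0 : G),
  ∀ (B : RG G) (e : G → ℝ) (c : ℝ), Prob B → SuppIn B V → (∀ y, 0 ≤ e y) →
    (∀ y, e y ≠ 0 → y ∈ V) → (∀ z, op b E.coeff z ≤ c) → (∀ z, op B e z ≤ 1) →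
    ∀ z, op (b * B) (star E e) z ≤ c

def STEP_st : Prop := ∀ K : ℕ, ∃ κ : ℝ, 0 ≤ κ ∧ κ < 1 ∧ ∀ (a b E : RG G) (c : ℝ),
  Prob a → Prob b → Inv K a b E c → ∀ V ∈ 𝓝 (0 : G),
    ∃ A B R E' : RG G, LN A B R ∧ SuppIn A V ∧ SuppIn B V ∧ Inv K (a * A) (b * B) E' (κ * c)

/-- A test pair at a finite level. -/
def Test (K : ℕ) (L : ℝ) (a b : RG G) (W : Set G) : Prop :=
  ∃ g g' : G → ℝ, Continuous g ∧ (∀ x, 0 ≤ g x) ∧ (∀ x, g x ≤ 1) ∧ (∀ z, op b g z ≤ 1 / L) ∧
    (∀ x, ∀ w ∈ W, g' x ≤ g (x + w)) ∧ ∀ j < K, 1 / 2 ≤ op (a ^ j) g' 0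

def STAGE_st : Prop := ∀ (a b : RG G) (K : ℕ) (L : ℝ), Prob a → Prob b → 0 < L →
  ∀ V ∈ 𝓝 (0 : G), ∃ A B R : RG G, LN A B R ∧ SuppIn A V ∧ SuppIn B V ∧
    ∃ W ∈ 𝓝 (0 : G), Test G K L (a * A) (b * B) W

/-- The approximating sequences. -/
def Seq (a b : ℕ → RG G) (U : ℕ → Set G) : Prop :=
  (∀ n, ∃ R, LN (a n) (b n) R) ∧ (∀ n, (0 : G) ∈ U n) ∧
  (∀ n N, n ≤ N → ∃ A B : RG G, Prob A ∧ Prob B ∧ SuppIn A (U n) ∧ SuppIn B (U n) ∧
    a N = a n * A ∧ b N = b n * B) ∧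
  (∀ V ∈ 𝓝 (0 : G), ∃ n, U n ⊆ V) ∧
  ∀ (K : ℕ) (L : ℝ), 0 < L → ∃ (n : ℕ) (W : Set G), (∀ i ≤ K, i • U n ⊆ W) ∧
    Test G K L (a n) (b n) W

def SEQ_st : Prop := ∃ (a b : ℕ → RG G) (U : ℕ → Set G) (C : Set G), IsCompact C ∧
  (∀ n, SuppIn (a n) C) ∧ (∀ n, SuppIn (b n) C) ∧ Seq G a b U

variable {G} in
/-- Uniform continuity. -/
def UC (g : G → ℝ) : Prop :=
  ∀ ε : ℝ, 0 < ε → ∃ V ∈ 𝓝 (0 : G), ∀ x, ∀ v ∈ V, |g (x + v) - g x| ≤ ε

variable [MeasurableSpace G]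

variable {G} in
/-- The averaging operator of a measure. -/
noncomputable def Tm (α : Measure G) (g : G → ℝ) (x : G) : ℝ := ∫ y, g (x + y) ∂α

variable {G} in
/-- Weak convergence along a filter. -/
def Lim (l : Filter ℕ) (a : ℕ → RG G) (α : Measure G) : Prop :=
  ∀ (g : G → ℝ) (M : ℝ), Continuous g → (∀ x, |g x| ≤ M) →
    ∀ x, Tendsto (fun N => op (a N) g x) l (𝓝 (Tm α g x))

def LIM_st : Prop := ∀ (a b : ℕ → RG G) (C : Set G), IsCompact C → (∀ n, Prob (a n)) →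
  (∀ n, Prob (b n)) → (∀ n, SuppIn (a n) C) → (∀ n, SuppIn (b n) C) →
  ∃ (l : Filter ℕ) (α β : Measure G), l.NeBot ∧ l ≤ atTop ∧ IsProbabilityMeasure α ∧
    IsProbabilityMeasure β ∧ Lim l a α ∧ Lim l b β

variable {G} in
def P1 (α β : Measure G) : Prop := ∀ g : G → ℝ, UC g → (∀ x, |g x| ≤ 1) →
  ∃ g₁ : G → ℝ, UC g₁ ∧ (∀ x, |g₁ x| ≤ 1) ∧ ∀ x, |Tm α g x - Tm β g₁ x| ≤ 3 / 4

variable {G} in
def P2 (α β : Measure G) : Prop := ∀ (K : ℕ) (L : ℝ), 0 < L → ∃ g : G → ℝ, Continuous g ∧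
  (∀ x, 0 ≤ g x) ∧ (∀ x, g x ≤ 1) ∧ (∀ x, Tm β g x ≤ 1 / L) ∧ ∀ j < K, 1 / 2 ≤ (Tm α)^[j] g 0

def PA_st : Prop := ∀ (a b : ℕ → RG G) (U : ℕ → Set G) (l : Filter ℕ) (α β : Measure G),
  Seq G a b U → l.NeBot → l ≤ atTop → Lim l a α → Lim l b β → P1 α β

def PB_st : Prop := ∀ (a b : ℕ → RG G) (U : ℕ → Set G) (l : Filter ℕ) (α β : Measure G),
  Seq G a b U → l.NeBot → l ≤ atTop → IsProbabilityMeasure α → Lim l a α → Lim l b β → P2 α β

variable {G} in
/-- A finite measure as a complex measure. -/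
noncomputable def cm (α : Measure G) : ComplexMeasure G := α.withDensityᵥ (fun _ => (1 : ℂ))

variable {G} in
/-- The integral against a complex measure. -/
noncomputable def J (μ : ComplexMeasure G) (f : G → ℂ) : ℂ :=
  VectorMeasure.integral μ f (ContinuousLinearMap.mul ℝ ℂ)

def DEN_st : Prop :=
  (∀ μ : ComplexMeasure G, ∃ (m : Measure G) (h : G → ℂ), IsFiniteMeasure m ∧ Integrable h m ∧
    μ = m.withDensityᵥ h) ∧
  ∀ (m : Measure G) (h f : G → ℂ) (M : ℝ), IsFiniteMeasure m → Integrable h m → Measurable f →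
    (∀ x, ‖f x‖ ≤ M) → J (m.withDensityᵥ h) f = ∫ x, f x * h x ∂m

def FUB_st : Prop := ∀ (μ ν : ComplexMeasure G), conv μ ν = conv ν μ ∧
  ∀ (f : G → ℂ) (M : ℝ), Measurable f → (∀ x, ‖f x‖ ≤ M) →
    J (conv μ ν) f = J μ (fun x => J ν (fun y => f (x + y)))

variable {G} in
/-- A representation of the measure algebra on bounded continuous functions. -/
def Rep (T : ComplexMeasure G →ₗ[ℂ] ((G →ᵇ ℂ) →L[ℂ] (G →ᵇ ℂ))) : Prop :=
  (∀ μ f x, T μ f x = J μ (fun y => f (x + y))) ∧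
  (∀ μ ν, T (conv μ ν) = T μ * T ν) ∧ (∀ μ ν, T μ * T ν = T ν * T μ) ∧
  T (VectorMeasure.dirac (0 : G) (1 : ℂ)) = 1 ∧
  (∀ μ f x, ‖T μ f x‖ ≤ ‖f‖ * μ.variation.real Set.univ) ∧
  ∀ α : Measure G, IsProbabilityMeasure α → ∀ f x, T (cm α) f x = ∫ y, f (x + y) ∂α

def OPS_st : Prop := ∃ T : ComplexMeasure G →ₗ[ℂ] ((G →ᵇ ℂ) →L[ℂ] (G →ᵇ ℂ)), Rep T

def CHAR_st : Prop := ∀ (T : ComplexMeasure G →ₗ[ℂ] ((G →ᵇ ℂ) →L[ℂ] (G →ᵇ ℂ)))
  (α β : Measure G), Rep T → IsProbabilityMeasure α → IsProbabilityMeasure β → P2 α β →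
  ∃ φ : ComplexMeasure G →ₗ[ℂ] ℂ, φ ≠ 0 ∧ (∀ μ ν, φ (conv μ ν) = φ μ * φ ν) ∧
    φ (VectorMeasure.dirac (0 : G) (1 : ℂ) - cm α) = 0 ∧ φ (cm β) = 0

def APX_st : Prop := ∀ (ν : ComplexMeasure G) (s : Set G), MeasurableSet s → ∀ ε : ℝ, 0 < ε →
  ∃ g : G → ℝ, UC g ∧ (∀ x, |g x| ≤ 1) ∧ ‖ν s - J ν (fun x => (g x : ℂ))‖ ≤ ε

def LOW_st : Prop := ∀ (T : ComplexMeasure G →ₗ[ℂ] ((G →ᵇ ℂ) →L[ℂ] (G →ᵇ ℂ)))
  (α β : Measure G), Rep T → IsProbabilityMeasure α → IsProbabilityMeasure β → P1 α β →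
  ∀ ν : ComplexMeasure G, ν.variation Set.univ ≤
    16 * ((conv (VectorMeasure.dirac (0 : G) (1 : ℂ) - cm α) ν).variation Set.univ
      + (conv (cm β) ν).variation Set.univ)

end Statements

section Meas

variable {G : Type} [MeasurableSpace G]

lemma variation_le_re_im (μ : ComplexMeasure G) :
    μ.variation ≤ (ComplexMeasure.re μ).totalVariation + (ComplexMeasure.im μ).totalVariation := by
  apply VectorMeasure.variation_le_of_forall_enorm_le
  intro E _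
  rw [Measure.add_apply]
  refine le_trans ?_ (add_le_add (SignedMeasure.enorm_le_totalVariation _ E)
    (SignedMeasure.enorm_le_totalVariation _ E))
  rw [← ofReal_norm, ← ofReal_norm, ← ofReal_norm,
    ← ENNReal.ofReal_add (norm_nonneg _) (norm_nonneg _)]
  exact ENNReal.ofReal_le_ofReal (Complex.norm_le_abs_re_add_abs_im (μ E))

instance finite_variation (μ : ComplexMeasure G) : IsFiniteMeasure μ.variation :=
  isFiniteMeasure_of_le _ (variation_le_re_im μ)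

lemma signed_variation_le (s : SignedMeasure G) (R : ℝ)
    (h : ∀ U, MeasurableSet U → ‖s U‖ ≤ R) :
    s.totalVariation Set.univ ≤ 2 * ENNReal.ofReal R := by
  rw [SignedMeasure.totalVariation_eq_variation]
  by_contra hlt
  obtain ⟨t, _, ht, hlt'⟩ := s.exists_subset_lt_enorm_apply_of_lt_variation MeasurableSet.univ
    (not_le.mp hlt)
  have : ‖s t‖ₑ ≤ ENNReal.ofReal R := by
    rw [← ofReal_norm]
    exact ENNReal.ofReal_le_ofReal (h t ht)
  exact absurd hlt' (not_lt.mpr (by gcongr))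

lemma variation_le_of_bound (μ : ComplexMeasure G) (R : ℝ)
    (h : ∀ U, MeasurableSet U → ‖μ U‖ ≤ R) :
    μ.variation Set.univ ≤ 4 * ENNReal.ofReal R := by
  refine (variation_le_re_im μ Set.univ).trans ?_
  rw [Measure.add_apply]
  have h1 := signed_variation_le (ComplexMeasure.re μ) R
    (fun U hU => (Complex.abs_re_le_norm (μ U)).trans (h U hU))
  have h2 := signed_variation_le (ComplexMeasure.im μ) R
    (fun U hU => (Complex.abs_im_le_norm (μ U)).trans (h U hU))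
  refine (add_le_add h1 h2).trans (le_of_eq ?_)
  ring

end Meas

lemma UC.continuous {G : Type} [AddCommGroup G] [TopologicalSpace G] [IsTopologicalAddGroup G]
    {g : G → ℝ} (h : UC g) : Continuous g := by
  rw [continuous_iff_continuousAt]
  intro x
  rw [ContinuousAt, Metric.tendsto_nhds]
  intro ε hε
  obtain ⟨V, hV, hg⟩ := h (ε / 2) (by positivity)
  have h1 : Tendsto (fun y => -x + y) (𝓝 x) (𝓝 (0 : G)) := by
    have : Tendsto (fun y => -x + y) (𝓝 x) (𝓝 (-x + x)) :=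
      (continuous_const.add continuous_id).tendsto x
    rwa [neg_add_cancel] at this
  filter_upwards [h1 hV] with y hy
  have h2 := hg x (-x + y) hy
  rw [add_neg_cancel_left] at h2
  rw [Real.dist_eq]
  linarith

lemma continuous_op {G : Type} [AddCommGroup G] [TopologicalSpace G] [IsTopologicalAddGroup G]
    (w : RG G) {g : G → ℝ} (h : Continuous g) : Continuous (op w g) := by
  have : op w g = fun x => ∑ y ∈ w.coeff.support, w.coeff y * g (x + y) := rfl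
  rw [this]
  fun_prop

end Pool.Agent.MP_4cde56_an.ND
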